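import Pool.Agent.TH270.Rec.Defs

set_option autoImplicit false

/-! Positive upper Banach density in terms of windows of every length. -/

namespace Pool.Agent.TH270.Rec

open Filter Topology Set
open scoped Classical

/-- positive upper Banach density, all window lengths -/
lemma posBD_iff (A : Set ℕ) : PosBD A ↔ ∃ δ : ℝ, 0 < δ ∧ ∀ N : ℕ, 1 ≤ N → ∃ m : ℕ,
    δ * (N : ℝ) ≤ (({n : ℕ | m ≤ n ∧ n < m + N ∧ n ∈ A}).ncard : ℝ) := by
  constructor
  · rintro ⟨δ, hδ, H⟩
    refine ⟨δ / 2, by positivity, fun N hN => ?_⟩
    obtain ⟨a, L, hNL, hL, hc⟩ := H N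
    by_contra hcon
    push Not at hcon
    -- number of blocks
    set q := L / N + 1 with hq
    have hqN : L ≤ q * N := by
      have := Nat.div_add_mod L N
      have h2 := Nat.mod_lt L (show 0 < N by omega)
      rw [hq, Nat.add_mul, one_mul, Nat.mul_comm]
      omega
    have hqN2 : q * N ≤ 2 * L := by
      have := Nat.div_mul_le_self L N
      rw [hq, Nat.add_mul, one_mul]
      omega
    have hNpos : (0 : ℝ) < N := by exact_mod_cast hN
    have hblock : ∀ m : ℕ, ((((Finset.range N).filter fun h => m + h ∈ A).card : ℕ) : ℝ) <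
        δ / 2 * N := by
      intro m
      refine lt_of_le_of_lt ?_ (hcon m)
      have : {n : ℕ | m ≤ n ∧ n < m + N ∧ n ∈ A} =
          ((((Finset.range N).filter fun h => m + h ∈ A).image fun h => m + h : Finset ℕ) :
            Set ℕ) := by
        ext n
        simp only [Set.mem_ofPred_eq, Finset.coe_image, Finset.coe_filter, Set.mem_image,
          Finset.mem_range]
        constructor
        · rintro ⟨h1, h2, h3⟩
          refine ⟨n - m, ⟨by omega, ?_⟩, by omega⟩
          rwa [show m + (n - m) = n by omega]
        · rintro ⟨h, ⟨h1, h2⟩, rfl⟩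
          exact ⟨by omega, by omega, h2⟩
      rw [this, Set.ncard_coe_finset, Finset.card_image_of_injective _ (add_right_injective m)]
    have hcover : ((Finset.range L).filter fun h => a + h ∈ A).card ≤
        ∑ i ∈ Finset.range q, ((Finset.range N).filter fun h => a + i * N + h ∈ A).card := by
      have hsub : ((Finset.range L).filter fun h => a + h ∈ A) ⊆
          (Finset.range q).biUnion fun i =>
            ((Finset.range N).filter fun h => a + i * N + h ∈ A).image fun h => i * N + h := by
        intro h hh
        rw [Finset.mem_filter, Finset.mem_range] at hh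
        rw [Finset.mem_biUnion]
        refine ⟨h / N, Finset.mem_range.2 ?_, ?_⟩
        · exact Nat.div_lt_of_lt_mul (by rw [Nat.mul_comm]; omega)
        · rw [Finset.mem_image]
          refine ⟨h % N, Finset.mem_filter.2 ⟨Finset.mem_range.2 (Nat.mod_lt _ (by omega)), ?_⟩,
            by rw [Nat.mul_comm]; exact Nat.div_add_mod h N⟩
          rw [add_assoc, Nat.mul_comm (h / N), Nat.div_add_mod]
          exact hh.2
      refine (Finset.card_le_card hsub).trans (Finset.card_biUnion_le.trans ?_)
      exact Finset.sum_le_sum fun i _ => Finset.card_image_le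
    have h1 : (((Finset.range L).filter fun h => a + h ∈ A).card : ℝ) ≤
        ∑ i ∈ Finset.range q, ((((Finset.range N).filter fun h => a + i * N + h ∈ A).card : ℕ) :
          ℝ) := by
      exact_mod_cast hcover
    have h2 : ∑ i ∈ Finset.range q, ((((Finset.range N).filter fun h =>
        a + i * N + h ∈ A).card : ℕ) : ℝ) < ∑ _i ∈ Finset.range q, δ / 2 * N :=
      Finset.sum_lt_sum_of_nonempty ⟨0, Finset.mem_range.2 (Nat.succ_pos _)⟩ fun i _ => hblock _
    rw [Finset.sum_const, Finset.card_range, nsmul_eq_mul] at h2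
    have h3 : (q : ℝ) * N ≤ 2 * L := by exact_mod_cast hqN2
    have h4 : (q : ℝ) * (δ / 2 * N) ≤ δ * L := by nlinarith
    linarith
  · rintro ⟨δ, hδ, H⟩
    refine ⟨δ, hδ, fun N => ?_⟩
    obtain ⟨m, hm⟩ := H (max N 1) (le_max_right _ _)
    refine ⟨m, max N 1, le_max_left _ _, le_max_right _ _, hm.trans ?_⟩
    have : {n : ℕ | m ≤ n ∧ n < m + max N 1 ∧ n ∈ A} =
        ((((Finset.range (max N 1)).filter fun h => m + h ∈ A).image fun h => m + h : Finset ℕ) :
          Set ℕ) := by
      ext n
      simp only [Set.mem_ofPred_eq, Finset.coe_image, Finset.coe_filter, Set.mem_image,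
        Finset.mem_range]
      constructor
      · rintro ⟨h1, h2, h3⟩
        refine ⟨n - m, ⟨by omega, ?_⟩, by omega⟩
        rwa [show m + (n - m) = n by omega]
      · rintro ⟨h, ⟨h1, h2⟩, rfl⟩
        exact ⟨by omega, by omega, h2⟩
    rw [this, Set.ncard_coe_finset, Finset.card_image_of_injective _ (add_right_injective m)]

end Pool.Agent.TH270.Rec
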