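import Pool.Agent.TH270.Rec.ErgUse

set_option autoImplicit false

/-! Coarse alignment, choice of the window, and the algebraic estimate. -/

namespace Pool.Agent.TH270.Rec

open Filter Topology Set
open scoped Classical

/-- complex indicator -/
noncomputable def indC (A : Set ℕ) : ℕ → ℂ := fun n => (ind A n : ℂ)

lemma bddC_indC (A : Set ℕ) : BddC (indC A) := BddC.ofReal (bdd_ind A)

lemma norm_indC (A : Set ℕ) (n : ℕ) : ‖indC A n‖ = ind A n := by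
  unfold indC
  rw [Complex.norm_real, Real.norm_of_nonneg (ind_nonneg A n)]

lemma norm_indC_le_one (A : Set ℕ) (n : ℕ) : ‖indC A n‖ ≤ 1 := by
  rw [norm_indC]; exact Rec.ind_le_one A n

lemma IsMean.norm_fc_indC_le {M : (ℕ → ℝ) → ℝ} (hM : IsMean M) (A : Set ℕ) (z : Circle) :
    ‖fc M (indC A) z‖ ≤ M (ind A) := by
  refine (hM.norm_fc_le (bddC_indC A) z).trans (le_of_eq ?_)
  congr 1
  funext n
  exact norm_indC A n

lemma IsMean.sq_indC_le_one {M : (ℕ → ℝ) → ℝ} (hM : IsMean M) (A : Set ℕ) :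
    M (fun n => ‖indC A n‖ ^ 2) ≤ 1 :=
  hM.le_of_le (bddC_indC A).normSq fun n => by
    rw [norm_indC, ind_sq]; exact Rec.ind_le_one A n

lemma IsMean.fc_ofReal_inv {M : (ℕ → ℝ) → ℝ} (hM : IsMean M) {f : ℕ → ℝ} (hf : Bdd f)
    (z : Circle) : fc M (fun n => (f n : ℂ)) z⁻¹ = (starRingEnd ℂ) (fc M (fun n => (f n : ℂ)) z) := by
  unfold fc
  rw [← hM.mc_conj ((BddC.ofReal hf).mul (BddC.char z))]
  congr 1
  funext n
  rw [map_mul, conj_char, Complex.conj_ofReal]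

lemma IsMean.fc_indC_inv {M : (ℕ → ℝ) → ℝ} (hM : IsMean M) (A : Set ℕ)
    (z : Circle) : fc M (indC A) z⁻¹ = (starRingEnd ℂ) (fc M (indC A) z) :=
  hM.fc_ofReal_inv (bdd_ind A) z

lemma IsMean.fc_indC_one {M : (ℕ → ℝ) → ℝ} (hM : IsMean M) (A : Set ℕ) :
    fc M (indC A) 1 = (M (ind A) : ℂ) := by
  unfold fc indC
  rw [← hM.mc_ofReal]
  congr 1
  funext n
  simp

/-- coarse alignment -/
lemma coarse {MA MB : (ℕ → ℝ) → ℝ} (hMA : IsMean MA) (hMB : IsMean MB) {A B : Set ℕ}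
    (hα : 0 < MA (ind A)) (hβ : 0 < MB (ind B)) {Θ : Finset Circle} (h1 : (1 : Circle) ∈ Θ) :
    ∃ n ∈ A, ∃ n' ∈ B, MA (ind A) * MB (ind B) / 2 <
      (∑ z ∈ Θ, fc MA (indC A) z⁻¹ * fc MB (indC B) z * ((z : ℂ) ^ n *
        ((z⁻¹ : Circle) : ℂ) ^ n')).re := by
  set α := MA (ind A) with hαd
  set β := MB (ind B) with hβd
  set a : Circle → ℂ := fun z => fc MA (indC A) z⁻¹ with ha
  set b : Circle → ℂ := fun z => fc MB (indC B) z with hb
  by_contra hcon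
  push Not at hcon
  set R : ℕ → ℕ → ℂ := fun n n' => ∑ z ∈ Θ, a z * b z * ((z : ℂ) ^ n * ((z⁻¹ : Circle) : ℂ) ^ n')
    with hR
  set S : ℕ → ℂ := fun n => ∑ z ∈ Θ, a z * b z * (starRingEnd ℂ) (b z) * (z : ℂ) ^ n with hS
  have hSb : BddC S := BddC.sum fun z _ => (BddC.char z).const_mul _
  have hRb : ∀ n, BddC (R n) := fun n => BddC.sum fun z _ =>
    ((BddC.const _).mul (BddC.char z⁻¹)).const_mul _
  have hS1 : ∀ n, mc MB (fun n' => indC B n' * R n n') = S n := by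
    intro n
    have h2 : (fun n' => indC B n' * R n n') = fun n' => ∑ z ∈ Θ, (a z * b z * (z : ℂ) ^ n) *
        (indC B n' * ((z⁻¹ : Circle) : ℂ) ^ n') := by
      funext n'
      simp only [hR]
      rw [Finset.mul_sum]
      exact Finset.sum_congr rfl fun z _ => by ring
    rw [h2, hMB.mc_sum fun z _ => ((bddC_indC B).mul (BddC.char z⁻¹)).const_mul _]
    simp only [hS]
    refine Finset.sum_congr rfl fun z _ => ?_
    rw [hMB.mc_smul _ ((bddC_indC B).mul (BddC.char z⁻¹))]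
    have h3 : mc MB (fun n' => indC B n' * ((z⁻¹ : Circle) : ℂ) ^ n') = (starRingEnd ℂ) (b z) :=
      hMB.fc_indC_inv B z
    rw [h3]
    ring
  have hS2 : mc MA (fun n => indC A n * S n) = ((∑ z ∈ Θ, ‖a z‖ ^ 2 * ‖b z‖ ^ 2 : ℝ) : ℂ) := by
    have h2 : (fun n => indC A n * S n) = fun n => ∑ z ∈ Θ, (a z * b z * (starRingEnd ℂ) (b z)) *
        (indC A n * (z : ℂ) ^ n) := by
      funext n
      simp only [hS]
      rw [Finset.mul_sum]
      exact Finset.sum_congr rfl fun z _ => by ring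
    rw [h2, hMA.mc_sum fun z _ => ((bddC_indC A).mul (BddC.char z)).const_mul _,
      Complex.ofReal_sum]
    refine Finset.sum_congr rfl fun z _ => ?_
    rw [hMA.mc_smul _ ((bddC_indC A).mul (BddC.char z))]
    have h3 : mc MA (fun n => indC A n * (z : ℂ) ^ n) = (starRingEnd ℂ) (a z) := by
      have := hMA.fc_indC_inv A z⁻¹
      rw [inv_inv] at this
      exact this
    rw [h3]
    have h4 : a z * b z * (starRingEnd ℂ) (b z) * (starRingEnd ℂ) (a z) =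
        (a z * (starRingEnd ℂ) (a z)) * (b z * (starRingEnd ℂ) (b z)) := by ring
    rw [h4, Complex.mul_conj, Complex.mul_conj, Complex.normSq_eq_norm_sq,
      Complex.normSq_eq_norm_sq]
    push_cast
    ring
  -- upper bound
  have hup1 : ∀ n ∈ A, (S n).re ≤ α * β / 2 * β := by
    intro n hn
    rw [← hS1 n, hMB.mc_re, hβd, ← hMB.smul' _ (bdd_ind B)]
    refine hMB.mono ((bddC_indC B).mul (hRb n)).re ((bdd_ind B).const_mul _) fun n' => ?_
    have h5 : (indC B n' * R n n').re = ind B n' * (R n n').re := by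
      unfold indC; rw [Complex.re_ofReal_mul]
    rw [h5]
    by_cases hn' : n' ∈ B
    · rw [ind_mem hn', one_mul, mul_one]
      exact hcon n hn n' hn'
    · have : ind B n' = 0 := by unfold ind; rw [if_neg hn']
      rw [this, zero_mul, mul_zero]
  have hup2 : (mc MA (fun n => indC A n * S n)).re ≤ α * β / 2 * β * α := by
    rw [hMA.mc_re]
    conv_rhs => rw [hαd, ← hMA.smul' _ (bdd_ind A)]
    refine hMA.mono ((bddC_indC A).mul hSb).re ((bdd_ind A).const_mul _) fun n => ?_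
    have h5 : (indC A n * S n).re = ind A n * (S n).re := by
      unfold indC; rw [Complex.re_ofReal_mul]
    rw [h5]
    by_cases hn : n ∈ A
    · rw [ind_mem hn, one_mul, mul_one]
      exact hup1 n hn
    · have : ind A n = 0 := by unfold ind; rw [if_neg hn]
      rw [this, zero_mul, mul_zero]
  rw [hS2, Complex.ofReal_re] at hup2
  have hlow : α ^ 2 * β ^ 2 ≤ ∑ z ∈ Θ, ‖a z‖ ^ 2 * ‖b z‖ ^ 2 := by
    have h6 : ‖a 1‖ ^ 2 * ‖b 1‖ ^ 2 ≤ ∑ z ∈ Θ, ‖a z‖ ^ 2 * ‖b z‖ ^ 2 :=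
      Finset.single_le_sum (f := fun z => ‖a z‖ ^ 2 * ‖b z‖ ^ 2) (fun z _ => by positivity) h1
    have h7 : ‖a 1‖ = α := by
      simp only [ha]
      rw [inv_one, hMA.fc_indC_one, Complex.norm_real, Real.norm_of_nonneg hα.le]
    have h8 : ‖b 1‖ = β := by
      simp only [hb]
      rw [hMB.fc_indC_one, Complex.norm_real, Real.norm_of_nonneg hβ.le]
    rwa [h7, h8] at h6
  have h9 : 0 < α ^ 2 * β ^ 2 := by positivity
  nlinarith

/-- choice of a long window of `B` with almost exact Fourier coefficients -/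
lemma exists_window {MB : (ℕ → ℝ) → ℝ} (hMB : IsErg MB) (B : Set ℕ) (Θ : Finset Circle)
    {ε : ℝ} (hε : 0 < ε) (N n₁ : ℕ) : ∃ L c : ℕ, N ≤ L ∧ 1 ≤ L ∧ ∀ z ∈ Θ,
      ‖(L : ℂ)⁻¹ * ∑ h ∈ Finset.range L, indC B (n₁ + c + h) * (z : ℂ) ^ (n₁ + c + h) -
        fc MB (indC B) z‖ < ε := by
  have hg : ∀ z : Circle, BddC (fun n => indC B n * (z : ℂ) ^ n) :=
    fun z => (bddC_indC B).mul (BddC.char z)
  set D : Circle → ℕ → ℕ → ℂ := fun z L n => (L : ℂ)⁻¹ * ∑ h ∈ Finset.range L,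
    (indC B (n + h) * (z : ℂ) ^ (n + h)) - fc MB (indC B) z with hD
  have hDb : ∀ z L, BddC (D z L) := fun z L =>
    ((BddC.sum fun h _ => (hg z).comp (fun n => n + h)).const_mul _).sub (BddC.const _)
  have h1 : Tendsto (fun L : ℕ => ∑ z ∈ Θ, MB (fun n => ‖D z L n‖ ^ 2)) atTop (𝓝 0) := by
    have := tendsto_finsetSum Θ (fun z _ => hMB.ergC (hg z))
    rw [Finset.sum_const_zero] at this
    exact this
  obtain ⟨L, hL1, hL⟩ := ((eventually_ge_atTop (max N 1)).and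
    (h1.eventually (gt_mem_nhds (show (0 : ℝ) < ε ^ 2 by positivity)))).exists
  rw [← hMB.mean.sum' (fun z _ => (hDb z L).normSq)] at hL
  rw [← hMB.mean.shift' (Bdd.sum fun z _ => (hDb z L).normSq) n₁] at hL
  obtain ⟨c, hc⟩ := hMB.mean.exists_lt ((Bdd.sum fun z _ => (hDb z L).normSq).comp _) hL
  refine ⟨L, c, (le_max_left _ _).trans hL1, (le_max_right _ _).trans hL1, fun z hz => ?_⟩
  have h2 : ‖D z L (c + n₁)‖ ^ 2 < ε ^ 2 := by
    refine lt_of_le_of_lt ?_ hc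
    exact Finset.single_le_sum (f := fun z => ‖D z L (c + n₁)‖ ^ 2) (fun z _ => by positivity) hz
  have h3 : ‖D z L (c + n₁)‖ < ε := lt_of_pow_lt_pow_left₀ 2 hε.le h2
  rw [add_comm c n₁] at h3
  exact h3

/-- the algebraic estimate of the main term -/
lemma main_bound {a b C p o : Circle → ℂ} {Θ0 ΘP Θ1 : Finset Circle} (h01 : Θ0 ⊆ ΘP)
    (hP1 : ΘP ⊆ Θ1) {π b0 ε ε1 η r : ℝ} {n0 n0' : ℕ} (hπ : 0 ≤ π) (hb0 : 0 ≤ b0)
    (hη : 0 ≤ η) (hε1 : 0 ≤ ε1)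
    (ha : ∀ z, ‖a z‖ ≤ 1) (hb : ∀ z, ‖b z‖ ≤ 1) (hC : ∀ z, ‖C z‖ ≤ 1) (hp : ∀ z, ‖p z‖ ≤ b0)
    (ho : ∀ z, ‖o z‖ ≤ π)
    (tail1 : ∑ z ∈ Θ1 \ ΘP, ‖a z‖ * ‖o z‖ ≤ ε * π)
    (tail2 : ∑ z ∈ ΘP \ Θ0, ‖a z‖ * ‖b z‖ ≤ ε)
    (hcard : (ΘP.card : ℝ) * ε1 ≤ ε)
    (hCP : ∀ z ∈ ΘP, ‖C z‖ ≤ ‖b z‖ + ε1)
    (hC0 : ∀ z ∈ Θ0, ‖C z - ((z⁻¹ : Circle) : ℂ) ^ n0' * b z‖ ≤ η + ε1)
    (ho0 : ∀ z ∈ Θ0, ‖o z - π * (z : ℂ) ^ n0‖ ≤ π * η)
    (hp0 : ∀ z ∈ Θ0, ‖p z - b0‖ ≤ 2 * η * b0)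
    (hR : r < (∑ z ∈ Θ0, a z * b z * ((z : ℂ) ^ n0 * ((z⁻¹ : Circle) : ℂ) ^ n0')).re) :
    π * b0 * (r - 4 * (Θ0.card : ℝ) * η - 4 * ε) ≤ (∑ z ∈ Θ1, a z * C z * p z * o z).re := by
  set T : Circle → ℂ := fun z => a z * C z * p z * o z with hT
  have hTn : ∀ z, ‖T z‖ = ‖a z‖ * ‖C z‖ * ‖p z‖ * ‖o z‖ := fun z => by
    simp only [hT, norm_mul]
  have hsplit : ∑ z ∈ Θ1, T z = ∑ z ∈ Θ1 \ ΘP, T z + (∑ z ∈ ΘP \ Θ0, T z + ∑ z ∈ Θ0, T z) := by
    rw [Finset.sum_sdiff h01, Finset.sum_sdiff hP1]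
  have hπb : 0 ≤ π * b0 := mul_nonneg hπ hb0
  -- first tail
  have t1 : ‖∑ z ∈ Θ1 \ ΘP, T z‖ ≤ π * b0 * ε := by
    calc ‖∑ z ∈ Θ1 \ ΘP, T z‖ ≤ ∑ z ∈ Θ1 \ ΘP, ‖T z‖ := norm_sum_le _ _
      _ ≤ ∑ z ∈ Θ1 \ ΘP, b0 * (‖a z‖ * ‖o z‖) := by
          refine Finset.sum_le_sum fun z _ => ?_
          rw [hTn]
          have e1 : ‖a z‖ * ‖C z‖ ≤ ‖a z‖ * 1 := mul_le_mul_of_nonneg_left (hC z) (norm_nonneg _)
          have e2 : ‖a z‖ * ‖C z‖ * ‖p z‖ ≤ ‖a z‖ * 1 * b0 :=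
            mul_le_mul e1 (hp z) (norm_nonneg _) (by positivity)
          calc ‖a z‖ * ‖C z‖ * ‖p z‖ * ‖o z‖ ≤ ‖a z‖ * 1 * b0 * ‖o z‖ :=
                mul_le_mul_of_nonneg_right e2 (norm_nonneg _)
            _ = b0 * (‖a z‖ * ‖o z‖) := by ring
      _ = b0 * ∑ z ∈ Θ1 \ ΘP, ‖a z‖ * ‖o z‖ := by rw [Finset.mul_sum]
      _ ≤ b0 * (ε * π) := mul_le_mul_of_nonneg_left tail1 hb0
      _ = π * b0 * ε := by ring
  -- second tail
  have t2 : ‖∑ z ∈ ΘP \ Θ0, T z‖ ≤ π * b0 * (2 * ε) := by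
    calc ‖∑ z ∈ ΘP \ Θ0, T z‖ ≤ ∑ z ∈ ΘP \ Θ0, ‖T z‖ := norm_sum_le _ _
      _ ≤ ∑ z ∈ ΘP \ Θ0, π * b0 * (‖a z‖ * ‖b z‖ + ε1) := by
          refine Finset.sum_le_sum fun z hz => ?_
          have hzP : z ∈ ΘP := (Finset.mem_sdiff.1 hz).1
          rw [hTn]
          have e1 : ‖a z‖ * ‖C z‖ ≤ ‖a z‖ * ‖b z‖ + ε1 := by
            have e0 : ‖a z‖ * ‖C z‖ ≤ ‖a z‖ * (‖b z‖ + ε1) :=
              mul_le_mul_of_nonneg_left (hCP z hzP) (norm_nonneg _)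
            have e00 : ‖a z‖ * ε1 ≤ 1 * ε1 := mul_le_mul_of_nonneg_right (ha z) hε1
            nlinarith
          have e2 : ‖a z‖ * ‖C z‖ * ‖p z‖ ≤ (‖a z‖ * ‖b z‖ + ε1) * b0 :=
            mul_le_mul e1 (hp z) (norm_nonneg _) (by positivity)
          calc ‖a z‖ * ‖C z‖ * ‖p z‖ * ‖o z‖ ≤ (‖a z‖ * ‖b z‖ + ε1) * b0 * π :=
                mul_le_mul e2 (ho z) (norm_nonneg _) (by positivity)
            _ = π * b0 * (‖a z‖ * ‖b z‖ + ε1) := by ring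
      _ = π * b0 * (∑ z ∈ ΘP \ Θ0, ‖a z‖ * ‖b z‖ + ((ΘP \ Θ0).card : ℝ) * ε1) := by
          rw [← Finset.mul_sum, Finset.sum_add_distrib, Finset.sum_const, nsmul_eq_mul]
      _ ≤ π * b0 * (2 * ε) := by
          apply mul_le_mul_of_nonneg_left _ hπb
          have e3 : ((ΘP \ Θ0).card : ℝ) * ε1 ≤ (ΘP.card : ℝ) * ε1 := by
            apply mul_le_mul_of_nonneg_right _ hε1
            exact_mod_cast Finset.card_le_card Finset.sdiff_subset
          linarith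
  -- main part
  have t3 : ‖∑ z ∈ Θ0, T z - (π * b0 : ℝ) * ∑ z ∈ Θ0, a z * b z *
      ((z : ℂ) ^ n0 * ((z⁻¹ : Circle) : ℂ) ^ n0')‖ ≤
      π * b0 * (4 * (Θ0.card : ℝ) * η + ε) := by
    rw [Finset.mul_sum, ← Finset.sum_sub_distrib]
    calc _ ≤ ∑ z ∈ Θ0, ‖T z - (π * b0 : ℝ) * (a z * b z *
          ((z : ℂ) ^ n0 * ((z⁻¹ : Circle) : ℂ) ^ n0'))‖ := norm_sum_le _ _
      _ ≤ ∑ z ∈ Θ0, π * b0 * (4 * η + ε1) := by
          refine Finset.sum_le_sum fun z hz => ?_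
          set C' : ℂ := ((z⁻¹ : Circle) : ℂ) ^ n0' * b z with hC'
          have hC'n : ‖C'‖ ≤ 1 := by
            rw [hC', norm_mul, norm_pow, Circle.norm_coe, one_pow, one_mul]
            exact hb z
          have e : T z - (π * b0 : ℝ) * (a z * b z * ((z : ℂ) ^ n0 * ((z⁻¹ : Circle) : ℂ) ^ n0')) =
              a z * ((C z - C') * p z * o z + C' * (p z - b0) * o z +
                C' * b0 * (o z - π * (z : ℂ) ^ n0)) := by
            simp only [hT, hC']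
            push_cast
            ring
          rw [e, norm_mul]
          have e1 : ‖(C z - C') * p z * o z‖ ≤ (η + ε1) * b0 * π := by
            rw [norm_mul, norm_mul]
            exact mul_le_mul (mul_le_mul (hC0 z hz) (hp z) (norm_nonneg _) (by positivity)) (ho z)
              (norm_nonneg _) (by positivity)
          have e2 : ‖C' * (p z - b0) * o z‖ ≤ 1 * (2 * η * b0) * π := by
            rw [norm_mul, norm_mul]
            exact mul_le_mul (mul_le_mul hC'n (hp0 z hz) (norm_nonneg _) (by positivity)) (ho z)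
              (norm_nonneg _) (by positivity)
          have e3 : ‖C' * b0 * (o z - π * (z : ℂ) ^ n0)‖ ≤ 1 * b0 * (π * η) := by
            rw [norm_mul, norm_mul]
            have : ‖(b0 : ℂ)‖ ≤ b0 := by rw [Complex.norm_real, Real.norm_of_nonneg hb0]
            exact mul_le_mul (mul_le_mul hC'n this (norm_nonneg _) (by positivity)) (ho0 z hz)
              (norm_nonneg _) (by positivity)
          have e4 := norm_add₃_le (a := (C z - C') * p z * o z) (b := C' * (p z - b0) * o z)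
            (c := C' * b0 * (o z - π * (z : ℂ) ^ n0))
          calc _ ≤ 1 * ((η + ε1) * b0 * π + 1 * (2 * η * b0) * π + 1 * b0 * (π * η)) :=
                mul_le_mul (ha z) (by linarith) (norm_nonneg _) zero_le_one
            _ = π * b0 * (4 * η + ε1) := by ring
      _ = π * b0 * (4 * (Θ0.card : ℝ) * η + (Θ0.card : ℝ) * ε1) := by
          rw [Finset.sum_const, nsmul_eq_mul]; ring
      _ ≤ π * b0 * (4 * (Θ0.card : ℝ) * η + ε) := by
          apply mul_le_mul_of_nonneg_left _ hπb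
          have e3 : (Θ0.card : ℝ) * ε1 ≤ (ΘP.card : ℝ) * ε1 := by
            apply mul_le_mul_of_nonneg_right _ hε1
            exact_mod_cast Finset.card_le_card h01
          linarith
  have r1 := (Complex.abs_re_le_norm _).trans t1
  have r2 := (Complex.abs_re_le_norm _).trans t2
  have r3 := (Complex.abs_re_le_norm _).trans t3
  rw [abs_le] at r1 r2 r3
  rw [Complex.sub_re, Complex.re_ofReal_mul] at r3
  show _ ≤ (∑ z ∈ Θ1, T z).re
  rw [hsplit, Complex.add_re, Complex.add_re]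
  have r4 : π * b0 * r ≤ π * b0 * (∑ z ∈ Θ0, a z * b z *
      ((z : ℂ) ^ n0 * ((z⁻¹ : Circle) : ℂ) ^ n0')).re := mul_le_mul_of_nonneg_left hR.le hπb
  have r5 : π * b0 * (r - 4 * (Θ0.card : ℝ) * η - 4 * ε) =
      π * b0 * r - π * b0 * (4 * (Θ0.card : ℝ) * η + ε) - π * b0 * (2 * ε) - π * b0 * ε := by ring
  rw [r5]
  linarith [r1.1, r2.1, r3.1]

end Pool.Agent.TH270.Rec
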