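import Pool.Agent.TH270.Rec.Defs

set_option autoImplicit false

/-! Basic calculus of invariant means on bounded sequences. -/

namespace Pool.Agent.TH270.Rec

open Filter Topology Set

section bdd

lemma Bdd.add {f g : ℕ → ℝ} (hf : Bdd f) (hg : Bdd g) : Bdd (fun n => f n + g n) := by
  obtain ⟨C, hC⟩ := hf
  obtain ⟨D, hD⟩ := hg
  exact ⟨C + D, fun n => (abs_add_le _ _).trans (add_le_add (hC n) (hD n))⟩

lemma Bdd.neg {f : ℕ → ℝ} (hf : Bdd f) : Bdd (fun n => -f n) := by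
  obtain ⟨C, hC⟩ := hf
  exact ⟨C, fun n => by rw [abs_neg]; exact hC n⟩

lemma Bdd.sub {f g : ℕ → ℝ} (hf : Bdd f) (hg : Bdd g) : Bdd (fun n => f n - g n) := by
  simpa [sub_eq_add_neg] using hf.add hg.neg

lemma Bdd.mul {f g : ℕ → ℝ} (hf : Bdd f) (hg : Bdd g) : Bdd (fun n => f n * g n) := by
  obtain ⟨C, hC⟩ := hf
  obtain ⟨D, hD⟩ := hg
  refine ⟨C * D, fun n => ?_⟩
  rw [abs_mul]
  exact mul_le_mul (hC n) (hD n) (abs_nonneg _) ((abs_nonneg _).trans (hC n))

lemma Bdd.const (c : ℝ) : Bdd (fun _ => c) := ⟨|c|, fun _ => le_rfl⟩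

lemma Bdd.const_mul {f : ℕ → ℝ} (c : ℝ) (hf : Bdd f) : Bdd (fun n => c * f n) :=
  (Bdd.const c).mul hf

lemma Bdd.pow {f : ℕ → ℝ} (hf : Bdd f) (k : ℕ) : Bdd (fun n => f n ^ k) := by
  obtain ⟨C, hC⟩ := hf
  refine ⟨C ^ k, fun n => ?_⟩
  rw [abs_pow]
  exact pow_le_pow_left₀ (abs_nonneg _) (hC n) k

lemma Bdd.sum {ι : Type*} {s : Finset ι} {f : ι → ℕ → ℝ} (hf : ∀ i ∈ s, Bdd (f i)) :
    Bdd (fun n => ∑ i ∈ s, f i n) := by
  classical
  induction s using Finset.induction_on with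
  | empty => simpa using Bdd.const 0
  | insert a s ha ih =>
    simp only [Finset.sum_insert ha]
    exact (hf a (Finset.mem_insert_self a s)).add (ih fun i hi => hf i (Finset.mem_insert_of_mem hi))

lemma Bdd.comp {f : ℕ → ℝ} (hf : Bdd f) (φ : ℕ → ℕ) : Bdd (fun n => f (φ n)) := by
  obtain ⟨C, hC⟩ := hf
  exact ⟨C, fun n => hC _⟩

lemma Bdd.of_le {f : ℕ → ℝ} (C : ℝ) (hC : ∀ n, |f n| ≤ C) : Bdd f := ⟨C, hC⟩

lemma bdd_ind (A : Set ℕ) : Bdd (ind A) := by
  refine ⟨1, fun n => ?_⟩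
  unfold ind
  split_ifs <;> simp

lemma BddC.re {f : ℕ → ℂ} (hf : BddC f) : Bdd (fun n => (f n).re) := by
  obtain ⟨C, hC⟩ := hf
  exact ⟨C, fun n => (Complex.abs_re_le_norm _).trans (hC n)⟩

lemma BddC.im {f : ℕ → ℂ} (hf : BddC f) : Bdd (fun n => (f n).im) := by
  obtain ⟨C, hC⟩ := hf
  exact ⟨C, fun n => (Complex.abs_im_le_norm _).trans (hC n)⟩

lemma BddC.norm {f : ℕ → ℂ} (hf : BddC f) : Bdd (fun n => ‖f n‖) := by
  obtain ⟨C, hC⟩ := hf
  exact ⟨C, fun n => by rw [abs_of_nonneg (norm_nonneg _)]; exact hC n⟩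

lemma BddC.add {f g : ℕ → ℂ} (hf : BddC f) (hg : BddC g) : BddC (fun n => f n + g n) := by
  obtain ⟨C, hC⟩ := hf
  obtain ⟨D, hD⟩ := hg
  exact ⟨C + D, fun n => (norm_add_le _ _).trans (add_le_add (hC n) (hD n))⟩

lemma BddC.neg {f : ℕ → ℂ} (hf : BddC f) : BddC (fun n => -f n) := by
  obtain ⟨C, hC⟩ := hf
  exact ⟨C, fun n => by rw [norm_neg]; exact hC n⟩

lemma BddC.sub {f g : ℕ → ℂ} (hf : BddC f) (hg : BddC g) : BddC (fun n => f n - g n) := by
  simpa [sub_eq_add_neg] using hf.add hg.neg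

lemma BddC.mul {f g : ℕ → ℂ} (hf : BddC f) (hg : BddC g) : BddC (fun n => f n * g n) := by
  obtain ⟨C, hC⟩ := hf
  obtain ⟨D, hD⟩ := hg
  refine ⟨C * D, fun n => ?_⟩
  rw [norm_mul]
  exact mul_le_mul (hC n) (hD n) (norm_nonneg _) ((norm_nonneg _).trans (hC n))

lemma BddC.const (c : ℂ) : BddC (fun _ => c) := ⟨‖c‖, fun _ => le_rfl⟩

lemma BddC.const_mul {f : ℕ → ℂ} (c : ℂ) (hf : BddC f) : BddC (fun n => c * f n) :=
  (BddC.const c).mul hf

lemma BddC.mul_const {f : ℕ → ℂ} (hf : BddC f) (c : ℂ) : BddC (fun n => f n * c) :=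
  hf.mul (BddC.const c)

lemma BddC.conj {f : ℕ → ℂ} (hf : BddC f) : BddC (fun n => (starRingEnd ℂ) (f n)) := by
  obtain ⟨C, hC⟩ := hf
  exact ⟨C, fun n => by rw [RCLike.norm_conj]; exact hC n⟩

lemma BddC.sum {ι : Type*} {s : Finset ι} {f : ι → ℕ → ℂ} (hf : ∀ i ∈ s, BddC (f i)) :
    BddC (fun n => ∑ i ∈ s, f i n) := by
  classical
  induction s using Finset.induction_on with
  | empty => simpa using BddC.const 0
  | insert a s ha ih =>
    simp only [Finset.sum_insert ha]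
    exact (hf a (Finset.mem_insert_self a s)).add (ih fun i hi => hf i (Finset.mem_insert_of_mem hi))

lemma BddC.comp {f : ℕ → ℂ} (hf : BddC f) (φ : ℕ → ℕ) : BddC (fun n => f (φ n)) := by
  obtain ⟨C, hC⟩ := hf
  exact ⟨C, fun n => hC _⟩

lemma BddC.normSq {f : ℕ → ℂ} (hf : BddC f) : Bdd (fun n => ‖f n‖ ^ 2) := hf.norm.pow 2

lemma BddC.ofReal {f : ℕ → ℝ} (hf : Bdd f) : BddC (fun n => (f n : ℂ)) := by
  obtain ⟨C, hC⟩ := hf
  exact ⟨C, fun n => by rw [Complex.norm_real]; exact hC n⟩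

lemma BddC.char (z : Circle) : BddC (fun n => (z : ℂ) ^ n) :=
  ⟨1, fun n => by rw [norm_pow, Circle.norm_coe, one_pow]⟩

end bdd

section mean

set_option linter.unusedSectionVars false

variable {M : (ℕ → ℝ) → ℝ} (hM : IsMean M)

include hM

lemma IsMean.add' {f g : ℕ → ℝ} (hf : Bdd f) (hg : Bdd g) :
    M (fun n => f n + g n) = M f + M g := hM.add f g hf hg

lemma IsMean.smul' {f : ℕ → ℝ} (c : ℝ) (hf : Bdd f) : M (fun n => c * f n) = c * M f :=
  hM.smul c f hf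

lemma IsMean.neg' {f : ℕ → ℝ} (hf : Bdd f) : M (fun n => -f n) = -M f := by
  have := hM.smul' (-1) hf
  simpa using this

lemma IsMean.sub' {f g : ℕ → ℝ} (hf : Bdd f) (hg : Bdd g) :
    M (fun n => f n - g n) = M f - M g := by
  have h := hM.add' hf hg.neg
  rw [hM.neg' hg] at h
  simpa [sub_eq_add_neg] using h

lemma IsMean.const (c : ℝ) : M (fun _ => c) = c := by
  have := hM.smul' (f := fun _ => 1) c (Bdd.const 1)
  rw [hM.one] at this
  simpa using this

lemma IsMean.mono {f g : ℕ → ℝ} (hf : Bdd f) (hg : Bdd g) (h : ∀ n, f n ≤ g n) : M f ≤ M g := by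
  have h1 := hM.nonneg (fun n => g n - f n) (hg.sub hf) (fun n => sub_nonneg.2 (h n))
  rw [hM.sub' hg hf] at h1
  linarith

lemma IsMean.le_of_le {f : ℕ → ℝ} (hf : Bdd f) {c : ℝ} (h : ∀ n, f n ≤ c) : M f ≤ c := by
  have := hM.mono hf (Bdd.const c) h
  rwa [hM.const] at this

lemma IsMean.ge_of_ge {f : ℕ → ℝ} (hf : Bdd f) {c : ℝ} (h : ∀ n, c ≤ f n) : c ≤ M f := by
  have := hM.mono (Bdd.const c) hf h
  rwa [hM.const] at this

lemma IsMean.sum' {ι : Type*} {s : Finset ι} {f : ι → ℕ → ℝ} (hf : ∀ i ∈ s, Bdd (f i)) :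
    M (fun n => ∑ i ∈ s, f i n) = ∑ i ∈ s, M (f i) := by
  classical
  induction s using Finset.induction_on with
  | empty => simpa using hM.const 0
  | insert a s ha ih =>
    simp only [Finset.sum_insert ha]
    rw [hM.add' (hf a (Finset.mem_insert_self a s))
      (Bdd.sum fun i hi => hf i (Finset.mem_insert_of_mem hi)),
      ih fun i hi => hf i (Finset.mem_insert_of_mem hi)]

lemma IsMean.shift' {f : ℕ → ℝ} (hf : Bdd f) (k : ℕ) : M (fun n => f (n + k)) = M f := by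
  induction k with
  | zero => rfl
  | succ k ih =>
    have h := hM.shift (fun n => f (n + k)) (hf.comp _)
    rw [ih] at h
    rw [← h]
    congr 1
    funext n
    congr 1
    ring

/-- if the mean is larger than `c` then some value is larger than `c` -/
lemma IsMean.exists_gt {f : ℕ → ℝ} (hf : Bdd f) {c : ℝ} (h : c < M f) : ∃ n, c < f n := by
  by_contra hcon
  push Not at hcon
  exact absurd (hM.le_of_le hf hcon) (not_le.2 h)

lemma IsMean.exists_gt_ge {f : ℕ → ℝ} (hf : Bdd f) {c : ℝ} (h : c < M f) (k : ℕ) :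
    ∃ n, k ≤ n ∧ c < f n := by
  rw [← hM.shift' hf k] at h
  obtain ⟨n, hn⟩ := hM.exists_gt (hf.comp _) h
  exact ⟨n + k, by omega, hn⟩

lemma IsMean.exists_lt {f : ℕ → ℝ} (hf : Bdd f) {c : ℝ} (h : M f < c) : ∃ n, f n < c := by
  by_contra hcon
  push Not at hcon
  exact absurd (hM.ge_of_ge hf hcon) (not_le.2 h)

/-! complex mean -/

lemma IsMean.mc_re {f : ℕ → ℂ} : (mc M f).re = M (fun n => (f n).re) := by
  simp [mc]

lemma IsMean.mc_im {f : ℕ → ℂ} : (mc M f).im = M (fun n => (f n).im) := by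
  simp [mc]

lemma IsMean.mc_add {f g : ℕ → ℂ} (hf : BddC f) (hg : BddC g) :
    mc M (fun n => f n + g n) = mc M f + mc M g := by
  apply Complex.ext
  · rw [Complex.add_re, hM.mc_re, hM.mc_re, hM.mc_re, ← hM.add' hf.re hg.re]
    simp
  · rw [Complex.add_im, hM.mc_im, hM.mc_im, hM.mc_im, ← hM.add' hf.im hg.im]
    simp

lemma IsMean.mc_smul {f : ℕ → ℂ} (c : ℂ) (hf : BddC f) :
    mc M (fun n => c * f n) = c * mc M f := by
  apply Complex.ext
  · rw [Complex.mul_re, hM.mc_re, hM.mc_re, hM.mc_im, ← hM.smul' _ hf.re, ← hM.smul' _ hf.im,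
      ← hM.sub' (hf.re.const_mul _) (hf.im.const_mul _)]
    simp [Complex.mul_re]
  · rw [Complex.mul_im, hM.mc_im, hM.mc_re, hM.mc_im, ← hM.smul' _ hf.re, ← hM.smul' _ hf.im,
      ← hM.add' (hf.im.const_mul _) (hf.re.const_mul _)]
    simp [Complex.mul_im]

lemma IsMean.mc_const (c : ℂ) : mc M (fun _ => c) = c := by
  apply Complex.ext
  · rw [hM.mc_re, hM.const]
  · rw [hM.mc_im, hM.const]

lemma IsMean.mc_neg {f : ℕ → ℂ} (hf : BddC f) : mc M (fun n => -f n) = -mc M f := by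
  have := hM.mc_smul (-1) hf
  simpa using this

lemma IsMean.mc_sub {f g : ℕ → ℂ} (hf : BddC f) (hg : BddC g) :
    mc M (fun n => f n - g n) = mc M f - mc M g := by
  have h := hM.mc_add hf hg.neg
  rw [hM.mc_neg hg] at h
  simpa [sub_eq_add_neg] using h

lemma IsMean.mc_sum {ι : Type*} {s : Finset ι} {f : ι → ℕ → ℂ} (hf : ∀ i ∈ s, BddC (f i)) :
    mc M (fun n => ∑ i ∈ s, f i n) = ∑ i ∈ s, mc M (f i) := by
  classical
  induction s using Finset.induction_on with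
  | empty => simpa using hM.mc_const 0
  | insert a s ha ih =>
    simp only [Finset.sum_insert ha]
    rw [hM.mc_add (hf a (Finset.mem_insert_self a s))
      (BddC.sum fun i hi => hf i (Finset.mem_insert_of_mem hi)),
      ih fun i hi => hf i (Finset.mem_insert_of_mem hi)]

lemma IsMean.mc_shift {f : ℕ → ℂ} (hf : BddC f) (k : ℕ) :
    mc M (fun n => f (n + k)) = mc M f := by
  apply Complex.ext
  · rw [hM.mc_re, hM.mc_re]
    exact hM.shift' hf.re k
  · rw [hM.mc_im, hM.mc_im]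
    exact hM.shift' hf.im k

lemma IsMean.mc_conj {f : ℕ → ℂ} (hf : BddC f) :
    mc M (fun n => (starRingEnd ℂ) (f n)) = (starRingEnd ℂ) (mc M f) := by
  apply Complex.ext
  · rw [Complex.conj_re, hM.mc_re, hM.mc_re]
    simp
  · rw [Complex.conj_im, hM.mc_im, hM.mc_im, ← hM.neg' hf.im]
    simp

lemma IsMean.mc_ofReal (f : ℕ → ℝ) : mc M (fun n => (f n : ℂ)) = (M f : ℂ) := by
  apply Complex.ext
  · rw [hM.mc_re]
    simp
  · rw [hM.mc_im]
    simp [hM.const 0]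

lemma IsMean.norm_mc_le {f : ℕ → ℂ} (hf : BddC f) : ‖mc M f‖ ≤ M (fun n => ‖f n‖) := by
  -- rotate
  set w := mc M f with hw
  rcases eq_or_ne w 0 with h0 | h0
  · rw [h0, norm_zero]
    exact hM.nonneg _ hf.norm fun n => norm_nonneg _
  · set c : ℂ := (starRingEnd ℂ) w / ‖w‖ with hc
    have hwn : (‖w‖ : ℂ) ≠ 0 := by
      rw [Ne, Complex.ofReal_eq_zero, norm_eq_zero]; exact h0
    have h1 : c * w = (‖w‖ : ℂ) := by
      rw [hc, div_mul_eq_mul_div, mul_comm, Complex.mul_conj, Complex.normSq_eq_norm_sq]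
      push_cast
      field_simp
    have hcn : ‖c‖ = 1 := by
      rw [hc, norm_div, RCLike.norm_conj, Complex.norm_real, norm_norm, div_self]
      exact norm_ne_zero_iff.2 h0
    have h2 : (‖w‖ : ℝ) = M (fun n => (c * f n).re) := by
      have h3 := hM.mc_smul c hf
      rw [← hw, h1] at h3
      rw [← hM.mc_re, h3, Complex.ofReal_re]
    rw [h2]
    refine hM.mono (hf.const_mul c).re hf.norm fun n => ?_
    calc (c * f n).re ≤ ‖c * f n‖ := Complex.re_le_norm _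
      _ = ‖f n‖ := by rw [norm_mul, hcn, one_mul]

lemma IsMean.norm_mc_le_of_le {f : ℕ → ℂ} (hf : BddC f) {C : ℝ} (h : ∀ n, ‖f n‖ ≤ C) :
    ‖mc M f‖ ≤ C := (hM.norm_mc_le hf).trans (hM.le_of_le hf.norm h)

/-- Cauchy–Schwarz (real) -/
lemma IsMean.cs_real {f g : ℕ → ℝ} (hf : Bdd f) (hg : Bdd g) :
    M (fun n => f n * g n) ^ 2 ≤ M (fun n => f n ^ 2) * M (fun n => g n ^ 2) := by
  set a := M (fun n => f n ^ 2) with ha
  set b := M (fun n => f n * g n) with hb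
  set c := M (fun n => g n ^ 2) with hc
  have key : ∀ t : ℝ, 0 ≤ a * (t * t) + 2 * b * t + c := by
    intro t
    have h1 := hM.nonneg (fun n => (f n ^ 2 * (t * t) + f n * g n * (2 * t)) + g n ^ 2)
      ((((hf.pow 2).mul (Bdd.const _)).add ((hf.mul hg).mul (Bdd.const _))).add (hg.pow 2))
      (fun n => by nlinarith [sq_nonneg (t * f n + g n)])
    rw [hM.add' (((hf.pow 2).mul (Bdd.const _)).add ((hf.mul hg).mul (Bdd.const _))) (hg.pow 2),
      hM.add' ((hf.pow 2).mul (Bdd.const _)) ((hf.mul hg).mul (Bdd.const _))] at h1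
    have h2 : M (fun n => f n ^ 2 * (t * t)) = a * (t * t) := by
      rw [show a * (t * t) = (t * t) * a by ring, ha, ← hM.smul' _ (hf.pow 2)]
      congr 1; funext n; ring
    have h3 : M (fun n => f n * g n * (2 * t)) = 2 * b * t := by
      rw [show 2 * b * t = (2 * t) * b by ring, hb, ← hM.smul' _ (hf.mul hg)]
      congr 1; funext n; ring
    rw [h2, h3] at h1
    exact h1
  have := discrim_le_zero key
  unfold discrim at this
  nlinarith

/-- Cauchy–Schwarz -/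
lemma IsMean.cs {f g : ℕ → ℂ} (hf : BddC f) (hg : BddC g) :
    ‖mc M (fun n => f n * g n)‖ ^ 2 ≤ M (fun n => ‖f n‖ ^ 2) * M (fun n => ‖g n‖ ^ 2) := by
  calc ‖mc M (fun n => f n * g n)‖ ^ 2 ≤ (M (fun n => ‖f n‖ * ‖g n‖)) ^ 2 := by
        apply pow_le_pow_left₀ (norm_nonneg _)
        have := hM.norm_mc_le (hf.mul hg)
        simpa [norm_mul] using this
    _ ≤ _ := hM.cs_real hf.norm hg.norm

/-- the mean of a non-trivial character is `0` -/
lemma IsMean.mc_char {z : Circle} (hz : z ≠ 1) : mc M (fun n => (z : ℂ) ^ n) = 0 := by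
  have h1 := hM.mc_shift (BddC.char z) 1
  have h2 : (fun n => (z : ℂ) ^ (n + 1)) = fun n => (z : ℂ) * (z : ℂ) ^ n := by
    funext n; ring
  rw [h2, hM.mc_smul _ (BddC.char z)] at h1
  have h3 : ((z : ℂ) - 1) * mc M (fun n => (z : ℂ) ^ n) = 0 := by
    rw [sub_mul, h1, one_mul, sub_self]
  rcases mul_eq_zero.1 h3 with h | h
  · exfalso
    apply hz
    apply Circle.ext
    rw [Circle.coe_one]
    exact sub_eq_zero.1 h
  · exact h

end mean

end Pool.Agent.TH270.Rec
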