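import Pool.Agent.TH270.Rec.Defs

/-! # An elementary Wiener lemma for correlation sequences of an ergodic mean -/

set_option autoImplicit false

namespace Pool.Agent.TH270.Rec

namespace Wiener

open Filter Topology Set
open scoped ComplexConjugate

/-! ### bounded sequences -/

theorem bdd_const (c : ℝ) : Bdd (fun _ => c) := ⟨|c|, fun _ => le_rfl⟩

theorem bdd_add {f g : ℕ → ℝ} (hf : Bdd f) (hg : Bdd g) : Bdd (fun n => f n + g n) := by
  obtain ⟨C, hC⟩ := hf
  obtain ⟨D, hD⟩ := hg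
  exact ⟨C + D, fun n => (abs_add_le _ _).trans (add_le_add (hC n) (hD n))⟩

theorem bdd_mul {f g : ℕ → ℝ} (hf : Bdd f) (hg : Bdd g) : Bdd (fun n => f n * g n) := by
  obtain ⟨C, hC⟩ := hf
  obtain ⟨D, hD⟩ := hg
  refine ⟨C * D, fun n => ?_⟩
  rw [abs_mul]
  exact mul_le_mul (hC n) (hD n) (abs_nonneg _) ((abs_nonneg _).trans (hC n))

theorem bdd_smul (c : ℝ) {f : ℕ → ℝ} (hf : Bdd f) : Bdd (fun n => c * f n) :=
  bdd_mul (bdd_const c) hf

theorem bdd_sub {f g : ℕ → ℝ} (hf : Bdd f) (hg : Bdd g) : Bdd (fun n => f n - g n) := by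
  have := bdd_add hf (bdd_smul (-1) hg)
  refine (funext fun n => ?_ : (fun n => f n + -1 * g n) = fun n => f n - g n) ▸ this
  ring

theorem bdd_sum {ι : Type*} (s : Finset ι) {F : ι → ℕ → ℝ} (hF : ∀ i ∈ s, Bdd (F i)) :
    Bdd (fun n => ∑ i ∈ s, F i n) := by
  classical
  induction s using Finset.induction_on with
  | empty => simpa using bdd_const 0
  | insert a s ha ih =>
    simp only [Finset.sum_insert ha]
    exact bdd_add (hF a (by simp)) (ih fun i hi => hF i (by simp [hi]))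

theorem bdd_shift {f : ℕ → ℝ} (hf : Bdd f) (k : ℕ) : Bdd (fun n => f (n + k)) := by
  obtain ⟨C, hC⟩ := hf
  exact ⟨C, fun n => hC _⟩

theorem bc_const (c : ℂ) : BddC (fun _ => c) := ⟨‖c‖, fun _ => le_rfl⟩

theorem bc_add {f g : ℕ → ℂ} (hf : BddC f) (hg : BddC g) : BddC (fun n => f n + g n) := by
  obtain ⟨C, hC⟩ := hf
  obtain ⟨D, hD⟩ := hg
  exact ⟨C + D, fun n => (norm_add_le _ _).trans (add_le_add (hC n) (hD n))⟩

theorem bc_mul {f g : ℕ → ℂ} (hf : BddC f) (hg : BddC g) : BddC (fun n => f n * g n) := by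
  obtain ⟨C, hC⟩ := hf
  obtain ⟨D, hD⟩ := hg
  refine ⟨C * D, fun n => ?_⟩
  rw [norm_mul]
  exact mul_le_mul (hC n) (hD n) (norm_nonneg _) ((norm_nonneg _).trans (hC n))

theorem bc_smul (c : ℂ) {f : ℕ → ℂ} (hf : BddC f) : BddC (fun n => c * f n) :=
  bc_mul (bc_const c) hf

theorem bc_sum {ι : Type*} (s : Finset ι) {F : ι → ℕ → ℂ} (hF : ∀ i ∈ s, BddC (F i)) :
    BddC (fun n => ∑ i ∈ s, F i n) := by
  classical
  induction s using Finset.induction_on with
  | empty => simpa using bc_const 0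
  | insert a s ha ih =>
    simp only [Finset.sum_insert ha]
    exact bc_add (hF a (by simp)) (ih fun i hi => hF i (by simp [hi]))

theorem bc_shift {f : ℕ → ℂ} (hf : BddC f) (k : ℕ) : BddC (fun n => f (n + k)) := by
  obtain ⟨C, hC⟩ := hf
  exact ⟨C, fun n => hC _⟩

theorem bc_conj {f : ℕ → ℂ} (hf : BddC f) : BddC (fun n => conj (f n)) := by
  obtain ⟨C, hC⟩ := hf
  exact ⟨C, fun n => by rw [RCLike.norm_conj]; exact hC n⟩

theorem bc_re {f : ℕ → ℂ} (hf : BddC f) : Bdd (fun n => (f n).re) := by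
  obtain ⟨C, hC⟩ := hf
  exact ⟨C, fun n => (Complex.abs_re_le_norm _).trans (hC n)⟩

theorem bc_im {f : ℕ → ℂ} (hf : BddC f) : Bdd (fun n => (f n).im) := by
  obtain ⟨C, hC⟩ := hf
  exact ⟨C, fun n => (Complex.abs_im_le_norm _).trans (hC n)⟩

theorem bc_norm {f : ℕ → ℂ} (hf : BddC f) : Bdd (fun n => ‖f n‖) := by
  obtain ⟨C, hC⟩ := hf
  exact ⟨C, fun n => by rw [abs_of_nonneg (norm_nonneg _)]; exact hC n⟩

theorem bc_normsq {f : ℕ → ℂ} (hf : BddC f) : Bdd (fun n => ‖f n‖ ^ 2) := by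
  have := bdd_mul (bc_norm hf) (bc_norm hf)
  simpa only [sq] using this

theorem bdd_sq {f : ℕ → ℝ} (hf : Bdd f) : Bdd (fun n => (f n) ^ 2) := by
  have := bdd_mul hf hf
  simpa only [sq] using this

/-! ### real means -/

section real

variable {M : (ℕ → ℝ) → ℝ} (hM : IsMean M)
include hM

theorem M_add {f g : ℕ → ℝ} (hf : Bdd f) (hg : Bdd g) : M (fun n => f n + g n) = M f + M g :=
  hM.add f g hf hg

theorem M_smul (c : ℝ) {f : ℕ → ℝ} (hf : Bdd f) : M (fun n => c * f n) = c * M f :=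
  hM.smul c f hf

theorem M_const (c : ℝ) : M (fun _ => c) = c := by
  have h := M_smul hM c (bdd_const 1)
  rw [hM.one, mul_one] at h
  simpa using h

theorem M_sub {f g : ℕ → ℝ} (hf : Bdd f) (hg : Bdd g) : M (fun n => f n - g n) = M f - M g := by
  have h := M_add hM hf (bdd_smul (-1) hg)
  rw [M_smul hM (-1) hg] at h
  have h2 : (fun n => f n + -1 * g n) = fun n => f n - g n := by funext n; ring
  rw [h2] at h
  rw [h]; ring

theorem M_mono {f g : ℕ → ℝ} (hf : Bdd f) (hg : Bdd g) (h : ∀ n, f n ≤ g n) : M f ≤ M g := by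
  have h1 := hM.nonneg _ (bdd_sub hg hf) fun n => sub_nonneg.2 (h n)
  rw [M_sub hM hg hf] at h1
  linarith

theorem M_sum {ι : Type*} (s : Finset ι) {F : ι → ℕ → ℝ} (hF : ∀ i ∈ s, Bdd (F i)) :
    M (fun n => ∑ i ∈ s, F i n) = ∑ i ∈ s, M (F i) := by
  classical
  induction s using Finset.induction_on with
  | empty => simpa using M_const hM 0
  | insert a s ha ih =>
    simp only [Finset.sum_insert ha]
    rw [M_add hM (hF a (by simp)) (bdd_sum s fun i hi => hF i (by simp [hi])),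
      ih fun i hi => hF i (by simp [hi])]

theorem M_shift (k : ℕ) {f : ℕ → ℝ} (hf : Bdd f) : M (fun n => f (n + k)) = M f := by
  induction k with
  | zero => rfl
  | succ k ih =>
    have h := hM.shift _ (bdd_shift hf k)
    rw [ih] at h
    rw [← h]
    congr 1
    funext n
    congr 1
    ring

theorem S_nonneg {u : ℕ → ℂ} (hu : BddC u) : 0 ≤ M (fun n => ‖u n‖ ^ 2) :=
  hM.nonneg _ (bc_normsq hu) fun _ => by positivity

/-! ### complex means -/

theorem mc_add {f g : ℕ → ℂ} (hf : BddC f) (hg : BddC g) :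
    mc M (fun n => f n + g n) = mc M f + mc M g := by
  simp only [mc, Complex.add_re, Complex.add_im]
  rw [M_add hM (bc_re hf) (bc_re hg), M_add hM (bc_im hf) (bc_im hg)]
  push_cast
  ring

theorem mc_smul (c : ℂ) {f : ℕ → ℂ} (hf : BddC f) : mc M (fun n => c * f n) = c * mc M f := by
  simp only [mc, Complex.mul_re, Complex.mul_im]
  rw [M_sub hM (bdd_smul _ (bc_re hf)) (bdd_smul _ (bc_im hf)),
    M_add hM (bdd_smul _ (bc_im hf)) (bdd_smul _ (bc_re hf)),
    M_smul hM _ (bc_re hf), M_smul hM _ (bc_im hf), M_smul hM _ (bc_re hf), M_smul hM _ (bc_im hf)]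
  apply Complex.ext <;> simp

theorem mc_const (c : ℂ) : mc M (fun _ => c) = c := by
  simp only [mc]
  rw [M_const hM, M_const hM, Complex.re_add_im]

theorem mc_sum {ι : Type*} (s : Finset ι) {F : ι → ℕ → ℂ} (hF : ∀ i ∈ s, BddC (F i)) :
    mc M (fun n => ∑ i ∈ s, F i n) = ∑ i ∈ s, mc M (F i) := by
  classical
  induction s using Finset.induction_on with
  | empty => simpa using mc_const hM 0
  | insert a s ha ih =>
    simp only [Finset.sum_insert ha]
    rw [mc_add hM (hF a (by simp)) (bc_sum s fun i hi => hF i (by simp [hi])),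
      ih fun i hi => hF i (by simp [hi])]

theorem mc_shift (k : ℕ) {f : ℕ → ℂ} (hf : BddC f) : mc M (fun n => f (n + k)) = mc M f := by
  simp only [mc]
  rw [M_shift hM k (bc_re hf), M_shift hM k (bc_im hf)]

omit hM in
theorem mc_re {f : ℕ → ℂ} : (mc M f).re = M (fun n => (f n).re) := by simp [mc]

theorem mc_ofReal {f : ℕ → ℝ} : mc M (fun n => (f n : ℂ)) = M f := by
  simp only [mc, Complex.ofReal_re, Complex.ofReal_im]
  rw [M_const hM 0]
  simp

/-- Cauchy-Schwarz -/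
theorem cs {u v : ℕ → ℂ} (hu : BddC u) (hv : BddC v) :
    ‖mc M (fun n => u n * v n)‖ ^ 2 ≤ M (fun n => ‖u n‖ ^ 2) * M (fun n => ‖v n‖ ^ 2) := by
  set c := mc M (fun n => u n * v n) with hc
  rcases eq_or_ne c 0 with h0 | h0
  · rw [h0, norm_zero]
    have := mul_nonneg (S_nonneg hM hu) (S_nonneg hM hv)
    simpa using this
  set ω : ℂ := conj c / ‖c‖ with hω
  have hcn : (‖c‖ : ℂ) ≠ 0 := by exact_mod_cast norm_ne_zero_iff.2 h0
  have hωn : ‖ω‖ = 1 := by
    rw [hω, norm_div, RCLike.norm_conj, Complex.norm_real, norm_norm,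
      div_self (norm_ne_zero_iff.2 h0)]
  have hωc : ω * c = ‖c‖ := by
    rw [hω, div_mul_eq_mul_div, ← Complex.normSq_eq_conj_mul_self, Complex.normSq_eq_norm_sq]
    push_cast
    field_simp
  have key : ∀ t : ℝ, 0 ≤ M (fun n => ‖u n‖ ^ 2) * (t * t) + (-(2 * ‖c‖)) * t +
      M (fun n => ‖v n‖ ^ 2) := by
    intro t
    have hb : BddC (fun n => (t : ℂ) * ω * u n + (-1) * conj (v n)) :=
      bc_add (bc_smul _ hu) (bc_smul _ (bc_conj hv))
    have h1 := S_nonneg hM hb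
    have h2 : (fun n => ‖(t : ℂ) * ω * u n + (-1) * conj (v n)‖ ^ 2) =
        fun n => (t * t * ‖u n‖ ^ 2 + ‖v n‖ ^ 2) - (2 * t) * (ω * (u n * v n)).re := by
      funext n
      rw [← Complex.normSq_eq_norm_sq, Complex.normSq_add, map_mul, map_mul, map_mul,
        Complex.normSq_conj, Complex.normSq_ofReal, Complex.normSq_eq_norm_sq ω, hωn,
        Complex.normSq_eq_norm_sq (u n), Complex.normSq_eq_norm_sq (v n)]
      have h3 : ((t : ℂ) * ω * u n * conj (-1 * conj (v n))) =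
          ((-t : ℝ) : ℂ) * (ω * (u n * v n)) := by
        simp only [map_mul, map_neg, map_one, Complex.conj_conj, Complex.ofReal_neg]
        ring
      rw [h3, Complex.re_ofReal_mul]
      simp only [Complex.normSq_neg, map_one]
      ring
    rw [h2, M_sub hM (bdd_add (bdd_smul _ (bc_normsq hu)) (bc_normsq hv))
      (bdd_smul _ (bc_re (bc_smul _ (bc_mul hu hv)))),
      M_add hM (bdd_smul _ (bc_normsq hu)) (bc_normsq hv), M_smul hM _ (bc_normsq hu),
      M_smul hM _ (bc_re (bc_smul _ (bc_mul hu hv))), ← mc_re (M := M), mc_smul hM _ (bc_mul hu hv),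
      ← hc, hωc, Complex.ofReal_re] at h1
    linarith
  have h1 := discrim_le_zero key
  rw [discrim] at h1
  nlinarith

theorem norm_mc_le {u v : ℕ → ℂ} (hu : BddC u) (hv : BddC v) :
    ‖mc M (fun n => u n * v n)‖ ≤
      Real.sqrt (M (fun n => ‖u n‖ ^ 2)) * Real.sqrt (M (fun n => ‖v n‖ ^ 2)) := by
  rw [← Real.sqrt_mul (S_nonneg hM hu)]
  exact Real.le_sqrt_of_sq_le (cs hM hu hv)

/-- Minkowski -/
theorem mink {u v : ℕ → ℂ} (hu : BddC u) (hv : BddC v) :
    Real.sqrt (M (fun n => ‖u n + v n‖ ^ 2)) ≤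
      Real.sqrt (M (fun n => ‖u n‖ ^ 2)) + Real.sqrt (M (fun n => ‖v n‖ ^ 2)) := by
  apply Real.sqrt_le_iff.2 ⟨by positivity, ?_⟩
  have h1 : (fun n => ‖u n + v n‖ ^ 2) =
      fun n => (‖u n‖ ^ 2 + ‖v n‖ ^ 2) + 2 * (u n * conj (v n)).re := by
    funext n
    rw [← Complex.normSq_eq_norm_sq, Complex.normSq_add, Complex.normSq_eq_norm_sq,
      Complex.normSq_eq_norm_sq]
  have hc := norm_mc_le hM hu (bc_conj hv)
  simp only [RCLike.norm_conj] at hc
  rw [h1, M_add hM (bdd_add (bc_normsq hu) (bc_normsq hv))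
    (bdd_smul _ (bc_re (bc_mul hu (bc_conj hv)))), M_add hM (bc_normsq hu) (bc_normsq hv),
    M_smul hM _ (bc_re (bc_mul hu (bc_conj hv))), ← mc_re (M := M), add_sq,
    Real.sq_sqrt (S_nonneg hM hu), Real.sq_sqrt (S_nonneg hM hv)]
  have h2 := (Complex.re_le_norm (mc M fun n => u n * conj (v n))).trans hc
  linarith

/-- the quadratic form of a combination of translates -/
theorem quad {f : ℕ → ℂ} (hf : BddC f) (K : ℕ) (r : ℕ → ℂ) :
    ((M (fun n => ‖∑ h ∈ Finset.range K, r h * f (n + h)‖ ^ 2) : ℝ) : ℂ) =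
      ∑ h ∈ Finset.range K, ∑ h' ∈ Finset.range K,
        r h * conj (r h') * mc M (fun n => f (n + h) * conj (f (n + h'))) := by
  rw [← mc_ofReal hM]
  have h1 : (fun n => (((‖∑ h ∈ Finset.range K, r h * f (n + h)‖ ^ 2 : ℝ)) : ℂ)) =
      fun n => ∑ h ∈ Finset.range K, ∑ h' ∈ Finset.range K,
        (r h * conj (r h')) * (f (n + h) * conj (f (n + h'))) := by
    funext n
    rw [← Complex.normSq_eq_norm_sq, ← Complex.mul_conj, map_sum, Finset.sum_mul_sum]
    refine Finset.sum_congr rfl fun h _ => Finset.sum_congr rfl fun h' _ => ?_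
    rw [map_mul]
    ring
  have hb : ∀ h h' : ℕ, BddC (fun n => f (n + h) * conj (f (n + h'))) := fun h h' =>
    bc_mul (bc_shift hf h) (bc_conj (bc_shift hf h'))
  rw [h1, mc_sum hM _ fun h _ => bc_sum _ fun h' _ => bc_smul _ (hb h h')]
  refine Finset.sum_congr rfl fun h _ => ?_
  rw [mc_sum hM _ fun h' _ => bc_smul _ (hb h h')]
  refine Finset.sum_congr rfl fun h' _ => ?_
  rw [mc_smul hM _ (hb h h')]

theorem N_smul_shift {f : ℕ → ℂ} (hf : BddC f) (c : ℂ) (k : ℕ) :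
    Real.sqrt (M (fun n => ‖c * f (n + k)‖ ^ 2)) =
      ‖c‖ * Real.sqrt (M (fun n => ‖f n‖ ^ 2)) := by
  have h1 : (fun n => ‖c * f (n + k)‖ ^ 2) = fun n => ‖c‖ ^ 2 * ‖f (n + k)‖ ^ 2 := by
    funext n
    rw [norm_mul, mul_pow]
  rw [h1, M_smul hM _ (bc_normsq (bc_shift hf k)), M_shift hM k (bc_normsq hf),
    Real.sqrt_mul (by positivity), Real.sqrt_sq (norm_nonneg _)]

omit hM in
theorem bF {f : ℕ → ℂ} (hf : BddC f) (K : ℕ) (r : ℕ → ℂ) :
    BddC (fun n => ∑ h ∈ Finset.range K, r h * f (n + h)) :=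
  bc_sum _ fun h _ => bc_smul _ (bc_shift hf h)

theorem N_comb {f : ℕ → ℂ} (hf : BddC f) (K : ℕ) (r : ℕ → ℂ) :
    Real.sqrt (M (fun n => ‖∑ h ∈ Finset.range K, r h * f (n + h)‖ ^ 2)) ≤
      (∑ h ∈ Finset.range K, ‖r h‖) * Real.sqrt (M (fun n => ‖f n‖ ^ 2)) := by
  induction K with
  | zero =>
    simp only [Finset.range_zero, Finset.sum_empty, norm_zero, zero_mul]
    rw [M_const hM]
    simp
  | succ K ih =>
    simp only [Finset.sum_range_succ]
    refine (mink hM (bF hf K r) (bc_smul _ (bc_shift hf K))).trans ?_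
    rw [N_smul_shift hM hf, add_mul]
    linarith

end real

/-- the seminorm of `∑_{h<K} z^h f(·+h)` -/
noncomputable def sS (M : (ℕ → ℝ) → ℝ) (f : ℕ → ℂ) (z : ℂ) (K : ℕ) : ℝ :=
  Real.sqrt (M (fun n => ‖∑ h ∈ Finset.range K, z ^ h * f (n + h)‖ ^ 2))

section mean

variable {M : (ℕ → ℝ) → ℝ} (hM : IsMean M) {f : ℕ → ℂ} (hf : BddC f)
include hM hf

theorem sS_add {z : ℂ} (hz : ‖z‖ = 1) (H K : ℕ) : sS M f z (H + K) ≤ sS M f z H + sS M f z K := by
  have h1 : (fun n => ‖∑ h ∈ Finset.range (H + K), z ^ h * f (n + h)‖ ^ 2) =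
      fun n => ‖∑ h ∈ Finset.range H, z ^ h * f (n + h) +
        z ^ H * (fun m => ∑ h ∈ Finset.range K, z ^ h * f (m + h)) (n + H)‖ ^ 2 := by
    funext n
    rw [Finset.sum_range_add]
    simp only
    rw [Finset.mul_sum]
    congr 3
    refine Finset.sum_congr rfl fun h _ => ?_
    rw [pow_add, add_assoc]
    ring
  unfold sS
  rw [h1]
  refine (mink hM (bF hf H _) (bc_smul _ (bc_shift (bF hf K _) H))).trans ?_
  rw [N_smul_shift hM (bF hf K _), norm_pow, hz, one_pow, one_mul]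

omit hf in
theorem sS_zero (z : ℂ) : sS M f z 0 = 0 := by
  unfold sS
  simp only [Finset.range_zero, Finset.sum_empty, norm_zero]
  rw [M_const hM]
  simp

theorem sS_mul {z : ℂ} (hz : ‖z‖ = 1) (q K : ℕ) : sS M f z (q * K) ≤ q * sS M f z K := by
  induction q with
  | zero => simp [sS_zero hM]
  | succ q ih =>
    rw [Nat.succ_mul]
    refine (sS_add hM hf hz _ _).trans ?_
    push_cast
    linarith

omit hM hf in
theorem sS_one (z : ℂ) : sS M f z 1 = Real.sqrt (M (fun n => ‖f n‖ ^ 2)) := by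
  simp [sS]

theorem sS_cont (z z' : ℂ) (K : ℕ) : sS M f z' K ≤ sS M f z K +
    (∑ h ∈ Finset.range K, ‖z' ^ h - z ^ h‖) * Real.sqrt (M (fun n => ‖f n‖ ^ 2)) := by
  refine le_trans ?_ (add_le_add le_rfl (N_comb hM hf K (fun h => z' ^ h - z ^ h)))
  unfold sS
  have h1 : (fun n => ‖∑ h ∈ Finset.range K, z' ^ h * f (n + h)‖ ^ 2) =
      fun n => ‖∑ h ∈ Finset.range K, z ^ h * f (n + h) +
        ∑ h ∈ Finset.range K, (z' ^ h - z ^ h) * f (n + h)‖ ^ 2 := by
    funext n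
    rw [← Finset.sum_add_distrib]
    congr 2
    refine Finset.sum_congr rfl fun h _ => ?_
    ring
  rw [h1]
  exact mink hM (bF hf K _) (bF hf K _)

end mean

/-- ergodic means: the averages of a bounded real sequence -/
theorem erg_sq {M : (ℕ → ℝ) → ℝ} (hM : IsErg M) {f : ℕ → ℝ} (hf : Bdd f) :
    Tendsto (fun H : ℕ => M (fun n => ((H : ℝ)⁻¹ * ∑ k ∈ Finset.range H, f (n + k)) ^ 2)) atTop
      (𝓝 ((M f) ^ 2)) := by
  have h1 := (hM.erg f hf).add_const ((M f) ^ 2)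
  rw [zero_add] at h1
  refine h1.congr' ?_
  filter_upwards [eventually_ge_atTop 1] with H hH
  have hH0 : (H : ℝ) ≠ 0 := by
    have : H ≠ 0 := by omega
    exact_mod_cast this
  have hm := hM.mean
  have hA : Bdd (fun n => (H : ℝ)⁻¹ * ∑ k ∈ Finset.range H, f (n + k)) :=
    bdd_smul _ (bdd_sum _ fun k _ => bdd_shift hf k)
  have hMA : M (fun n => (H : ℝ)⁻¹ * ∑ k ∈ Finset.range H, f (n + k)) = M f := by
    rw [M_smul hm _ (bdd_sum _ fun k _ => bdd_shift hf k), M_sum hm _ fun k _ => bdd_shift hf k]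
    simp only [M_shift hm _ hf, Finset.sum_const, Finset.card_range, nsmul_eq_mul]
    field_simp
  have h2 : (fun n => ((H : ℝ)⁻¹ * ∑ k ∈ Finset.range H, f (n + k) - M f) ^ 2) =
      fun n => (((H : ℝ)⁻¹ * ∑ k ∈ Finset.range H, f (n + k)) ^ 2 -
        (2 * M f) * ((H : ℝ)⁻¹ * ∑ k ∈ Finset.range H, f (n + k))) + (M f) ^ 2 := by
    funext n
    ring
  rw [h2, M_add hm (bdd_sub (bdd_sq hA) (bdd_smul _ hA)) (bdd_const _),
    M_sub hm (bdd_sq hA) (bdd_smul _ hA), M_smul hm _ hA, M_const hm, hMA]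
  ring

theorem erg_csq {M : (ℕ → ℝ) → ℝ} (hM : IsErg M) {g : ℕ → ℂ} (hgb : BddC g) :
    Tendsto (fun H : ℕ => M (fun n => ((H : ℝ)⁻¹ * ‖∑ k ∈ Finset.range H, g (n + k)‖) ^ 2)) atTop
      (𝓝 (‖mc M g‖ ^ 2)) := by
  have hm := hM.mean
  have h1 := (erg_sq hM (bc_re hgb)).add (erg_sq hM (bc_im hgb))
  have h2 : ‖mc M g‖ ^ 2 = M (fun n => (g n).re) ^ 2 + M (fun n => (g n).im) ^ 2 := by
    rw [← Complex.normSq_eq_norm_sq, mc, Complex.normSq_add_mul_I]
  rw [← h2] at h1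
  refine h1.congr fun H => ?_
  have hA : ∀ φ : ℕ → ℝ, Bdd φ → Bdd (fun n => ((H : ℝ)⁻¹ * ∑ k ∈ Finset.range H, φ (n + k)) ^ 2) :=
    fun φ hφ => bdd_sq (bdd_smul _ (bdd_sum _ fun k _ => bdd_shift hφ k))
  rw [← M_add hm (hA _ (bc_re hgb)) (hA _ (bc_im hgb))]
  congr 1
  funext n
  rw [mul_pow, mul_pow, mul_pow, ← Complex.normSq_eq_norm_sq, Complex.normSq_apply,
    Complex.re_sum, Complex.im_sum]
  ring

theorem exists_K {M : (ℕ → ℝ) → ℝ} (hM : IsErg M) {f : ℕ → ℂ} (hf : BddC f) {κ : ℝ}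
    {z : ℂ} (hz : ‖z‖ = 1) (h : ‖mc M (fun n => f n * z ^ n)‖ ^ 2 < κ) :
    ∃ K : ℕ, 1 ≤ K ∧ sS M f z K < K * Real.sqrt κ := by
  have hm := hM.mean
  have hgb : BddC (fun n => f n * z ^ n) := by
    obtain ⟨C, hC⟩ := hf
    refine ⟨C, fun n => ?_⟩
    simp only [norm_mul, norm_pow, hz, one_pow, mul_one]
    exact hC n
  obtain ⟨K, hK1, hK2⟩ := ((((erg_csq hM hgb).eventually_lt_const h)).and
    (eventually_ge_atTop 1)).exists
  refine ⟨K, hK2, ?_⟩
  have hK0 : (0 : ℝ) < K := by exact_mod_cast hK2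
  have h3 : (fun n => ‖∑ h ∈ Finset.range K, z ^ h * f (n + h)‖ ^ 2) = fun n =>
      (K : ℝ) ^ 2 * ((K : ℝ)⁻¹ * ‖∑ k ∈ Finset.range K, f (n + k) * z ^ (n + k)‖) ^ 2 := by
    funext n
    have h5 : ∑ k ∈ Finset.range K, f (n + k) * z ^ (n + k) =
        z ^ n * ∑ h ∈ Finset.range K, z ^ h * f (n + h) := by
      rw [Finset.mul_sum]
      refine Finset.sum_congr rfl fun h _ => ?_
      rw [pow_add]
      ring
    rw [h5, norm_mul, norm_pow, hz, one_pow, one_mul, mul_pow, inv_pow, mul_inv_cancel_left₀]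
    positivity
  have hA : Bdd (fun n => ((K : ℝ)⁻¹ * ‖∑ k ∈ Finset.range K, f (n + k) * z ^ (n + k)‖) ^ 2) :=
    bdd_sq (bdd_smul _ (bc_norm (bc_sum _ fun k _ => bc_shift hgb k)))
  rw [sS, h3, M_smul hm _ hA, Real.sqrt_mul (by positivity), Real.sqrt_sq hK0.le]
  refine mul_lt_mul_of_pos_left ?_ hK0
  exact Real.sqrt_lt_sqrt (hm.nonneg _ hA fun _ => by positivity) hK1

theorem unif {M : (ℕ → ℝ) → ℝ} (hM : IsErg M) {f : ℕ → ℂ} (hf : BddC f)
    (hf1 : M (fun n => ‖f n‖ ^ 2) ≤ 1) {κ : ℝ} (hκ : 0 < κ)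
    (h : ∀ z : Circle, ‖mc M (fun n => f n * (z : ℂ) ^ n)‖ ^ 2 < κ) :
    ∃ H₀ : ℕ, ∀ H : ℕ, H₀ ≤ H → ∀ z : Circle, sS M f z H ≤ 2 * Real.sqrt κ * H := by
  have hm := hM.mean
  have hN : Real.sqrt (M (fun n => ‖f n‖ ^ 2)) ≤ 1 := by
    exact Real.sqrt_le_iff.2 ⟨zero_le_one, by simpa using hf1⟩
  have hs : 0 < Real.sqrt κ := Real.sqrt_pos.2 hκ
  have key : ∃ H₀ : ℕ, ∀ H : ℕ, H₀ ≤ H → ∀ z ∈ (Set.univ : Set Circle),
      sS M f z H ≤ 2 * Real.sqrt κ * H := by
    refine isCompact_univ.induction_on (p := fun S : Set Circle => ∃ H₀ : ℕ, ∀ H : ℕ, H₀ ≤ H →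
      ∀ z ∈ S, sS M f z H ≤ 2 * Real.sqrt κ * H) ?_ ?_ ?_ ?_
    · exact ⟨0, fun _ _ z hz => absurd hz (by simp)⟩
    · rintro s t hst ⟨H₀, hH⟩
      exact ⟨H₀, fun H hH0 z hz => hH H hH0 z (hst hz)⟩
    · rintro s t ⟨H₀, hH⟩ ⟨H₁, hH'⟩
      refine ⟨max H₀ H₁, fun H hH0 z hz => ?_⟩
      rcases hz with hz | hz
      · exact hH H ((le_max_left _ _).trans hH0) z hz
      · exact hH' H ((le_max_right _ _).trans hH0) z hz
    · intro z _
      obtain ⟨K, hK1, hK⟩ := exists_K hM hf (z := z) (Circle.norm_coe z) (h z)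
      have hcont : Continuous (fun z' : Circle => sS M f z K +
          ∑ h ∈ Finset.range K, ‖(z' : ℂ) ^ h - (z : ℂ) ^ h‖) := by fun_prop
      have hopen : IsOpen {z' : Circle | sS M f z K +
          ∑ h ∈ Finset.range K, ‖(z' : ℂ) ^ h - (z : ℂ) ^ h‖ < K * Real.sqrt κ} :=
        isOpen_lt hcont continuous_const
      refine ⟨_, mem_nhdsWithin_of_mem_nhds (hopen.mem_nhds ?_), ?_⟩
      · simpa using hK
      · obtain ⟨H₀, hH₀⟩ := exists_nat_ge ((K : ℝ) / Real.sqrt κ)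
        refine ⟨H₀, fun H hH z' hz' => ?_⟩
        have hz'1 : ‖(z' : ℂ)‖ = 1 := Circle.norm_coe z'
        have h1 : sS M f z' K < K * Real.sqrt κ := by
          refine lt_of_le_of_lt (sS_cont hm hf z z' K) (lt_of_le_of_lt ?_ hz')
          have : (0 : ℝ) ≤ ∑ h ∈ Finset.range K, ‖(z' : ℂ) ^ h - (z : ℂ) ^ h‖ := by positivity
          nlinarith
        have h2 : sS M f z' H ≤ (H / K : ℕ) * sS M f z' K + (H % K : ℕ) * sS M f z' 1 := by
          have h3 := sS_add hm hf hz'1 ((H / K) * K) ((H % K) * 1)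
          rw [mul_one, Nat.div_add_mod'] at h3
          have h4 := sS_mul hm hf hz'1 (H / K) K
          have h5 := sS_mul hm hf hz'1 (H % K) 1
          rw [mul_one] at h5
          linarith
        have h6 : ((H % K : ℕ) : ℝ) ≤ K := by
          exact_mod_cast (Nat.mod_lt H (by omega)).le
        have h7 : (K : ℝ) ≤ Real.sqrt κ * H := by
          have : (K : ℝ) / Real.sqrt κ ≤ H := hH₀.trans (by exact_mod_cast hH)
          rw [div_le_iff₀ hs] at this
          linarith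
        have h8 : ((H / K : ℕ) : ℝ) * K ≤ H := by
          exact_mod_cast Nat.div_mul_le_self H K
        rw [sS_one] at h2
        have h9 : ((H / K : ℕ) : ℝ) * sS M f z' K ≤ ((H / K : ℕ) : ℝ) * (K * Real.sqrt κ) :=
          mul_le_mul_of_nonneg_left h1.le (Nat.cast_nonneg _)
        have h10 : ((H % K : ℕ) : ℝ) * Real.sqrt (M (fun n => ‖f n‖ ^ 2)) ≤ K :=
          (mul_le_mul h6 hN (Real.sqrt_nonneg _) (Nat.cast_nonneg _)).trans (by rw [mul_one])
        nlinarith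
  obtain ⟨H₀, hH⟩ := key
  exact ⟨H₀, fun H hH0 z => hH H hH0 z (Set.mem_univ _)⟩

theorem root_sum {m : ℕ} (hm : 0 < m) {ζ : ℂ} (hζ : IsPrimitiveRoot ζ m) {a b : ℕ} (ha : a < m)
    (hb : b < m) : ∑ j ∈ Finset.range m, ((ζ ^ j) ^ a * conj ((ζ ^ j) ^ b)) =
      if a = b then (m : ℂ) else 0 := by
  have hζn : ‖ζ‖ = 1 := hζ.norm'_eq_one hm.ne'
  have hζc : ζ * conj ζ = 1 := by
    rw [Complex.mul_conj, Complex.normSq_eq_norm_sq, hζn]
    simp
  have h1 : ∀ j : ℕ, (ζ ^ j) ^ a * conj ((ζ ^ j) ^ b) = (ζ ^ a * conj ζ ^ b) ^ j := by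
    intro j
    rw [map_pow, map_pow, mul_pow]
    ring
  simp only [h1]
  split_ifs with hab
  · subst hab
    rw [← mul_pow, hζc]
    simp
  · have hw : ζ ^ a * conj ζ ^ b ≠ 1 := by
      intro h
      apply hab
      have h2 : ζ ^ a = ζ ^ b := by
        calc ζ ^ a = ζ ^ a * (ζ * conj ζ) ^ b := by rw [hζc]; simp
          _ = (ζ ^ a * conj ζ ^ b) * ζ ^ b := by ring
          _ = ζ ^ b := by rw [h, one_mul]
      exact hζ.pow_inj ha hb h2
    have hw1 : (ζ ^ a * conj ζ ^ b) ^ m = 1 := by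
      rw [mul_pow, ← pow_mul, ← pow_mul, mul_comm a, mul_comm b, pow_mul, pow_mul, hζ.pow_eq_one,
        ← map_pow, hζ.pow_eq_one]
      simp
    rw [geom_sum_eq hw, hw1]
    simp

/-- the correlation of two translates -/
noncomputable def gam (M : (ℕ → ℝ) → ℝ) (f : ℕ → ℂ) (h h' : ℕ) : ℂ :=
  mc M (fun n => f (n + h) * conj (f (n + h')))

section gam

variable {M : (ℕ → ℝ) → ℝ} (hM : IsMean M) {f : ℕ → ℂ} (hf : BddC f)
include hM hf

theorem gam_shift (h h' t : ℕ) : gam M f (h + t) (h' + t) = gam M f h h' := by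
  unfold gam
  rw [← mc_shift hM t (bc_mul (bc_shift hf h) (bc_conj (bc_shift hf h')))]
  congr 1
  funext n
  rw [show n + (h + t) = n + t + h by ring, show n + (h' + t) = n + t + h' by ring]

theorem gam_eq {h h' l l' : ℕ} (e : h + l' = h' + l) : gam M f h h' = gam M f l l' := by
  rcases le_total l h with h1 | h1
  · obtain ⟨t, rfl⟩ := Nat.exists_eq_add_of_le h1
    have : h' = l' + t := by omega
    rw [this, gam_shift hM hf]
  · obtain ⟨t, rfl⟩ := Nat.exists_eq_add_of_le h1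
    have : l' = h' + t := by omega
    rw [this, gam_shift hM hf]

theorem gam_diag (h : ℕ) : gam M f h h = ((M (fun n => ‖f n‖ ^ 2) : ℝ) : ℂ) := by
  have h0 := gam_shift hM hf 0 0 h
  rw [zero_add] at h0
  rw [h0, ← mc_ofReal hM]
  unfold gam
  congr 1
  funext n
  rw [add_zero, Complex.mul_conj, Complex.normSq_eq_norm_sq]

theorem Qbound (hf1 : M (fun n => ‖f n‖ ^ 2) ≤ 1) {K : ℕ} (hK : 1 ≤ K) {Λ : ℝ}
    (hΛ : ∀ z : ℂ, ‖z‖ = 1 →
      M (fun n => ‖∑ h ∈ Finset.range (2 * K), z ^ h * f (n + h)‖ ^ 2) ≤ Λ) :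
    ∑ l ∈ Finset.range K, ∑ l' ∈ Finset.range K, ‖gam M f l l'‖ ^ 2 ≤ Λ := by
  set m := 4 * K with hm
  have hm0 : m ≠ 0 := by omega
  have hmpos : (0 : ℝ) < m := by exact_mod_cast Nat.pos_of_ne_zero hm0
  have hKpos : (0 : ℝ) < K := by exact_mod_cast hK
  obtain ⟨ζ, hζ⟩ : ∃ ζ : ℂ, IsPrimitiveRoot ζ m := ⟨_, Complex.isPrimitiveRoot_exp m hm0⟩
  have hζn : ‖ζ‖ = 1 := hζ.norm'_eq_one hm0
  have hzj : ∀ j : ℕ, ‖ζ ^ j‖ = 1 := fun j => by rw [norm_pow, hζn, one_pow]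
  set G : ℕ → ℕ → ℝ := fun H j =>
    M (fun n => ‖∑ h ∈ Finset.range H, (ζ ^ j) ^ h * f (n + h)‖ ^ 2) with hG
  have hGc : ∀ H j, ((G H j : ℝ) : ℂ) = ∑ h ∈ Finset.range H, ∑ h' ∈ Finset.range H,
      (ζ ^ j) ^ h * conj ((ζ ^ j) ^ h') * gam M f h h' := fun H j =>
    quad hM hf H (fun h => (ζ ^ j) ^ h)
  have hGnn : ∀ H j, 0 ≤ G H j := fun H j => S_nonneg hM (bF hf H _)
  -- the sum of the products
  have hA : ∀ j, ((G K j : ℝ) : ℂ) * ((G (2 * K) j : ℝ) : ℂ) =
      ∑ l ∈ Finset.range K, ∑ l' ∈ Finset.range K, ∑ h ∈ Finset.range (2 * K),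
        ∑ h' ∈ Finset.range (2 * K), (conj (gam M f l l') * gam M f h h') *
          ((ζ ^ j) ^ (h + l') * conj ((ζ ^ j) ^ (h' + l))) := by
    intro j
    have h1 : ((G K j : ℝ) : ℂ) = ∑ l ∈ Finset.range K, ∑ l' ∈ Finset.range K,
        conj ((ζ ^ j) ^ l) * (ζ ^ j) ^ l' * conj (gam M f l l') := by
      have h2 := congrArg conj (hGc K j)
      rw [Complex.conj_ofReal, map_sum] at h2
      rw [h2]
      refine Finset.sum_congr rfl fun l _ => ?_
      rw [map_sum]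
      refine Finset.sum_congr rfl fun l' _ => ?_
      rw [map_mul, map_mul, Complex.conj_conj]
    rw [h1, hGc (2 * K) j, Finset.sum_mul]
    refine Finset.sum_congr rfl fun l _ => ?_
    rw [Finset.sum_mul]
    refine Finset.sum_congr rfl fun l' _ => ?_
    rw [Finset.mul_sum]
    refine Finset.sum_congr rfl fun h _ => ?_
    rw [Finset.mul_sum]
    refine Finset.sum_congr rfl fun h' _ => ?_
    rw [pow_add, pow_add, map_mul]
    ring
  have hB : ∑ j ∈ Finset.range m, ((G K j : ℝ) : ℂ) * ((G (2 * K) j : ℝ) : ℂ) =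
      ∑ l ∈ Finset.range K, ∑ l' ∈ Finset.range K, ∑ h ∈ Finset.range (2 * K),
        ∑ h' ∈ Finset.range (2 * K),
          (((if h + l' = h' + l then (m : ℝ) * ‖gam M f l l'‖ ^ 2 else 0) : ℝ) : ℂ) := by
    simp only [hA]
    rw [Finset.sum_comm]
    refine Finset.sum_congr rfl fun l hl => ?_
    rw [Finset.sum_comm]
    refine Finset.sum_congr rfl fun l' hl' => ?_
    rw [Finset.sum_comm]
    refine Finset.sum_congr rfl fun h hh => ?_
    rw [Finset.sum_comm]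
    refine Finset.sum_congr rfl fun h' hh' => ?_
    rw [Finset.mem_range] at hl hl' hh hh'
    rw [← Finset.mul_sum, root_sum (by omega) hζ (by omega) (by omega)]
    split_ifs with e
    · rw [gam_eq hM hf e, ← Complex.normSq_eq_conj_mul_self, Complex.normSq_eq_norm_sq]
      push_cast
      ring
    · simp
  have hB' : ∑ j ∈ Finset.range m, G K j * G (2 * K) j =
      ∑ l ∈ Finset.range K, ∑ l' ∈ Finset.range K, ∑ h ∈ Finset.range (2 * K),
        ∑ h' ∈ Finset.range (2 * K),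
          (if h + l' = h' + l then (m : ℝ) * ‖gam M f l l'‖ ^ 2 else 0) := by
    exact_mod_cast hB
  have hC : ∑ l ∈ Finset.range K, ∑ l' ∈ Finset.range K,
      (K : ℝ) * ((m : ℝ) * ‖gam M f l l'‖ ^ 2) ≤ ∑ j ∈ Finset.range m, G K j * G (2 * K) j := by
    rw [hB']
    refine Finset.sum_le_sum fun l hl => Finset.sum_le_sum fun l' hl' => ?_
    rw [Finset.mem_range] at hl hl'
    have h1 : ∀ h ∈ Finset.Ico l (l + K), (m : ℝ) * ‖gam M f l l'‖ ^ 2 ≤
        ∑ h' ∈ Finset.range (2 * K),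
          (if h + l' = h' + l then (m : ℝ) * ‖gam M f l l'‖ ^ 2 else 0) := by
      intro h hh
      rw [Finset.mem_Ico] at hh
      have h2 := Finset.single_le_sum (f := fun h' : ℕ =>
        (if h + l' = h' + l then (m : ℝ) * ‖gam M f l l'‖ ^ 2 else 0))
        (s := Finset.range (2 * K)) (fun i _ => by split_ifs <;> positivity)
        (a := h + l' - l) (Finset.mem_range.2 (by omega))
      rwa [if_pos (by omega)] at h2
    have h3 := Finset.card_nsmul_le_sum (Finset.Ico l (l + K)) _ _ h1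
    rw [Nat.card_Ico, Nat.add_sub_cancel_left, nsmul_eq_mul] at h3
    refine h3.trans (Finset.sum_le_sum_of_subset_of_nonneg ?_ fun i _ _ =>
      Finset.sum_nonneg fun i _ => by split_ifs <;> positivity)
    intro h hh
    rw [Finset.mem_Ico] at hh
    exact Finset.mem_range.2 (by omega)
  -- the upper bound
  have hD : ∑ j ∈ Finset.range m, G K j ≤ m * K := by
    have h1 : ((∑ j ∈ Finset.range m, G K j : ℝ) : ℂ) =
        ((m * K * M (fun n => ‖f n‖ ^ 2) : ℝ) : ℂ) := by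
      rw [Complex.ofReal_sum]
      simp only [hGc]
      rw [Finset.sum_comm]
      have h2 : ∀ l ∈ Finset.range K, (∑ j ∈ Finset.range m, ∑ l' ∈ Finset.range K,
          (ζ ^ j) ^ l * conj ((ζ ^ j) ^ l') * gam M f l l') =
          m * ((M (fun n => ‖f n‖ ^ 2) : ℝ) : ℂ) := by
        intro l hl
        rw [Finset.sum_comm]
        have h3 : ∀ l' ∈ Finset.range K, (∑ j ∈ Finset.range m,
            (ζ ^ j) ^ l * conj ((ζ ^ j) ^ l') * gam M f l l') =
            if l = l' then m * ((M (fun n => ‖f n‖ ^ 2) : ℝ) : ℂ) else 0 := by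
          intro l' hl'
          rw [Finset.mem_range] at hl hl'
          rw [← Finset.sum_mul, root_sum (by omega) hζ (by omega) (by omega)]
          split_ifs with e
          · subst e
            rw [gam_diag hM hf]
          · simp
        rw [Finset.sum_congr rfl h3, Finset.sum_ite_eq, if_pos hl]
      rw [Finset.sum_congr rfl h2, Finset.sum_const, Finset.card_range, nsmul_eq_mul]
      push_cast
      ring
    rw [Complex.ofReal_inj.1 h1]
    nlinarith [mul_pos hmpos hKpos]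
  have hΛ0 : 0 ≤ Λ := (hGnn (2 * K) 0).trans (hΛ _ (hzj 0))
  have hE : ∑ j ∈ Finset.range m, G K j * G (2 * K) j ≤ Λ * (m * K) := by
    calc ∑ j ∈ Finset.range m, G K j * G (2 * K) j ≤ ∑ j ∈ Finset.range m, G K j * Λ :=
          Finset.sum_le_sum fun j _ => mul_le_mul_of_nonneg_left (hΛ _ (hzj j)) (hGnn _ _)
      _ = Λ * ∑ j ∈ Finset.range m, G K j := by rw [← Finset.sum_mul]; ring
      _ ≤ Λ * (m * K) := mul_le_mul_of_nonneg_left hD hΛ0
  have hF : ∑ l ∈ Finset.range K, ∑ l' ∈ Finset.range K,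
      (K : ℝ) * ((m : ℝ) * ‖gam M f l l'‖ ^ 2) =
      (m * K) * ∑ l ∈ Finset.range K, ∑ l' ∈ Finset.range K, ‖gam M f l l'‖ ^ 2 := by
    rw [Finset.mul_sum]
    refine Finset.sum_congr rfl fun l _ => ?_
    rw [Finset.mul_sum]
    refine Finset.sum_congr rfl fun l' _ => ?_
    ring
  rw [hF] at hC
  have hG := hC.trans hE
  have hmK := mul_pos hmpos hKpos
  rw [mul_comm Λ] at hG
  exact le_of_mul_le_mul_left hG hmK

end gam

end Wiener

open Wiener in
open scoped ComplexConjugate in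
theorem wiener {M : (ℕ → ℝ) → ℝ} (hM : IsErg M) {f : ℕ → ℂ} (hf : BddC f)
    {κ : ℝ} (hκ : 0 < κ) (h : ∀ z : Circle, ‖mc M (fun n => f n * (z : ℂ) ^ n)‖ ^ 2 < κ)
    (hf1 : M (fun n => ‖f n‖ ^ 2) ≤ 1) {M' : (ℕ → ℝ) → ℝ} (hM' : IsMean M') {u : ℕ → ℂ}
    (hu : BddC u) (hu1 : M (fun n => ‖u n‖ ^ 2) ≤ 1) :
    M' (fun p => ‖mc M (fun y => u y * f (y + p))‖ ^ 2) ≤ Real.sqrt (24 * κ) := by
  have hm := hM.mean
  obtain ⟨H₀, hH₀⟩ := unif hM hf hf1 hκ h
  set K := H₀ + 1 with hK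
  have hK1 : 1 ≤ K := by omega
  have hKpos : (0 : ℝ) < K := by exact_mod_cast hK1
  have hs : 0 < Real.sqrt κ := Real.sqrt_pos.2 hκ
  have hQ := Qbound hm hf hf1 hK1 (Λ := 16 * κ * K ^ 2) (by
    intro z hz
    have h1 := hH₀ (2 * K) (by omega) ⟨z, by simpa [Submonoid.unitSphere] using hz⟩
    have h2 : Real.sqrt (M (fun n => ‖∑ h ∈ Finset.range (2 * K), z ^ h * f (n + h)‖ ^ 2)) ≤
      2 * Real.sqrt κ * ((2 * K : ℕ) : ℝ) := h1
    rw [Real.sqrt_le_left (by positivity)] at h2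
    refine h2.trans (le_of_eq ?_)
    push_cast
    rw [mul_pow, mul_pow, Real.sq_sqrt hκ.le]
    ring)
  set Q := ∑ l ∈ Finset.range K, ∑ l' ∈ Finset.range K, ‖gam M f l l'‖ ^ 2 with hQdef
  set ρ : ℕ → ℂ := fun p => mc M (fun y => u y * f (y + p)) with hρ
  have hρb : BddC ρ := by
    refine ⟨1, fun p => ?_⟩
    have h1 := cs hm hu (bc_shift hf p)
    rw [M_shift hm p (bc_normsq hf)] at h1
    have h2 : ‖ρ p‖ ^ 2 ≤ 1 := h1.trans (mul_le_one₀ hu1 (S_nonneg hm hf) hf1)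
    exact (sq_le_one_iff₀ (norm_nonneg _)).1 h2
  have key : ∀ p : ℕ, ∑ h ∈ Finset.range K, ‖ρ (p + h)‖ ^ 2 ≤ K * Real.sqrt (24 * κ) := by
    intro p
    set R := ∑ h ∈ Finset.range K, ‖ρ (p + h)‖ ^ 2 with hR
    have hR0 : 0 ≤ R := by positivity
    set r : ℕ → ℂ := fun h => conj (ρ (p + h)) with hr
    have hrn : ∀ h, ‖r h‖ = ‖ρ (p + h)‖ := fun h => RCLike.norm_conj _
    have h1 : (R : ℂ) = mc M (fun y => u y * (fun n => ∑ h ∈ Finset.range K, r h * f (n + h)) (y + p)) := by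
      have h2 : (fun y => u y * (fun n => ∑ h ∈ Finset.range K, r h * f (n + h)) (y + p)) =
          fun y => ∑ h ∈ Finset.range K, r h * (u y * f (y + (p + h))) := by
        funext y
        simp only
        rw [Finset.mul_sum]
        refine Finset.sum_congr rfl fun h _ => ?_
        rw [add_assoc]
        ring
      rw [h2, mc_sum hm _ fun h _ => bc_smul _ (bc_mul hu (bc_shift hf _)), hR, Complex.ofReal_sum]
      refine Finset.sum_congr rfl fun h _ => ?_
      rw [mc_smul hm _ (bc_mul hu (bc_shift hf _)), ← Complex.normSq_eq_norm_sq,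
        Complex.normSq_eq_conj_mul_self]
    have h3 : R ^ 2 ≤ M (fun n => ‖∑ h ∈ Finset.range K, r h * f (n + h)‖ ^ 2) := by
      have h4 := cs hm hu (bc_shift (bF hf K r) p)
      rw [← h1, M_shift hm p (bc_normsq (bF hf K r)), Complex.norm_real, Real.norm_eq_abs,
        sq_abs] at h4
      refine h4.trans (mul_le_of_le_one_left (S_nonneg hm (bF hf K r)) hu1)
    have h5 : M (fun n => ‖∑ h ∈ Finset.range K, r h * f (n + h)‖ ^ 2) ≤ R * Real.sqrt Q := by
      have h6 := congrArg norm (quad hm hf K r)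
      rw [Complex.norm_real, Real.norm_eq_abs, abs_of_nonneg (S_nonneg hm (bF hf K r))] at h6
      rw [h6]
      have h7 : ‖∑ h ∈ Finset.range K, ∑ h' ∈ Finset.range K,
          r h * conj (r h') * mc M (fun n => f (n + h) * conj (f (n + h')))‖ ≤
          ∑ x ∈ Finset.range K ×ˢ Finset.range K, (‖r x.1‖ * ‖r x.2‖) * ‖gam M f x.1 x.2‖ := by
        rw [← Finset.sum_product' (f := fun h h' => r h * conj (r h') *
          mc M (fun n => f (n + h) * conj (f (n + h'))))]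
        refine (norm_sum_le _ _).trans (le_of_eq ?_)
        refine Finset.sum_congr rfl fun x _ => ?_
        rw [norm_mul, norm_mul, RCLike.norm_conj (r x.2)]
        rfl
      refine h7.trans ?_
      have h8 := Finset.sum_mul_sq_le_sq_mul_sq (Finset.range K ×ˢ Finset.range K)
        (fun x : ℕ × ℕ => ‖r x.1‖ * ‖r x.2‖) (fun x => ‖gam M f x.1 x.2‖)
      have h9 : ∑ x ∈ Finset.range K ×ˢ Finset.range K, (‖r x.1‖ * ‖r x.2‖) ^ 2 = R ^ 2 := by
        rw [Finset.sum_product' (f := fun h h' => (‖r h‖ * ‖r h'‖) ^ 2), sq R, hR,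
          Finset.sum_mul_sum]
        refine Finset.sum_congr rfl fun h _ => Finset.sum_congr rfl fun h' _ => ?_
        rw [mul_pow, hrn, hrn]
      have h10 : ∑ x ∈ Finset.range K ×ˢ Finset.range K, ‖gam M f x.1 x.2‖ ^ 2 = Q := by
        rw [Finset.sum_product' (f := fun h h' => ‖gam M f h h'‖ ^ 2)]
      rw [h9, h10] at h8
      have h11 := Real.le_sqrt_of_sq_le h8
      rwa [Real.sqrt_mul (by positivity), Real.sqrt_sq hR0] at h11
    have h12 : R ≤ Real.sqrt Q := by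
      rcases hR0.eq_or_lt with h0 | h0
      · rw [← h0]; exact Real.sqrt_nonneg _
      · have h13 := h3.trans h5
        rw [sq] at h13
        exact le_of_mul_le_mul_left h13 h0
    refine h12.trans ?_
    rw [Real.sqrt_le_left (by positivity), mul_pow, Real.sq_sqrt (by positivity)]
    refine hQ.trans ?_
    have : 0 ≤ κ * (K : ℝ) ^ 2 := by positivity
    nlinarith
  have hb := bc_normsq hρb
  have h1 : (K : ℝ) * M' (fun p => ‖ρ p‖ ^ 2) =
      M' (fun p => ∑ h ∈ Finset.range K, ‖ρ (p + h)‖ ^ 2) := by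
    rw [M_sum hM' _ fun h _ => bdd_shift hb h]
    simp only [M_shift hM' _ hb, Finset.sum_const, Finset.card_range, nsmul_eq_mul]
  have h2 := M_mono hM' (bdd_sum _ fun h _ => bdd_shift hb h) (bdd_const _) key
  rw [← h1, M_const hM'] at h2
  exact le_of_mul_le_mul_left h2 hKpos

end Pool.Agent.TH270.Rec
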