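import Pool.Agent.TH270.Rec.Align
import Pool.Agent.TH270.Rec.Wiener

set_option autoImplicit false

/-! The core estimate of the window lemma. -/

namespace Pool.Agent.TH270.Rec

open Filter Topology Set
open scoped Classical

/-- the core estimate: the averaged correlation is bounded below -/
lemma core {MA MO : (ℕ → ℝ) → ℝ} (hMA : IsErg MA) (hMO : IsMean MO) {A O : Set ℕ}
    {φ : ℕ → ℝ} (hφ0 : ∀ y, 0 ≤ φ y) (hφ1 : ∀ y, φ y ≤ 1) (hb0 : 0 < MA φ)
    (hπ : 0 < MO (ind O))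
    {b : Circle → ℂ} (hb : ∀ z, ‖b z‖ ≤ 1)
    {Θ0 ΘP : Finset Circle} (h01 : Θ0 ⊆ ΘP) {ε ε1 η r : ℝ} (hε : 0 < ε) (hη : 0 ≤ η)
    (hε1 : 0 ≤ ε1) {n0 n0' : ℕ}
    {L c : ℕ} (hL : 1 ≤ L) {β : ℕ → ℝ} (hβ0 : ∀ h, 0 ≤ β h) (hβ1 : ∀ h, β h ≤ 1)
    (tail1 : ∀ Θ' : Finset Circle, Disjoint Θ' ΘP →
      ∑ z ∈ Θ', ‖fc MA (indC A) z⁻¹‖ * ‖fc MO (indC O) z‖ ≤ ε * MO (ind O))
    (tail2 : ∑ z ∈ ΘP \ Θ0, ‖fc MA (indC A) z⁻¹‖ * ‖b z‖ ≤ ε)
    (hcard : (ΘP.card : ℝ) * ε1 ≤ ε)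
    (hCP : ∀ z ∈ ΘP, ‖(L : ℂ)⁻¹ * ∑ h ∈ Finset.range L, (β h : ℂ) * (z : ℂ) ^ (c + h)‖ ≤
      ‖b z‖ + ε1)
    (hC0 : ∀ z ∈ Θ0, ‖(L : ℂ)⁻¹ * ∑ h ∈ Finset.range L, (β h : ℂ) * (z : ℂ) ^ (c + h) -
      ((z⁻¹ : Circle) : ℂ) ^ n0' * b z‖ ≤ η + ε1)
    (ho0 : ∀ z ∈ Θ0, ‖fc MO (indC O) z - (MO (ind O) : ℝ) * (z : ℂ) ^ n0‖ ≤ MO (ind O) * η)
    (hp0 : ∀ z ∈ Θ0, ‖fc MA (fun y => (φ y : ℂ)) z - (MA φ : ℝ)‖ ≤ 2 * η * MA φ)
    (hR : r < (∑ z ∈ Θ0, fc MA (indC A) z⁻¹ * b z *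
      ((z : ℂ) ^ n0 * ((z⁻¹ : Circle) : ℂ) ^ n0')).re) :
    MO (ind O) * MA φ * (r - 4 * (Θ0.card : ℝ) * η - 5 * ε) ≤
      MO (fun m => ind O m * MA (fun y => φ y *
        ((L : ℝ)⁻¹ * ∑ h ∈ Finset.range L, β h * ind A (y + m + c + h)))) := by
  set π := MO (ind O) with hπd
  set b0 := MA φ with hb0d
  have hMA' := hMA.mean
  have hLpos : (0 : ℝ) < L := by exact_mod_cast hL
  have hφb : Bdd φ := ⟨1, fun y => by rw [abs_of_nonneg (hφ0 y)]; exact hφ1 y⟩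
  have hφC : BddC (fun y => (φ y : ℂ)) := BddC.ofReal hφb
  -- the finite set of large coefficients
  set κ : ℝ := (ε * π * b0) ^ 4 / 24 with hκd
  have hκ : 0 < κ := by positivity
  have hfin : {z : Circle | ¬ ‖fc MA (indC A) z⁻¹‖ ^ 2 < κ}.Finite := by
    have h1 := (hMA'.summable_sq (bddC_indC A)).tendsto_cofinite_zero
    have h2 := h1.eventually (gt_mem_nhds hκ)
    exact h2
  set Θ1 : Finset Circle := ΘP ∪ hfin.toFinset with hΘ1
  have hP1 : ΘP ⊆ Θ1 := Finset.subset_union_left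
  set a : Circle → ℂ := fun z => fc MA (indC A) z⁻¹ with ha
  set f : ℕ → ℂ := fun n => indC A n - trig MA (indC A) Θ1 n with hf
  have hfb : BddC f := (bddC_indC A).sub (hMA'.bddC_trig _ _)
  have hfκ : ∀ w : Circle, ‖mc MA (fun n => f n * (w : ℂ) ^ n)‖ ^ 2 < κ := by
    intro w
    have h1 := hMA'.fc_sub_trig (bddC_indC A) Θ1 w
    have h2 : mc MA (fun n => f n * (w : ℂ) ^ n) =
        if w⁻¹ ∈ Θ1 then 0 else fc MA (indC A) w := h1
    rw [h2]
    split_ifs with h3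
    · simpa using hκ
    · by_contra hcon
      apply h3
      rw [hΘ1, Finset.mem_union]
      right
      rw [Set.Finite.mem_toFinset, Set.mem_ofPred_eq, inv_inv]
      exact hcon
  have hf1 : MA (fun n => ‖f n‖ ^ 2) ≤ 1 := by
    have h1 := hMA'.bessel_eq (bddC_indC A) Θ1
    have h2 : 0 ≤ ∑ z ∈ Θ1, ‖fc MA (indC A) z⁻¹‖ ^ 2 := Finset.sum_nonneg fun z _ => by positivity
    have h3 := hMA'.sq_indC_le_one A
    show MA (fun n => ‖indC A n - trig MA (indC A) Θ1 n‖ ^ 2) ≤ 1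
    linarith
  set ρ : ℕ → ℂ := fun p => mc MA (fun y => (φ y : ℂ) * f (y + p)) with hρ
  have hρb : BddC ρ := by
    obtain ⟨D, hD⟩ := hfb
    refine ⟨D, fun p => ?_⟩
    refine hMA'.norm_mc_le_of_le (hφC.mul (BddC.comp ⟨D, hD⟩ _)) fun y => ?_
    rw [norm_mul, Complex.norm_real, Real.norm_of_nonneg (hφ0 y)]
    have hD0 : 0 ≤ D := (norm_nonneg _).trans (hD 0)
    calc φ y * ‖f (y + p)‖ ≤ 1 * D := mul_le_mul (hφ1 y) (hD _) (norm_nonneg _) zero_le_one
      _ = D := one_mul D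
  have hρ2 : MO (fun p => ‖ρ p‖ ^ 2) ≤ (ε * π * b0) ^ 2 := by
    have h1 := wiener hMA hfb hκ hfκ hf1 hMO hφC (by
      refine hMA'.le_of_le hφC.normSq fun y => ?_
      rw [Complex.norm_real, Real.norm_of_nonneg (hφ0 y)]
      exact pow_le_one₀ (hφ0 y) (hφ1 y))
    refine h1.trans (le_of_eq ?_)
    rw [hκd, mul_div_cancel₀ _ (by norm_num : (24 : ℝ) ≠ 0),
      show (ε * π * b0) ^ 4 = ((ε * π * b0) ^ 2) ^ 2 by ring, Real.sqrt_sq (by positivity)]
  have hρs : ∀ s, ‖mc MO (fun m => indC O m * ρ (m + s))‖ ≤ ε * π * b0 := by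
    intro s
    apply le_of_sq_le_sq _ (by positivity)
    calc ‖mc MO (fun m => indC O m * ρ (m + s))‖ ^ 2
        ≤ MO (fun m => ‖indC O m‖ ^ 2) * MO (fun m => ‖ρ (m + s)‖ ^ 2) :=
          hMO.cs (bddC_indC O) (hρb.comp _)
      _ ≤ 1 * MO (fun m => ‖ρ (m + s)‖ ^ 2) :=
          mul_le_mul_of_nonneg_right (hMO.sq_indC_le_one O)
            (hMO.nonneg _ (hρb.comp _).normSq fun _ => by positivity)
      _ = MO (fun m => ‖ρ m‖ ^ 2) := by rw [one_mul]; exact hMO.shift' hρb.normSq s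
      _ ≤ (ε * π * b0) ^ 2 := hρ2
  -- weights
  set Cz : Circle → ℂ := fun z => (L : ℂ)⁻¹ * ∑ h ∈ Finset.range L, (β h : ℂ) * (z : ℂ) ^ (c + h)
    with hCz
  have hCz1 : ∀ z, ‖Cz z‖ ≤ 1 := by
    intro z
    simp only [hCz]
    rw [norm_mul, norm_inv, Complex.norm_natCast, inv_mul_le_iff₀ hLpos, mul_one]
    calc ‖∑ h ∈ Finset.range L, (β h : ℂ) * (z : ℂ) ^ (c + h)‖
        ≤ ∑ h ∈ Finset.range L, ‖(β h : ℂ) * (z : ℂ) ^ (c + h)‖ := norm_sum_le _ _
      _ ≤ ∑ _h ∈ Finset.range L, (1 : ℝ) := by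
          refine Finset.sum_le_sum fun h _ => ?_
          rw [norm_mul, norm_pow, Circle.norm_coe, one_pow, mul_one, Complex.norm_real,
            Real.norm_of_nonneg (hβ0 h)]
          exact hβ1 h
      _ = L := by simp
  set p : Circle → ℂ := fun z => fc MA (fun y => (φ y : ℂ)) z with hp
  have hpb : ∀ z, ‖p z‖ ≤ b0 := by
    intro z
    refine (hMA'.norm_fc_le hφC z).trans (le_of_eq ?_)
    rw [hb0d]
    congr 1
    funext y
    rw [Complex.norm_real, Real.norm_of_nonneg (hφ0 y)]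
  set o : Circle → ℂ := fun z => fc MO (indC O) z with ho
  -- main bound
  have hmain := main_bound (a := a) (b := b) (C := Cz) (p := p) (o := o) h01 hP1
    (π := π) (b0 := b0) (ε := ε) (ε1 := ε1) (η := η) (r := r) (n0 := n0) (n0' := n0')
    hπ.le hb0.le hη hε1
    (fun z => (hMA'.norm_fc_indC_le A z⁻¹).trans (hMA'.ind_le_one A)) hb hCz1 hpb
    (fun z => hMO.norm_fc_indC_le O z) (tail1 _ Finset.sdiff_disjoint) tail2 hcard hCP hC0 ho0
    hp0 hR
  -- expansion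
  set Ψ : ℕ → ℝ := fun m => MA (fun y => φ y *
    ((L : ℝ)⁻¹ * ∑ h ∈ Finset.range L, β h * ind A (y + m + c + h))) with hΨ
  have hΨe : ∀ m, (Ψ m : ℂ) = ∑ z ∈ Θ1, (a z * Cz z * p z) * (z : ℂ) ^ m +
      (L : ℂ)⁻¹ * ∑ h ∈ Finset.range L, (β h : ℂ) * ρ (m + (c + h)) := by
    intro m
    simp only [hΨ]
    rw [← hMA'.mc_ofReal]
    have e1 : (fun y => ((φ y * ((L : ℝ)⁻¹ * ∑ h ∈ Finset.range L,
        β h * ind A (y + m + c + h)) : ℝ) : ℂ)) = fun y =>
        ∑ z ∈ Θ1, (a z * Cz z * (z : ℂ) ^ m) * ((φ y : ℂ) * (z : ℂ) ^ y) +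
        (L : ℂ)⁻¹ * ∑ h ∈ Finset.range L, (β h : ℂ) * ((φ y : ℂ) * f (y + (m + (c + h)))) := by
      funext y
      push_cast
      have e2 : ∀ n, (ind A n : ℂ) = trig MA (indC A) Θ1 n + f n := by
        intro n
        simp only [hf, indC]
        ring
      simp only [e2]
      have e3 : ∀ h, trig MA (indC A) Θ1 (y + m + c + h) =
          ∑ z ∈ Θ1, a z * ((z : ℂ) ^ y * (z : ℂ) ^ m * (z : ℂ) ^ (c + h)) := by
        intro h
        unfold trig
        refine Finset.sum_congr rfl fun z _ => ?_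
        rw [← pow_add, ← pow_add, add_assoc (y + m) c h]
      simp only [e3, mul_add, Finset.sum_add_distrib]
      congr 1
      · simp only [hCz]
        simp only [Finset.mul_sum, Finset.sum_mul]
        rw [Finset.sum_comm]
        refine Finset.sum_congr rfl fun z _ => Finset.sum_congr rfl fun h _ => ?_
        ring
      · simp only [Finset.mul_sum]
        refine Finset.sum_congr rfl fun h _ => ?_
        rw [show y + (m + (c + h)) = y + m + c + h by ring]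
        ring
    rw [e1, hMA'.mc_add
      (BddC.sum fun z _ => (hφC.mul (BddC.char z)).const_mul _)
      ((BddC.sum fun h _ => (hφC.mul (hfb.comp _)).const_mul _).const_mul _),
      hMA'.mc_sum fun z _ => (hφC.mul (BddC.char z)).const_mul _,
      hMA'.mc_smul _ (BddC.sum fun h _ => (hφC.mul (hfb.comp _)).const_mul _),
      hMA'.mc_sum fun h _ => (hφC.mul (hfb.comp _)).const_mul _]
    congr 1
    · refine Finset.sum_congr rfl fun z _ => ?_
      rw [hMA'.mc_smul _ (hφC.mul (BddC.char z))]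
      simp only [hp, fc]
      ring
    · congr 1
      refine Finset.sum_congr rfl fun h _ => ?_
      rw [hMA'.mc_smul _ (hφC.mul (hfb.comp _))]
  have hF : (MO (fun m => ind O m * Ψ m) : ℂ) = ∑ z ∈ Θ1, a z * Cz z * p z * o z +
      (L : ℂ)⁻¹ * ∑ h ∈ Finset.range L, (β h : ℂ) * mc MO (fun m => indC O m * ρ (m + (c + h))) := by
    rw [← hMO.mc_ofReal]
    have e1 : (fun m => ((ind O m * Ψ m : ℝ) : ℂ)) = fun m =>
        ∑ z ∈ Θ1, (a z * Cz z * p z) * (indC O m * (z : ℂ) ^ m) +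
        (L : ℂ)⁻¹ * ∑ h ∈ Finset.range L, (β h : ℂ) * (indC O m * ρ (m + (c + h))) := by
      funext m
      rw [Complex.ofReal_mul, hΨe m, mul_add, Finset.mul_sum]
      congr 1
      · refine Finset.sum_congr rfl fun z _ => ?_
        unfold indC
        ring
      · unfold indC
        rw [mul_left_comm, Finset.mul_sum]
        congr 1
        refine Finset.sum_congr rfl fun h _ => ?_
        ring
    rw [e1, hMO.mc_add
      (BddC.sum fun z _ => ((bddC_indC O).mul (BddC.char z)).const_mul _)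
      ((BddC.sum fun h _ => ((bddC_indC O).mul (hρb.comp _)).const_mul _).const_mul _),
      hMO.mc_sum fun z _ => ((bddC_indC O).mul (BddC.char z)).const_mul _,
      hMO.mc_smul _ (BddC.sum fun h _ => ((bddC_indC O).mul (hρb.comp _)).const_mul _),
      hMO.mc_sum fun h _ => ((bddC_indC O).mul (hρb.comp _)).const_mul _]
    congr 1
    · refine Finset.sum_congr rfl fun z _ => ?_
      rw [hMO.mc_smul _ ((bddC_indC O).mul (BddC.char z))]
      simp only [ho, fc]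
    · congr 1
      refine Finset.sum_congr rfl fun h _ => ?_
      rw [hMO.mc_smul _ ((bddC_indC O).mul (hρb.comp _))]
  have herr : ‖(L : ℂ)⁻¹ * ∑ h ∈ Finset.range L, (β h : ℂ) *
      mc MO (fun m => indC O m * ρ (m + (c + h)))‖ ≤ ε * π * b0 := by
    rw [norm_mul, norm_inv, Complex.norm_natCast, inv_mul_le_iff₀ hLpos]
    calc _ ≤ ∑ h ∈ Finset.range L, ‖(β h : ℂ) *
          mc MO (fun m => indC O m * ρ (m + (c + h)))‖ := norm_sum_le _ _
      _ ≤ ∑ _h ∈ Finset.range L, (ε * π * b0) := by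
          refine Finset.sum_le_sum fun h _ => ?_
          rw [norm_mul, Complex.norm_real, Real.norm_of_nonneg (hβ0 h)]
          calc β h * ‖mc MO (fun m => indC O m * ρ (m + (c + h)))‖ ≤ 1 * (ε * π * b0) :=
                mul_le_mul (hβ1 h) (hρs _) (norm_nonneg _) zero_le_one
            _ = ε * π * b0 := one_mul _
      _ = L * (ε * π * b0) := by rw [Finset.sum_const, Finset.card_range, nsmul_eq_mul]
  have hre := (Complex.abs_re_le_norm _).trans herr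
  rw [abs_le] at hre
  have hF2 := congrArg Complex.re hF
  rw [Complex.ofReal_re, Complex.add_re] at hF2
  rw [hF2]
  have : π * b0 * (r - 4 * (Θ0.card : ℝ) * η - 5 * ε) =
      π * b0 * (r - 4 * (Θ0.card : ℝ) * η - 4 * ε) - ε * π * b0 := by ring
  rw [this]
  linarith [hre.1]

end Pool.Agent.TH270.Rec
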