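import Mathlib

set_option autoImplicit false

/-! Definitions for the product theorem for reiterative recurrence. -/

namespace Pool.Agent.TH270.Rec

open Filter Topology Set

/-- bounded real sequences -/
def Bdd (f : ℕ → ℝ) : Prop := ∃ C : ℝ, ∀ n, |f n| ≤ C

/-- bounded complex sequences -/
def BddC (f : ℕ → ℂ) : Prop := ∃ C : ℝ, ∀ n, ‖f n‖ ≤ C

/-- shift-invariant means on bounded real sequences (with value `0` on unbounded sequences) -/
structure IsMean (M : (ℕ → ℝ) → ℝ) : Prop where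
  add : ∀ f g : ℕ → ℝ, Bdd f → Bdd g → M (f + g) = M f + M g
  smul : ∀ (c : ℝ) (f : ℕ → ℝ), Bdd f → M (c • f) = c * M f
  nonneg : ∀ f : ℕ → ℝ, Bdd f → (∀ n, 0 ≤ f n) → 0 ≤ M f
  one : M (fun _ => 1) = 1
  shift : ∀ f : ℕ → ℝ, Bdd f → M (fun n => f (n + 1)) = M f
  junk : ∀ f : ℕ → ℝ, ¬ Bdd f → M f = 0

/-- complex extension of a mean -/
noncomputable def mc (M : (ℕ → ℝ) → ℝ) (f : ℕ → ℂ) : ℂ :=
  (M (fun n => (f n).re) : ℂ) + (M (fun n => (f n).im) : ℂ) * Complex.I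

/-- ergodic means: long averages of a bounded sequence are `L²(M)`-close to the constant `M f` -/
structure IsErg (M : (ℕ → ℝ) → ℝ) : Prop where
  mean : IsMean M
  erg : ∀ f : ℕ → ℝ, Bdd f → Tendsto
    (fun H : ℕ => M (fun n => ((H : ℝ)⁻¹ * ∑ k ∈ Finset.range H, f (n + k) - M f) ^ 2)) atTop (𝓝 0)

open scoped Classical in
/-- positive upper Banach density -/
def PosBD (A : Set ℕ) : Prop := ∃ δ : ℝ, 0 < δ ∧ ∀ N : ℕ, ∃ a L : ℕ, N ≤ L ∧ 1 ≤ L ∧
  δ * L ≤ (((Finset.range L).filter fun h => a + h ∈ A).card : ℝ)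

open scoped Classical in
/-- indicator sequence of a set -/
noncomputable def ind (A : Set ℕ) : ℕ → ℝ := fun n => if n ∈ A then 1 else 0

/-- a family of subsets of `ℕ` closed under the operations used in the argument (the open sets of
a topology on `ℕ` for which shift and characters are continuous), all of whose non-empty members
have positive upper Banach density -/
structure OpenFam (t : Set (Set ℕ)) : Prop where
  univ : Set.univ ∈ t
  inter : ∀ A B : Set ℕ, A ∈ t → B ∈ t → A ∩ B ∈ t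
  shift : ∀ A : Set ℕ, A ∈ t → {n | n + 1 ∈ A} ∈ t
  char : ∀ (z : Circle) (c : ℂ) (ε : ℝ), {n : ℕ | ‖(z : ℂ) ^ n - c‖ < ε} ∈ t
  pos : ∀ A : Set ℕ, A ∈ t → A.Nonempty → PosBD A

/-- reiterative recurrence of the point `x` -/
def RR {X : Type*} [TopologicalSpace X] (T : X → X) (x : X) : Prop :=
  ∀ G : Set X, IsOpen G → x ∈ G → PosBD {n : ℕ | T^[n] x ∈ G}

/-- the open sets of the topology on `ℕ` induced by `n ↦ (T^n x, (z^n)_z)` -/
def orbFam {X : Type*} [TopologicalSpace X] (T : X → X) (x : X) : Set (Set ℕ) :=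
  {A | ∀ n ∈ A, ∃ G : Set X, IsOpen G ∧ T^[n] x ∈ G ∧ ∃ (Θ : Finset Circle) (ε : ℝ), 0 < ε ∧
    ∀ m : ℕ, T^[m] x ∈ G → (∀ z ∈ Θ, ‖(z : ℂ) ^ m - (z : ℂ) ^ n‖ < ε) → m ∈ A}

end Pool.Agent.TH270.Rec
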