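import Pool.Agent.TH270.Rec.Defs

set_option autoImplicit false

/-! Existence of extreme (ergodic) invariant means on bounded sequences (job 247, helper829). -/

namespace Pool.Agent.TH270.Rec

open Filter Topology Set

namespace ErgMean

/-! ### Bounded sequences -/

theorem bdd_of {f : ℕ → ℝ} {C : ℝ} (h : ∀ n, |f n| ≤ C) : Bdd f := ⟨C, h⟩

theorem bdd_add {f g : ℕ → ℝ} (hf : Bdd f) (hg : Bdd g) : Bdd (f + g) := by
  obtain ⟨C, hC⟩ := hf
  obtain ⟨D, hD⟩ := hg
  exact ⟨C + D, fun n => (abs_add_le _ _).trans (add_le_add (hC n) (hD n))⟩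

theorem bdd_smul (c : ℝ) {f : ℕ → ℝ} (hf : Bdd f) : Bdd (c • f) := by
  obtain ⟨C, hC⟩ := hf
  refine ⟨|c| * C, fun n => ?_⟩
  simp only [Pi.smul_apply, smul_eq_mul, abs_mul]
  exact mul_le_mul_of_nonneg_left (hC n) (abs_nonneg c)

theorem bdd_const (c : ℝ) : Bdd (fun _ => c) := ⟨|c|, fun _ => le_rfl⟩

theorem bdd_mul {f g : ℕ → ℝ} (hf : Bdd f) (hg : Bdd g) : Bdd (fun n => f n * g n) := by
  obtain ⟨C, hC⟩ := hf
  obtain ⟨D, hD⟩ := hg
  refine ⟨C * D, fun n => ?_⟩
  rw [abs_mul]
  exact mul_le_mul (hC n) (hD n) (abs_nonneg _) ((abs_nonneg _).trans (hC n))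

theorem bdd_shift {f : ℕ → ℝ} (hf : Bdd f) (k : ℕ) : Bdd (fun n => f (n + k)) := by
  obtain ⟨C, hC⟩ := hf
  exact ⟨C, fun n => hC _⟩

theorem bdd_sum {ι : Type*} (s : Finset ι) {g : ι → ℕ → ℝ} (hg : ∀ i ∈ s, Bdd (g i)) :
    Bdd (fun n => ∑ i ∈ s, g i n) := by
  classical
  induction s using Finset.induction_on with
  | empty => exact ⟨0, fun n => by simp⟩
  | insert a s ha ih =>
    have h1 := bdd_add (hg a (Finset.mem_insert_self a s))
      (ih (fun i hi => hg i (Finset.mem_insert_of_mem hi)))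
    have : (fun n => ∑ i ∈ insert a s, g i n) = g a + fun n => ∑ i ∈ s, g i n := by
      funext n
      rw [Finset.sum_insert ha]
      rfl
    rw [this]
    exact h1

/-- ergodic average -/
noncomputable def av (H : ℕ) (f : ℕ → ℝ) (n : ℕ) : ℝ := (H : ℝ)⁻¹ * ∑ k ∈ Finset.range H, f (n + k)

theorem bdd_av {f : ℕ → ℝ} (hf : Bdd f) (H : ℕ) : Bdd (av H f) := by
  have h := bdd_smul ((H : ℝ)⁻¹) (bdd_sum (Finset.range H) (g := fun k n => f (n + k))
    (fun i _ => bdd_shift hf i))
  exact h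

/-! ### Means -/

variable {M : (ℕ → ℝ) → ℝ}

theorem mean_const (hM : IsMean M) (c : ℝ) : M (fun _ => c) = c := by
  have h := hM.smul c (fun _ => 1) (bdd_const 1)
  rw [hM.one, mul_one] at h
  have h2 : (fun _ : ℕ => c) = c • (fun _ => (1 : ℝ)) := by
    funext n
    simp
  rw [h2, h]

theorem mean_zero (hM : IsMean M) : M (fun _ => 0) = 0 := mean_const hM 0

theorem mean_sub (hM : IsMean M) {f g : ℕ → ℝ} (hf : Bdd f) (hg : Bdd g) :
    M (fun n => f n - g n) = M f - M g := by
  have h1 := hM.add f ((-1 : ℝ) • g) hf (bdd_smul _ hg)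
  rw [hM.smul (-1) g hg] at h1
  have : (fun n => f n - g n) = f + (-1 : ℝ) • g := by
    funext n
    simp [sub_eq_add_neg]
  rw [this, h1]
  ring

theorem mean_mono (hM : IsMean M) {f g : ℕ → ℝ} (hf : Bdd f) (hg : Bdd g)
    (h : ∀ n, f n ≤ g n) : M f ≤ M g := by
  have h1 := hM.nonneg (fun n => g n - f n) (by
    have := bdd_add hg (bdd_smul (-1) hf)
    have h2 : (fun n => g n - f n) = g + (-1 : ℝ) • f := by
      funext n
      simp [sub_eq_add_neg]
    rw [h2]
    exact this) (fun n => sub_nonneg.2 (h n))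
  rw [mean_sub hM hg hf] at h1
  linarith

theorem mean_abs (hM : IsMean M) {f : ℕ → ℝ} {C : ℝ} (h : ∀ n, |f n| ≤ C) : |M f| ≤ C := by
  have hf : Bdd f := ⟨C, h⟩
  rw [abs_le]
  constructor
  · have := mean_mono hM (bdd_const (-C)) hf (fun n => (abs_le.1 (h n)).1)
    rwa [mean_const hM] at this
  · have := mean_mono hM hf (bdd_const C) (fun n => (abs_le.1 (h n)).2)
    rwa [mean_const hM] at this

theorem mean_shift (hM : IsMean M) {f : ℕ → ℝ} (hf : Bdd f) (k : ℕ) :
    M (fun n => f (n + k)) = M f := by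
  induction k with
  | zero => rfl
  | succ k ih =>
    have h := hM.shift (fun n => f (n + k)) (bdd_shift hf k)
    rw [← ih, ← h]
    congr 1
    funext n
    congr 1
    ring

theorem mean_sum (hM : IsMean M) {ι : Type*} (s : Finset ι) {g : ι → ℕ → ℝ}
    (hg : ∀ i ∈ s, Bdd (g i)) : M (fun n => ∑ i ∈ s, g i n) = ∑ i ∈ s, M (g i) := by
  classical
  induction s using Finset.induction_on with
  | empty => simpa using mean_zero hM
  | insert a s ha ih =>
    have h1 := hM.add (g a) (fun n => ∑ i ∈ s, g i n) (hg a (Finset.mem_insert_self a s))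
      (bdd_sum s (fun i hi => hg i (Finset.mem_insert_of_mem hi)))
    have h2 : (fun n => ∑ i ∈ insert a s, g i n) = g a + fun n => ∑ i ∈ s, g i n := by
      funext n
      rw [Finset.sum_insert ha]
      rfl
    rw [h2, h1, Finset.sum_insert ha, ih (fun i hi => hg i (Finset.mem_insert_of_mem hi))]

theorem mean_av (hM : IsMean M) {f : ℕ → ℝ} (hf : Bdd f) {H : ℕ} (hH : 1 ≤ H) :
    M (av H f) = M f := by
  have h := hM.smul ((H : ℝ)⁻¹) (fun n => ∑ k ∈ Finset.range H, f (n + k))
    (bdd_sum _ (fun i _ => bdd_shift hf i))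
  have h1 : av H f = (H : ℝ)⁻¹ • fun n => ∑ k ∈ Finset.range H, f (n + k) := rfl
  rw [h1, h, mean_sum hM _ (fun i _ => bdd_shift hf i)]
  have h2 : ∀ i ∈ Finset.range H, M (fun n => f (n + i)) = M f := fun i _ => mean_shift hM hf i
  rw [Finset.sum_congr rfl h2, Finset.sum_const, Finset.card_range, nsmul_eq_mul]
  have h3 : (H : ℝ) ≠ 0 := by
    have : (0 : ℝ) < H := by exact_mod_cast hH
    exact this.ne'
  field_simp

/-! ### Limits along ultrafilters -/

theorem exists_ulim {ι : Type*} (U : Ultrafilter ι) (u : ι → ℝ) (C : ℝ) (h : ∀ i, |u i| ≤ C) :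
    ∃ l, Tendsto u U (𝓝 l) := by
  have h1 : (U.map u : Filter ℝ) ≤ 𝓟 (Icc (-C) C) := by
    rw [le_principal_iff]
    exact (Filter.Eventually.of_forall (fun i => abs_le.1 (h i)) :
      ∀ᶠ i in (U : Filter ι), u i ∈ Icc (-C) C)
  obtain ⟨l, _, hl⟩ := isCompact_Icc.ultrafilter_le_nhds (U.map u) h1
  exact ⟨l, hl⟩

open scoped Classical in
/-- limit along an ultrafilter -/
noncomputable def ulim {ι : Type*} (U : Ultrafilter ι) (u : ι → ℝ) : ℝ :=
  if h : ∃ l, Tendsto u U (𝓝 l) then h.choose else 0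

theorem ulim_spec {ι : Type*} (U : Ultrafilter ι) {u : ι → ℝ} {C : ℝ} (h : ∀ i, |u i| ≤ C) :
    Tendsto u U (𝓝 (ulim U u)) := by
  have h1 := exists_ulim U u C h
  unfold ulim
  rw [dif_pos h1]
  exact h1.choose_spec

theorem ulim_eq {ι : Type*} (U : Ultrafilter ι) {u : ι → ℝ} {l : ℝ} (h : Tendsto u U (𝓝 l)) :
    ulim U u = l := by
  have h1 : ∃ l, Tendsto u U (𝓝 l) := ⟨l, h⟩
  unfold ulim
  rw [dif_pos h1]
  exact tendsto_nhds_unique h1.choose_spec h

/-! ### A mean which is positive on `A` -/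

theorem abs_wind_le {f : ℕ → ℝ} {C : ℝ} (hC : ∀ n, |f n| ≤ C) (a L : ℕ) :
    |(L : ℝ)⁻¹ * ∑ h ∈ Finset.range L, f (a + h)| ≤ C := by
  have hC0 : 0 ≤ C := (abs_nonneg _).trans (hC 0)
  rw [abs_mul, abs_inv, Nat.abs_cast]
  have h1 : |∑ h ∈ Finset.range L, f (a + h)| ≤ L * C := by
    calc |∑ h ∈ Finset.range L, f (a + h)| ≤ ∑ h ∈ Finset.range L, |f (a + h)| :=
          Finset.abs_sum_le_sum_abs _ _
      _ ≤ ∑ _h ∈ Finset.range L, C := Finset.sum_le_sum (fun i _ => hC _)
      _ = L * C := by rw [Finset.sum_const, Finset.card_range, nsmul_eq_mul]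
  rcases Nat.eq_zero_or_pos L with h0 | h0
  · subst h0
    simpa using hC0
  · have h2 : (0 : ℝ) < L := by exact_mod_cast h0
    calc (L : ℝ)⁻¹ * |∑ h ∈ Finset.range L, f (a + h)| ≤ (L : ℝ)⁻¹ * (L * C) :=
          mul_le_mul_of_nonneg_left h1 (inv_nonneg.2 h2.le)
      _ = C := by field_simp

theorem exists_mean (A : Set ℕ) (hA : PosBD A) : ∃ M : (ℕ → ℝ) → ℝ, IsMean M ∧ 0 < M (ind A) := by
  classical
  obtain ⟨δ, hδ, hw⟩ := hA
  choose a L hL hL1 hcard using hw
  set U : Ultrafilter ℕ := hyperfilter ℕ with hU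
  have hUat : (U : Filter ℕ) ≤ atTop := by
    rw [← Nat.cofinite_eq_atTop]
    exact hyperfilter_le_cofinite
  let w : (ℕ → ℝ) → ℕ → ℝ := fun f j => (L j : ℝ)⁻¹ * ∑ h ∈ Finset.range (L j), f (a j + h)
  have hLpos : ∀ j, (0 : ℝ) < L j := fun j => by exact_mod_cast hL1 j
  have hLt : Tendsto (fun j => (L j : ℝ)⁻¹) atTop (𝓝 0) := by
    apply tendsto_inv_atTop_zero.comp
    apply tendsto_natCast_atTop_atTop.comp
    exact tendsto_atTop_mono hL tendsto_id
  have hspec : ∀ f, Bdd f → Tendsto (w f) U (𝓝 (ulim U (w f))) := by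
    intro f hf
    obtain ⟨C, hC⟩ := hf
    exact ulim_spec U (C := C) (fun j => abs_wind_le hC _ _)
  let M : (ℕ → ℝ) → ℝ := fun f => if Bdd f then ulim U (w f) else 0
  have hMb : ∀ f, Bdd f → M f = ulim U (w f) := fun f hf => if_pos hf
  refine ⟨M, ⟨?_, ?_, ?_, ?_, ?_, ?_⟩, ?_⟩
  · intro f g hf hg
    rw [hMb _ (bdd_add hf hg), hMb _ hf, hMb _ hg]
    apply ulim_eq
    have h := (hspec f hf).add (hspec g hg)
    refine h.congr (fun j => ?_)
    simp only [w, Pi.add_apply, Finset.sum_add_distrib]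
    ring
  · intro c f hf
    rw [hMb _ (bdd_smul c hf), hMb _ hf]
    apply ulim_eq
    have h := (hspec f hf).const_mul c
    refine h.congr (fun j => ?_)
    simp only [w, Pi.smul_apply, smul_eq_mul, ← Finset.mul_sum]
    ring
  · intro f hf h0
    rw [hMb _ hf]
    refine ge_of_tendsto' (hspec f hf) (fun j => ?_)
    exact mul_nonneg (inv_nonneg.2 (hLpos j).le) (Finset.sum_nonneg (fun i _ => h0 _))
  · rw [hMb _ (bdd_const 1)]
    apply ulim_eq
    refine tendsto_const_nhds.congr (fun j => ?_)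
    simp only [w, Finset.sum_const, Finset.card_range, nsmul_eq_mul, mul_one]
    exact (inv_mul_cancel₀ (hLpos j).ne').symm
  · intro f hf
    obtain ⟨C, hC⟩ := id hf
    rw [hMb _ (bdd_shift hf 1), hMb _ hf]
    apply ulim_eq
    have h0 : Tendsto (fun j => (L j : ℝ)⁻¹ * (f (a j + L j) - f (a j))) U (𝓝 0) := by
      have h1 : Tendsto (fun j => (L j : ℝ)⁻¹ * (2 * C)) U (𝓝 0) := by
        have := (hLt.mono_left hUat).mul_const (2 * C)
        simpa using this
      refine squeeze_zero_norm (fun j => ?_) h1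
      rw [Real.norm_eq_abs, abs_mul, abs_inv, Nat.abs_cast]
      apply mul_le_mul_of_nonneg_left _ (inv_nonneg.2 (hLpos j).le)
      calc |f (a j + L j) - f (a j)| ≤ |f (a j + L j)| + |f (a j)| := abs_sub _ _
        _ ≤ C + C := add_le_add (hC _) (hC _)
        _ = 2 * C := by ring
    have h := (hspec f hf).add h0
    rw [add_zero] at h
    refine h.congr (fun j => ?_)
    simp only [w]
    have hs : ∑ h ∈ Finset.range (L j), f (a j + h + 1)
        = ∑ h ∈ Finset.range (L j), f (a j + h) + (f (a j + L j) - f (a j)) := by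
      have e1 := Finset.sum_range_succ (fun h => f (a j + h)) (L j)
      have e2 := Finset.sum_range_succ' (fun h => f (a j + h)) (L j)
      rw [e1] at e2
      simp only [add_zero] at e2
      have e3 : ∑ h ∈ Finset.range (L j), f (a j + h + 1)
          = ∑ h ∈ Finset.range (L j), f (a j + (h + 1)) := by
        apply Finset.sum_congr rfl
        intro i _
        rw [add_assoc]
      rw [e3]
      linarith
    rw [hs]
    ring
  · intro f hf
    exact if_neg hf
  · have hb : Bdd (ind A) := ⟨1, fun n => by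
      unfold ind
      split_ifs <;> simp⟩
    rw [hMb _ hb]
    refine lt_of_lt_of_le hδ (ge_of_tendsto' (hspec _ hb) (fun j => ?_))
    have h1 : ∑ h ∈ Finset.range (L j), ind A (a j + h)
        = (((Finset.range (L j)).filter fun h => a j + h ∈ A).card : ℝ) := by
      unfold ind
      rw [Finset.sum_boole]
    have h2 := hcard j
    show δ ≤ (L j : ℝ)⁻¹ * ∑ h ∈ Finset.range (L j), ind A (a j + h)
    rw [h1]
    have h3 : (L j : ℝ)⁻¹ * (δ * L j) ≤ (L j : ℝ)⁻¹ *
        (((Finset.range (L j)).filter fun h => a j + h ∈ A).card : ℝ) := by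
      apply mul_le_mul_of_nonneg_left _ (inv_nonneg.2 (hLpos j).le)
      convert h2 using 3
    calc δ = (L j : ℝ)⁻¹ * (δ * L j) := by
          field_simp [(hLpos j).ne']
      _ ≤ _ := h3


/-! ### Compactness, convexity, Krein-Milman -/

theorem convex_means : Convex ℝ {M : (ℕ → ℝ) → ℝ | IsMean M} := by
  intro M hM N hN a b ha hb hab
  refine ⟨?_, ?_, ?_, ?_, ?_, ?_⟩
  · intro f g hf hg
    simp only [Pi.add_apply, Pi.smul_apply, smul_eq_mul, hM.add f g hf hg, hN.add f g hf hg]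
    ring
  · intro c f hf
    simp only [Pi.add_apply, Pi.smul_apply, smul_eq_mul, hM.smul c f hf, hN.smul c f hf]
    ring
  · intro f hf h0
    simp only [Pi.add_apply, Pi.smul_apply, smul_eq_mul]
    exact add_nonneg (mul_nonneg ha (hM.nonneg f hf h0)) (mul_nonneg hb (hN.nonneg f hf h0))
  · simp only [Pi.add_apply, Pi.smul_apply, smul_eq_mul, hM.one, hN.one]
    linarith
  · intro f hf
    simp only [Pi.add_apply, Pi.smul_apply, smul_eq_mul, hM.shift f hf, hN.shift f hf]
  · intro f hf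
    simp only [Pi.add_apply, Pi.smul_apply, smul_eq_mul, hM.junk f hf, hN.junk f hf]
    ring

theorem isClosed_means : IsClosed {M : (ℕ → ℝ) → ℝ | IsMean M} := by
  have h : {M : (ℕ → ℝ) → ℝ | IsMean M} =
      {M | ∀ f g : ℕ → ℝ, Bdd f → Bdd g → M (f + g) = M f + M g} ∩
      ({M | ∀ (c : ℝ) (f : ℕ → ℝ), Bdd f → M (c • f) = c * M f} ∩
      ({M | ∀ f : ℕ → ℝ, Bdd f → (∀ n, 0 ≤ f n) → 0 ≤ M f} ∩
      ({M | M (fun _ => 1) = 1} ∩
      ({M | ∀ f : ℕ → ℝ, Bdd f → M (fun n => f (n + 1)) = M f} ∩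
      {M | ∀ f : ℕ → ℝ, ¬ Bdd f → M f = 0})))) := by
    ext M
    constructor
    · intro h
      exact ⟨h.add, h.smul, h.nonneg, h.one, h.shift, h.junk⟩
    · rintro ⟨h1, h2, h3, h4, h5, h6⟩
      exact ⟨h1, h2, h3, h4, h5, h6⟩
  rw [h]
  refine IsClosed.inter ?_ (IsClosed.inter ?_ (IsClosed.inter ?_ (IsClosed.inter ?_
    (IsClosed.inter ?_ ?_))))
  · simp only [ofPred_forall]
    refine isClosed_iInter fun f => isClosed_iInter fun g => isClosed_iInter fun _ =>
      isClosed_iInter fun _ => ?_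
    exact isClosed_eq (continuous_apply (f + g))
      (Continuous.add (continuous_apply f) (continuous_apply g))
  · simp only [ofPred_forall]
    refine isClosed_iInter fun c => isClosed_iInter fun f => isClosed_iInter fun _ => ?_
    exact isClosed_eq (continuous_apply _) (continuous_const.mul (continuous_apply _))
  · simp only [ofPred_forall]
    refine isClosed_iInter fun f => isClosed_iInter fun _ => isClosed_iInter fun _ => ?_
    exact isClosed_le continuous_const (continuous_apply _)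
  · exact isClosed_eq (continuous_apply _) continuous_const
  · simp only [ofPred_forall]
    refine isClosed_iInter fun f => isClosed_iInter fun _ => ?_
    exact isClosed_eq (continuous_apply _) (continuous_apply _)
  · simp only [ofPred_forall]
    refine isClosed_iInter fun f => isClosed_iInter fun _ => ?_
    exact isClosed_eq (continuous_apply _) continuous_const

open scoped Classical in
/-- a bound -/
noncomputable def bd (f : ℕ → ℝ) : ℝ := if h : Bdd f then h.choose else 0

theorem isCompact_means : IsCompact {M : (ℕ → ℝ) → ℝ | IsMean M} := by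
  have h1 : IsCompact (Set.pi univ fun f : ℕ → ℝ => Icc (-(bd f)) (bd f)) :=
    isCompact_univ_pi fun f => isCompact_Icc
  refine h1.of_isClosed_subset isClosed_means ?_
  intro M hM f _
  show M f ∈ Icc (-(bd f)) (bd f)
  rw [mem_Icc, ← abs_le]
  unfold bd
  split_ifs with h
  · exact mean_abs hM h.choose_spec
  · rw [hM.junk f h]
    simp

theorem exists_extreme (A : Set ℕ) (hA : PosBD A) :
    ∃ M ∈ ({M : (ℕ → ℝ) → ℝ | IsMean M}).extremePoints ℝ, 0 < M (ind A) := by
  by_contra hcon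
  push Not at hcon
  obtain ⟨M, hM, hMA⟩ := exists_mean A hA
  have hKM := closure_convexHull_extremePoints isCompact_means convex_means
  have h1 : M ∈ closure (convexHull ℝ (({M : (ℕ → ℝ) → ℝ | IsMean M}).extremePoints ℝ)) := by
    rw [hKM]
    exact hM
  have h2 : IsClosed {M : (ℕ → ℝ) → ℝ | M (ind A) ≤ 0} :=
    isClosed_le (continuous_apply _) continuous_const
  have h3 : Convex ℝ {M : (ℕ → ℝ) → ℝ | M (ind A) ≤ 0} := by
    intro M hM N hN a b ha hb hab
    show a * M (ind A) + b * N (ind A) ≤ 0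
    have e1 : a * M (ind A) ≤ 0 := mul_nonpos_of_nonneg_of_nonpos ha hM
    have e2 : b * N (ind A) ≤ 0 := mul_nonpos_of_nonneg_of_nonpos hb hN
    linarith
  have h4 : closure (convexHull ℝ (({M : (ℕ → ℝ) → ℝ | IsMean M}).extremePoints ℝ)) ⊆
      {M : (ℕ → ℝ) → ℝ | M (ind A) ≤ 0} :=
    closure_minimal (convexHull_min hcon h3) h2
  exact absurd (h4 h1) (not_le.2 hMA)


/-! ### Extreme means are ergodic -/

theorem av_mem {f : ℕ → ℝ} (h0 : ∀ n, 0 ≤ f n) (h1 : ∀ n, f n ≤ 1) (H n : ℕ) :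
    0 ≤ av H f n ∧ av H f n ≤ 1 := by
  constructor
  · exact mul_nonneg (inv_nonneg.2 (Nat.cast_nonneg H)) (Finset.sum_nonneg (fun i _ => h0 _))
  · have := abs_wind_le (f := f) (C := 1) (fun n => by
      rw [abs_of_nonneg (h0 n)]
      exact h1 n) n H
    exact (le_abs_self _).trans this

theorem av_shift (f : ℕ → ℝ) (H n : ℕ) :
    av H f (n + 1) = av H f n + (H : ℝ)⁻¹ * (f (n + H) - f n) := by
  unfold av
  have e1 := Finset.sum_range_succ (fun h => f (n + h)) H
  have e2 := Finset.sum_range_succ' (fun h => f (n + h)) H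
  rw [e1] at e2
  simp only [add_zero] at e2
  have e3 : ∑ h ∈ Finset.range H, f (n + 1 + h) = ∑ h ∈ Finset.range H, f (n + (h + 1)) := by
    apply Finset.sum_congr rfl
    intro i _
    congr 1
    ring
  rw [e3]
  have e4 : ∑ h ∈ Finset.range H, f (n + (h + 1))
      = ∑ h ∈ Finset.range H, f (n + h) + (f (n + H) - f n) := by linarith
  rw [e4]
  ring

theorem key01 {M : (ℕ → ℝ) → ℝ} (hM : M ∈ ({M : (ℕ → ℝ) → ℝ | IsMean M}).extremePoints ℝ)
    {f : ℕ → ℝ} (h0 : ∀ n, 0 ≤ f n) (h1 : ∀ n, f n ≤ 1) {g : ℕ → ℝ} (hg : Bdd g) :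
    Tendsto (fun H : ℕ => M (fun n => g n * av H f n)) atTop (𝓝 (M g * M f)) := by
  rw [mem_extremePoints] at hM
  obtain ⟨hMm, hext⟩ := hM
  have hMm : IsMean M := hMm
  have hfb : Bdd f := ⟨1, fun n => by
    rw [abs_of_nonneg (h0 n)]
    exact h1 n⟩
  rw [tendsto_iff_ultrafilter]
  intro U hU
  -- bounds
  have hb : ∀ g : ℕ → ℝ, Bdd g → ∃ C, ∀ H : ℕ, |M (fun n => g n * av H f n)| ≤ C := by
    rintro g ⟨C, hC⟩
    refine ⟨C, fun H => mean_abs hMm (fun n => ?_)⟩
    have := av_mem h0 h1 H n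
    rw [abs_mul, abs_of_nonneg this.1]
    calc |g n| * av H f n ≤ |g n| * 1 := mul_le_mul_of_nonneg_left this.2 (abs_nonneg _)
      _ = |g n| := mul_one _
      _ ≤ C := hC n
  classical
  let Lf : (ℕ → ℝ) → ℝ := fun g => if Bdd g then ulim U (fun H => M (fun n => g n * av H f n))
    else 0
  have hspec : ∀ g, Bdd g → Tendsto (fun H => M (fun n => g n * av H f n)) U (𝓝 (Lf g)) := by
    intro g hg
    obtain ⟨C, hC⟩ := hb g hg
    have := ulim_spec U hC
    simp only [Lf, if_pos hg]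
    exact this
  have hLeq : ∀ g, Bdd g → ∀ l, Tendsto (fun H => M (fun n => g n * av H f n)) U (𝓝 l) →
      Lf g = l := fun g hg l hl => tendsto_nhds_unique (hspec g hg) hl
  have hga : ∀ g, Bdd g → ∀ H, Bdd (fun n => g n * av H f n) := fun g hg H =>
    bdd_mul hg (bdd_av hfb H)
  have hLadd : ∀ f g : ℕ → ℝ, Bdd f → Bdd g → Lf (f + g) = Lf f + Lf g := by
    intro u v hu hv
    refine hLeq _ (bdd_add hu hv) _ (((hspec u hu).add (hspec v hv)).congr (fun H => ?_))
    rw [← hMm.add _ _ (hga u hu H) (hga v hv H)]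
    congr 1
    funext n
    simp only [Pi.add_apply]
    ring
  have hLsmul : ∀ (c : ℝ) (f : ℕ → ℝ), Bdd f → Lf (c • f) = c * Lf f := by
    intro c u hu
    refine hLeq _ (bdd_smul c hu) _ (((hspec u hu).const_mul c).congr (fun H => ?_))
    rw [← hMm.smul _ _ (hga u hu H)]
    congr 1
    funext n
    simp only [Pi.smul_apply, smul_eq_mul]
    ring
  have hLnonneg : ∀ f : ℕ → ℝ, Bdd f → (∀ n, 0 ≤ f n) → 0 ≤ Lf f := by
    intro u hu hu0
    refine ge_of_tendsto' (hspec u hu) (fun H => ?_)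
    exact hMm.nonneg _ (hga u hu H) (fun n => mul_nonneg (hu0 n) (av_mem h0 h1 H n).1)
  have hLle : ∀ f : ℕ → ℝ, Bdd f → (∀ n, 0 ≤ f n) → Lf f ≤ M f := by
    intro u hu hu0
    refine le_of_tendsto' (hspec u hu) (fun H => ?_)
    refine mean_mono hMm (hga u hu H) hu (fun n => ?_)
    calc u n * av H f n ≤ u n * 1 := mul_le_mul_of_nonneg_left (av_mem h0 h1 H n).2 (hu0 n)
      _ = u n := mul_one _
  have hLone : Lf (fun _ => 1) = M f := by
    refine hLeq _ (bdd_const 1) _ (tendsto_const_nhds.congr' ?_)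
    have : ∀ᶠ H : ℕ in (U : Filter ℕ), 1 ≤ H := hU (eventually_ge_atTop 1)
    filter_upwards [this] with H hH
    simp only [one_mul]
    exact (mean_av hMm hfb hH).symm
  have hLshift : ∀ f : ℕ → ℝ, Bdd f → Lf (fun n => f (n + 1)) = Lf f := by
    intro u hu
    obtain ⟨C, hC⟩ := id hu
    have hz : Tendsto (fun H : ℕ => M (fun n => u (n + 1) * ((H : ℝ)⁻¹ * (f (n + H) - f n)))) U
        (𝓝 0) := by
      have h2 : Tendsto (fun H : ℕ => C * (H : ℝ)⁻¹) U (𝓝 0) := by
        have := (tendsto_inv_atTop_nhds_zero_nat (𝕜 := ℝ)).const_mul C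
        rw [mul_zero] at this
        exact this.mono_left hU
      refine squeeze_zero_norm (fun H => ?_) h2
      rw [Real.norm_eq_abs]
      refine mean_abs hMm (fun n => ?_)
      rw [abs_mul, abs_mul, abs_inv, Nat.abs_cast]
      have h3 : |f (n + H) - f n| ≤ 1 := by
        rw [abs_le]
        have := h0 n
        have := h1 n
        have := h0 (n + H)
        have := h1 (n + H)
        constructor <;> linarith
      have h4 : (H : ℝ)⁻¹ * |f (n + H) - f n| ≤ (H : ℝ)⁻¹ := by
        calc (H : ℝ)⁻¹ * |f (n + H) - f n| ≤ (H : ℝ)⁻¹ * 1 :=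
              mul_le_mul_of_nonneg_left h3 (inv_nonneg.2 (Nat.cast_nonneg H))
          _ = _ := mul_one _
      exact mul_le_mul (hC _) h4 (mul_nonneg (inv_nonneg.2 (Nat.cast_nonneg H)) (abs_nonneg _))
        ((abs_nonneg _).trans (hC 0))
    have h5 := (hspec u hu).sub hz
    rw [sub_zero] at h5
    refine hLeq _ (bdd_shift hu 1) _ (h5.congr (fun H => ?_))
    have e1 : M (fun n => u n * av H f n) = M (fun n => u (n + 1) * av H f (n + 1)) :=
      (hMm.shift _ (hga u hu H)).symm
    have hbd : Bdd (fun n => f (n + H) - f n) := by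
      obtain ⟨D, hD⟩ := id hfb
      exact ⟨D + D, fun n => (abs_sub _ _).trans (add_le_add (hD _) (hD _))⟩
    have hbd2 : Bdd (fun n => u (n + 1) * ((H : ℝ)⁻¹ * (f (n + H) - f n))) :=
      bdd_mul (bdd_shift hu 1) (bdd_smul (H : ℝ)⁻¹ hbd)
    rw [e1, ← mean_sub hMm (bdd_mul (bdd_shift hu 1) (bdd_shift (bdd_av hfb H) 1)) hbd2]
    congr 1
    funext n
    rw [av_shift]
    ring
  have hLjunk : ∀ f : ℕ → ℝ, ¬ Bdd f → Lf f = 0 := fun u hu => if_neg hu
  set a := M f with ha
  have ha0 : 0 ≤ a := hMm.nonneg f hfb h0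
  have ha1 : a ≤ 1 := by
    have := mean_mono hMm hfb (bdd_const 1) h1
    rwa [hMm.one] at this
  have habs : ∀ {u : ℕ → ℝ} {C : ℝ}, (∀ n, |u n| ≤ C) → |Lf u| ≤ C * a := by
    intro u C hC
    have hu : Bdd u := ⟨C, hC⟩
    have hsub : ∀ v : ℕ → ℝ, Bdd v → (∀ n, 0 ≤ v n) → 0 ≤ Lf v := hLnonneg
    have e1 : Lf (u + C • (fun _ => 1)) = Lf u + C * a := by
      rw [hLadd _ _ hu (bdd_smul C (bdd_const 1)), hLsmul _ _ (bdd_const 1), hLone]
    have e2 : Lf ((-1 : ℝ) • u + C • (fun _ => 1)) = - Lf u + C * a := by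
      rw [hLadd _ _ (bdd_smul _ hu) (bdd_smul C (bdd_const 1)), hLsmul _ _ (bdd_const 1), hLone,
        hLsmul _ _ hu]
      ring
    have p1 := hLnonneg (u + C • (fun _ => 1)) (bdd_add hu (bdd_smul C (bdd_const 1)))
      (fun n => by
        simp only [Pi.add_apply, Pi.smul_apply, smul_eq_mul, mul_one]
        linarith [(abs_le.1 (hC n)).1])
    have p2 := hLnonneg ((-1 : ℝ) • u + C • (fun _ => 1))
      (bdd_add (bdd_smul _ hu) (bdd_smul C (bdd_const 1)))
      (fun n => by
        simp only [Pi.add_apply, Pi.smul_apply, smul_eq_mul, mul_one]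
        linarith [(abs_le.1 (hC n)).2])
    rw [abs_le]
    constructor <;> linarith
  suffices hfin : Lf g = M g * a by
    rw [← hfin]
    exact hspec g hg
  obtain ⟨C, hC⟩ := id hg
  rcases eq_or_lt_of_le ha0 with haz | hapos
  · have := habs hC
    rw [← haz, mul_zero] at this
    rw [← haz, mul_zero]
    exact abs_nonpos_iff.1 this
  rcases eq_or_lt_of_le ha1 with hao | halt
  · -- a = 1 : L = M
    have hle : ∀ u : ℕ → ℝ, Bdd u → (∀ n, 0 ≤ u n) → Lf u = M u := by
      intro u hu hu0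
      obtain ⟨D, hD⟩ := id hu
      have hD0 : 0 ≤ D := (abs_nonneg _).trans (hD 0)
      -- D - u ≥ 0
      have p1 := hLle ((-1 : ℝ) • u + D • (fun _ => 1))
        (bdd_add (bdd_smul _ hu) (bdd_smul D (bdd_const 1)))
        (fun n => by
          simp only [Pi.add_apply, Pi.smul_apply, smul_eq_mul, mul_one]
          linarith [(abs_le.1 (hD n)).2])
      rw [hLadd _ _ (bdd_smul _ hu) (bdd_smul D (bdd_const 1)), hLsmul _ _ (bdd_const 1), hLone,
        hLsmul _ _ hu, hMm.add _ _ (bdd_smul _ hu) (bdd_smul D (bdd_const 1)),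
        hMm.smul _ _ (bdd_const 1), hMm.smul _ _ hu, hMm.one, hao] at p1
      have p2 := hLle u hu hu0
      linarith
    have e1 := hle (g + C • (fun _ => 1)) (bdd_add hg (bdd_smul C (bdd_const 1)))
      (fun n => by
        simp only [Pi.add_apply, Pi.smul_apply, smul_eq_mul, mul_one]
        linarith [(abs_le.1 (hC n)).1])
    rw [hLadd _ _ hg (bdd_smul C (bdd_const 1)), hLsmul _ _ (bdd_const 1), hLone,
      hMm.add _ _ hg (bdd_smul C (bdd_const 1)), hMm.smul _ _ (bdd_const 1), hMm.one, hao] at e1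
    rw [hao, mul_one]
    linarith
  · -- 0 < a < 1
    have h1a : 0 < 1 - a := by linarith
    let N1 : (ℕ → ℝ) → ℝ := fun u => a⁻¹ * Lf u
    let N2 : (ℕ → ℝ) → ℝ := fun u => (1 - a)⁻¹ * (M u - Lf u)
    have hN1 : IsMean N1 := by
      refine ⟨?_, ?_, ?_, ?_, ?_, ?_⟩
      · intro u v hu hv
        simp only [N1, hLadd u v hu hv]
        ring
      · intro c u hu
        simp only [N1, hLsmul c u hu]
        ring
      · intro u hu hu0
        exact mul_nonneg (inv_nonneg.2 ha0) (hLnonneg u hu hu0)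
      · simp only [N1, hLone]
        exact inv_mul_cancel₀ hapos.ne'
      · intro u hu
        simp only [N1, hLshift u hu]
      · intro u hu
        simp only [N1, hLjunk u hu, mul_zero]
    have hN2 : IsMean N2 := by
      refine ⟨?_, ?_, ?_, ?_, ?_, ?_⟩
      · intro u v hu hv
        simp only [N2, hLadd u v hu hv, hMm.add u v hu hv]
        ring
      · intro c u hu
        simp only [N2, hLsmul c u hu, hMm.smul c u hu]
        ring
      · intro u hu hu0
        exact mul_nonneg (inv_nonneg.2 h1a.le) (sub_nonneg.2 (hLle u hu hu0))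
      · simp only [N2, hLone, hMm.one]
        exact inv_mul_cancel₀ h1a.ne'
      · intro u hu
        simp only [N2, hLshift u hu, hMm.shift u hu]
      · intro u hu
        simp only [N2, hLjunk u hu, hMm.junk u hu, sub_self, mul_zero]
    have hseg : M ∈ openSegment ℝ N1 N2 := by
      refine ⟨a, 1 - a, hapos, h1a, by ring, ?_⟩
      funext u
      simp only [N1, N2, Pi.add_apply, Pi.smul_apply, smul_eq_mul]
      rw [← mul_assoc, mul_inv_cancel₀ hapos.ne', ← mul_assoc, mul_inv_cancel₀ h1a.ne']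
      ring
    have h7 := (hext N1 hN1 N2 hN2 hseg).1
    have h8 : a⁻¹ * Lf g = M g := congrFun h7 g
    rw [← h8]
    field_simp

theorem key {M : (ℕ → ℝ) → ℝ} (hM : M ∈ ({M : (ℕ → ℝ) → ℝ | IsMean M}).extremePoints ℝ)
    {f : ℕ → ℝ} (hf : Bdd f) {g : ℕ → ℝ} (hg : Bdd g) :
    Tendsto (fun H : ℕ => M (fun n => g n * av H f n)) atTop (𝓝 (M g * M f)) := by
  have hMm : IsMean M := hM.1
  obtain ⟨C', hC'⟩ := id hf
  set C : ℝ := |C'| + 1 with hCdef
  have hCpos : 0 < C := by positivity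
  have hC : ∀ n, |f n| ≤ C := fun n => (hC' n).trans ((le_abs_self _).trans (by linarith))
  set p : ℕ → ℝ := fun n => (f n + C) / (2 * C) with hp
  have hp0 : ∀ n, 0 ≤ p n := fun n => by
    apply div_nonneg _ (by positivity)
    linarith [(abs_le.1 (hC n)).1]
  have hp1 : ∀ n, p n ≤ 1 := fun n => by
    rw [hp]
    simp only
    rw [div_le_one (by positivity)]
    linarith [(abs_le.1 (hC n)).2]
  have hpb : Bdd p := ⟨1, fun n => by
    rw [abs_of_nonneg (hp0 n)]
    exact hp1 n⟩
  have h1 := key01 hM hp0 hp1 hg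
  have hfp : ∀ n, f n = 2 * C * p n - C := fun n => by
    rw [hp]
    field_simp
    ring
  have h2 : Tendsto (fun H : ℕ => 2 * C * M (fun n => g n * av H p n) - C * M g) atTop
      (𝓝 (2 * C * (M g * M p) - C * M g)) := (h1.const_mul (2 * C)).sub_const _
  have h3 : M f = 2 * C * M p - C := by
    have e1 : M f = M (fun n => ((2 * C) • p) n - (fun _ => C) n) := by
      congr 1
      funext n
      simp only [Pi.smul_apply, smul_eq_mul]
      exact hfp n
    rw [e1, mean_sub hMm (bdd_smul _ hpb) (bdd_const C), hMm.smul _ _ hpb, mean_const hMm]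
  have h4 : 2 * C * (M g * M p) - C * M g = M g * M f := by
    rw [h3]
    ring
  rw [h4] at h2
  refine h2.congr' ?_
  filter_upwards [eventually_ge_atTop 1] with H hH
  have hH0 : (H : ℝ) ≠ 0 := by
    have : (0 : ℝ) < H := by exact_mod_cast hH
    exact this.ne'
  have h5 : ∀ n, av H f n = 2 * C * av H p n - C := by
    intro n
    unfold av
    have : ∑ k ∈ Finset.range H, f (n + k)
        = 2 * C * ∑ k ∈ Finset.range H, p (n + k) - H * C := by
      rw [Finset.mul_sum, ← nsmul_eq_mul, ← Finset.card_range H, ← Finset.sum_const,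
        Finset.card_range, ← Finset.sum_sub_distrib]
      exact Finset.sum_congr rfl (fun i _ => hfp _)
    rw [this]
    field_simp
  have hgp : Bdd (fun n => g n * av H p n) := bdd_mul hg (bdd_av hpb H)
  rw [← hMm.smul _ _ hgp, ← hMm.smul _ _ hg, ← mean_sub hMm (bdd_smul _ hgp) (bdd_smul _ hg)]
  congr 1
  funext n
  simp only [Pi.smul_apply, smul_eq_mul, h5]
  ring

/-- the second moment of the sums is controlled by the correlations -/
theorem second_moment {M : (ℕ → ℝ) → ℝ} (hMm : IsMean M) {f : ℕ → ℝ} (hf : Bdd f) (H : ℕ) :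
    M (fun n => (∑ k ∈ Finset.range H, f (n + k)) ^ 2) ≤
      2 * ∑ i ∈ Finset.range H, M (fun n => f n * ∑ k ∈ Finset.range (i + 1), f (n + k)) := by
  have hS : ∀ H : ℕ, Bdd (fun n => ∑ k ∈ Finset.range H, f (n + k)) := fun H =>
    bdd_sum _ (fun i _ => bdd_shift hf i)
  induction H with
  | zero =>
    simp only [Finset.range_zero, Finset.sum_empty, mul_zero]
    have : (fun _ : ℕ => (0 : ℝ) ^ 2) = fun _ => 0 := by
      funext n
      simp
    rw [this, mean_zero hMm]
  | succ H ih =>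
    rw [Finset.sum_range_succ, mul_add]
    have e1 : (fun n => (∑ k ∈ Finset.range (H + 1), f (n + k)) ^ 2)
        = (fun n => ((2 : ℝ) • (fun n => f n * ∑ k ∈ Finset.range (H + 1), f (n + k))) n
          - (fun n => f n * f n) n) + fun n => (fun n => (∑ k ∈ Finset.range H, f (n + k)) *
          (∑ k ∈ Finset.range H, f (n + k))) (n + 1) := by
      funext n
      simp only [Pi.add_apply, Pi.smul_apply, smul_eq_mul]
      rw [Finset.sum_range_succ']
      have e2 : ∑ k ∈ Finset.range H, f (n + (k + 1)) = ∑ k ∈ Finset.range H, f (n + 1 + k) := by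
        apply Finset.sum_congr rfl
        intro i _
        congr 1
        ring
      rw [e2]
      simp only [add_zero]
      ring
    have hb1 : Bdd (fun n => f n * ∑ k ∈ Finset.range (H + 1), f (n + k)) := bdd_mul hf (hS _)
    have hb2 : Bdd (fun n => f n * f n) := bdd_mul hf hf
    have hb3 : Bdd (fun n => (∑ k ∈ Finset.range H, f (n + k)) *
          (∑ k ∈ Finset.range H, f (n + k))) := bdd_mul (hS H) (hS H)
    have hb4 : Bdd (fun n => ((2 : ℝ) • (fun n => f n * ∑ k ∈ Finset.range (H + 1), f (n + k))) n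
          - (fun n => f n * f n) n) := by
      have := bdd_add (bdd_smul 2 hb1) (bdd_smul (-1) hb2)
      have e : (fun n => ((2 : ℝ) • (fun n => f n * ∑ k ∈ Finset.range (H + 1), f (n + k))) n
          - (fun n => f n * f n) n) = (2 : ℝ) • (fun n => f n * ∑ k ∈ Finset.range (H + 1), f (n + k))
          + (-1 : ℝ) • (fun n => f n * f n) := by
        funext n
        simp only [Pi.add_apply, Pi.smul_apply, smul_eq_mul]
        ring
      rw [e]
      exact this
    rw [e1, hMm.add _ _ hb4 (bdd_shift hb3 1), hMm.shift _ hb3,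
      mean_sub hMm (bdd_smul 2 hb1) hb2, hMm.smul _ _ hb1]
    have hnn : 0 ≤ M (fun n => f n * f n) := hMm.nonneg _ hb2 (fun n => mul_self_nonneg _)
    have e3 : (fun n => (∑ k ∈ Finset.range H, f (n + k)) *
          (∑ k ∈ Finset.range H, f (n + k))) = fun n => (∑ k ∈ Finset.range H, f (n + k)) ^ 2 := by
      funext n
      ring
    rw [e3]
    linarith

theorem erg_zero {M : (ℕ → ℝ) → ℝ} (hM : M ∈ ({M : (ℕ → ℝ) → ℝ | IsMean M}).extremePoints ℝ)
    {f : ℕ → ℝ} (hf : Bdd f) (hf0 : M f = 0) :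
    Tendsto (fun H : ℕ => M (fun n => (av H f n) ^ 2)) atTop (𝓝 0) := by
  have hMm : IsMean M := hM.1
  have h1 := key hM hf hf
  rw [hf0, mul_zero] at h1
  have h2 : Tendsto (fun i : ℕ => |M (fun n => f n * av (i + 1) f n)|) atTop (𝓝 0) := by
    have := (h1.comp (tendsto_add_atTop_nat 1)).abs
    simpa using this
  have h3 := h2.cesaro.const_mul 2
  rw [mul_zero] at h3
  refine squeeze_zero' (Filter.Eventually.of_forall (fun H => ?_)) ?_ h3
  · refine hMm.nonneg _ ?_ (fun n => sq_nonneg _)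
    have := bdd_mul (bdd_av hf H) (bdd_av hf H)
    have e : (fun n => (av H f n) ^ 2) = fun n => av H f n * av H f n := by
      funext n
      ring
    rw [e]
    exact this
  filter_upwards [eventually_ge_atTop 1] with H hH
  have hH0 : (0 : ℝ) < H := by exact_mod_cast hH
  have hS : ∀ H : ℕ, Bdd (fun n => ∑ k ∈ Finset.range H, f (n + k)) := fun H =>
    bdd_sum _ (fun i _ => bdd_shift hf i)
  have hS2 : Bdd (fun n => (∑ k ∈ Finset.range H, f (n + k)) ^ 2) := by
    have := bdd_mul (hS H) (hS H)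
    have e : (fun n => (∑ k ∈ Finset.range H, f (n + k)) ^ 2) =
      fun n => (∑ k ∈ Finset.range H, f (n + k)) * (∑ k ∈ Finset.range H, f (n + k)) := by
      funext n
      ring
    rw [e]
    exact this
  have e1 : M (fun n => (av H f n) ^ 2) = ((H : ℝ)⁻¹) ^ 2 *
      M (fun n => (∑ k ∈ Finset.range H, f (n + k)) ^ 2) := by
    rw [← hMm.smul _ _ hS2]
    congr 1
    funext n
    unfold av
    simp only [Pi.smul_apply, smul_eq_mul]
    ring
  rw [e1]
  have h4 := second_moment hMm hf H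
  have h5 : ∀ i ∈ Finset.range H, M (fun n => f n * ∑ k ∈ Finset.range (i + 1), f (n + k)) ≤
      H * |M (fun n => f n * av (i + 1) f n)| := by
    intro i hi
    have hi1 : ((i + 1 : ℕ) : ℝ) ≤ H := by exact_mod_cast Finset.mem_range.1 hi
    have hi0 : (0 : ℝ) < ((i + 1 : ℕ) : ℝ) := by positivity
    have e2 : M (fun n => f n * ∑ k ∈ Finset.range (i + 1), f (n + k))
        = ((i + 1 : ℕ) : ℝ) * M (fun n => f n * av (i + 1) f n) := by
      rw [← hMm.smul _ _ (bdd_mul hf (bdd_av hf _))]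
      congr 1
      funext n
      unfold av
      simp only [Pi.smul_apply, smul_eq_mul]
      field_simp
    rw [e2]
    calc ((i + 1 : ℕ) : ℝ) * M (fun n => f n * av (i + 1) f n)
        ≤ ((i + 1 : ℕ) : ℝ) * |M (fun n => f n * av (i + 1) f n)| :=
          mul_le_mul_of_nonneg_left (le_abs_self _) hi0.le
      _ ≤ H * |M (fun n => f n * av (i + 1) f n)| :=
          mul_le_mul_of_nonneg_right hi1 (abs_nonneg _)
  have h6 := Finset.sum_le_sum h5
  rw [← Finset.mul_sum] at h6
  calc ((H : ℝ)⁻¹) ^ 2 * M (fun n => (∑ k ∈ Finset.range H, f (n + k)) ^ 2)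
      ≤ ((H : ℝ)⁻¹) ^ 2 * (2 * (H * ∑ i ∈ Finset.range H, |M (fun n => f n * av (i + 1) f n)|)) :=
        mul_le_mul_of_nonneg_left (h4.trans (by linarith)) (sq_nonneg _)
    _ = 2 * ((H : ℝ)⁻¹ * ∑ i ∈ Finset.range H, |M (fun n => f n * av (i + 1) f n)|) := by
        field_simp

theorem erg_of_extreme {M : (ℕ → ℝ) → ℝ}
    (hM : M ∈ ({M : (ℕ → ℝ) → ℝ | IsMean M}).extremePoints ℝ) : IsErg M := by
  have hMm : IsMean M := hM.1
  refine ⟨hMm, fun f hf => ?_⟩
  set p : ℕ → ℝ := fun n => f n - (fun _ => M f) n with hp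
  have hpb : Bdd p := by
    have := bdd_add hf (bdd_smul (-1) (bdd_const (M f)))
    have e : p = f + (-1 : ℝ) • (fun _ => M f) := by
      funext n
      simp [hp, sub_eq_add_neg]
    rw [e]
    exact this
  have hp0 : M p = 0 := by
    rw [hp, mean_sub hMm hf (bdd_const _), mean_const hMm, sub_self]
  refine (erg_zero hM hpb hp0).congr' ?_
  filter_upwards [eventually_ge_atTop 1] with H hH
  have hH0 : (0 : ℝ) < H := by exact_mod_cast hH
  congr 1
  funext n
  congr 1
  unfold av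
  have : ∑ k ∈ Finset.range H, p (n + k) = ∑ k ∈ Finset.range H, f (n + k) - H * M f := by
    simp only [hp, Finset.sum_sub_distrib, Finset.sum_const, Finset.card_range, nsmul_eq_mul]
  rw [this, mul_sub, ← mul_assoc, inv_mul_cancel₀ hH0.ne', one_mul]

end ErgMean

open ErgMean

theorem exists_erg (A : Set ℕ) (hA : PosBD A) : ∃ M : (ℕ → ℝ) → ℝ, IsErg M ∧ 0 < M (ind A) := by
  obtain ⟨M, hM, hMA⟩ := exists_extreme A hA
  exact ⟨M, erg_of_extreme hM, hMA⟩

theorem IsMean.posBD {M : (ℕ → ℝ) → ℝ} (hM : IsMean M) {A : Set ℕ} (hA : 0 < M (ind A)) :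
    PosBD A := by
  classical
  have hb : Bdd (ind A) := ⟨1, fun n => by
      unfold ind
      split_ifs <;> simp⟩
  refine ⟨M (ind A) / 2, by linarith, fun N => ?_⟩
  by_contra hcon
  push Not at hcon
  have h1 : ∀ n, av (N + 1) (ind A) n ≤ M (ind A) / 2 := by
    intro n
    have h2 := hcon n (N + 1) (by omega) (by omega)
    have h3 : ∑ h ∈ Finset.range (N + 1), ind A (n + h)
        = (((Finset.range (N + 1)).filter fun h => n + h ∈ A).card : ℝ) := by
      unfold ind
      rw [Finset.sum_boole]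
    unfold av
    rw [h3]
    have h4 : (0 : ℝ) < ((N + 1 : ℕ) : ℝ) := by positivity
    rw [inv_mul_le_iff₀ h4]
    have h5 := h2.le
    rw [mul_comm] at h5
    convert h5 using 3
  have h6 := mean_mono hM (bdd_av hb (N + 1)) (bdd_const (M (ind A) / 2)) h1
  rw [mean_av hM hb (by omega), mean_const hM] at h6
  linarith

end Pool.Agent.TH270.Rec
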