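import Pool.Agent.TH270.Rec.Fourier

set_option autoImplicit false

/-! Consequences of ergodicity of a mean. -/

namespace Pool.Agent.TH270.Rec

open Filter Topology Set
open scoped Classical

/-- ergodicity for complex sequences -/
lemma IsErg.ergC {M : (ℕ → ℝ) → ℝ} (hM : IsErg M) {g : ℕ → ℂ} (hg : BddC g) :
    Tendsto (fun H : ℕ => M (fun n => ‖(H : ℂ)⁻¹ * ∑ k ∈ Finset.range H, g (n + k) - mc M g‖ ^ 2))
      atTop (𝓝 0) := by
  have h1 := hM.erg _ hg.re
  have h2 := hM.erg _ hg.im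
  have h3 := h1.add h2
  rw [add_zero] at h3
  refine h3.congr fun H => ?_
  have hb1 : Bdd (fun n => ((H : ℝ)⁻¹ * ∑ k ∈ Finset.range H, (g (n + k)).re -
      M (fun n => (g n).re)) ^ 2) :=
    (((Bdd.sum fun k _ => hg.re.comp (fun n => n + k)).const_mul _).sub (Bdd.const _)).pow 2
  have hb2 : Bdd (fun n => ((H : ℝ)⁻¹ * ∑ k ∈ Finset.range H, (g (n + k)).im -
      M (fun n => (g n).im)) ^ 2) :=
    (((Bdd.sum fun k _ => hg.im.comp (fun n => n + k)).const_mul _).sub (Bdd.const _)).pow 2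
  rw [← hM.mean.add' hb1 hb2]
  congr 1
  funext n
  rw [← Complex.normSq_eq_norm_sq, Complex.normSq_apply]
  have e1 : ((H : ℂ)⁻¹ * ∑ k ∈ Finset.range H, g (n + k) - mc M g).re =
      (H : ℝ)⁻¹ * ∑ k ∈ Finset.range H, (g (n + k)).re - M (fun n => (g n).re) := by
    rw [Complex.sub_re, hM.mean.mc_re, ← Complex.re_sum, show ((H : ℂ)⁻¹) = (((H : ℝ)⁻¹ : ℝ) : ℂ) by
      push_cast; rfl, Complex.re_ofReal_mul]
  have e2 : ((H : ℂ)⁻¹ * ∑ k ∈ Finset.range H, g (n + k) - mc M g).im =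
      (H : ℝ)⁻¹ * ∑ k ∈ Finset.range H, (g (n + k)).im - M (fun n => (g n).im) := by
    rw [Complex.sub_im, hM.mean.mc_im, ← Complex.im_sum, show ((H : ℂ)⁻¹) = (((H : ℝ)⁻¹ : ℝ) : ℂ) by
      push_cast; rfl, Complex.im_ofReal_mul]
  rw [e1, e2]
  ring

lemma ind_nonneg (A : Set ℕ) (n : ℕ) : 0 ≤ ind A n := by
  unfold ind; split_ifs <;> simp

lemma ind_le_one (A : Set ℕ) (n : ℕ) : ind A n ≤ 1 := by
  unfold ind; split_ifs <;> simp

lemma ind_sq (A : Set ℕ) (n : ℕ) : ind A n ^ 2 = ind A n := by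
  unfold ind; split_ifs <;> simp

lemma ind_mem {A : Set ℕ} {n : ℕ} (h : n ∈ A) : ind A n = 1 := by
  unfold ind; rw [if_pos h]

lemma mem_of_ind_pos {A : Set ℕ} {n : ℕ} (h : 0 < ind A n) : n ∈ A := by
  unfold ind at h
  by_contra hc
  rw [if_neg hc] at h
  exact lt_irrefl _ h

lemma IsMean.ind_le_one {M : (ℕ → ℝ) → ℝ} (hM : IsMean M) (A : Set ℕ) : M (ind A) ≤ 1 :=
  hM.le_of_le (bdd_ind A) (Rec.ind_le_one A)

/-- autocorrelation sequence of a set -/
noncomputable def acor (M : (ℕ → ℝ) → ℝ) (Q : Set ℕ) : ℕ → ℝ :=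
  fun y => M (fun k => ind Q k * ind Q (k + y))

lemma IsMean.acor_nonneg {M : (ℕ → ℝ) → ℝ} (hM : IsMean M) (Q : Set ℕ) (y : ℕ) :
    0 ≤ acor M Q y :=
  hM.nonneg _ ((bdd_ind Q).mul ((bdd_ind Q).comp _))
    fun k => mul_nonneg (ind_nonneg Q k) (ind_nonneg Q _)

lemma IsMean.acor_le_one {M : (ℕ → ℝ) → ℝ} (hM : IsMean M) (Q : Set ℕ) (y : ℕ) :
    acor M Q y ≤ 1 :=
  hM.le_of_le ((bdd_ind Q).mul ((bdd_ind Q).comp _))
    fun k => mul_le_one₀ (Rec.ind_le_one Q k) (ind_nonneg Q _) (Rec.ind_le_one Q _)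

lemma IsMean.bdd_acor {M : (ℕ → ℝ) → ℝ} (hM : IsMean M) (Q : Set ℕ) : Bdd (acor M Q) :=
  ⟨1, fun y => by rw [abs_of_nonneg (hM.acor_nonneg Q y)]; exact hM.acor_le_one Q y⟩

lemma IsMean.exists_of_acor_pos {M : (ℕ → ℝ) → ℝ} (hM : IsMean M) {Q : Set ℕ} {y : ℕ}
    (h : 0 < acor M Q y) : ∃ k ∈ Q, k + y ∈ Q := by
  obtain ⟨k, hk⟩ := hM.exists_gt ((bdd_ind Q).mul ((bdd_ind Q).comp _)) h
  have h1 : 0 < ind Q k := by
    rcases (ind_nonneg Q k).lt_or_eq with h | h
    · exact h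
    · simp [← h] at hk
  have h2 : 0 < ind Q (k + y) := by
    rcases (ind_nonneg Q (k + y)).lt_or_eq with h | h
    · exact h
    · simp [← h] at hk
  exact ⟨k, mem_of_ind_pos h1, mem_of_ind_pos h2⟩

/-- the mean (for any invariant mean) of the autocorrelation of a set of positive density with
respect to an ergodic mean is positive -/
lemma IsErg.mean_acor_pos {M : (ℕ → ℝ) → ℝ} (hM : IsErg M) {Q : Set ℕ} (hQ : 0 < M (ind Q))
    {M' : (ℕ → ℝ) → ℝ} (hM' : IsMean M') : 0 < M' (acor M Q) := by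
  set η := M (ind Q) with hη
  have herg := hM.erg _ (bdd_ind Q)
  have hη1 : η ≤ 1 := hM.mean.ind_le_one Q
  obtain ⟨H, hH1, hH⟩ := ((eventually_ge_atTop 1).and
    (herg.eventually (gt_mem_nhds (show (0 : ℝ) < (η ^ 2 / 2) ^ 2 by positivity)))).exists
  have hHpos : (0 : ℝ) < H := by exact_mod_cast hH1
  set D : ℕ → ℝ := fun n => (H : ℝ)⁻¹ * ∑ k ∈ Finset.range H, ind Q (n + k) - η with hD
  have hDb : Bdd D :=
    ((Bdd.sum fun k _ => (bdd_ind Q).comp (fun n => n + k)).const_mul _).sub (Bdd.const _)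
  -- average of the autocorrelation
  have h1 : ∀ y : ℕ, η ^ 2 / 2 ≤ (H : ℝ)⁻¹ * ∑ h ∈ Finset.range H, acor M Q (y + h) := by
    intro y
    have h2 : (H : ℝ)⁻¹ * ∑ h ∈ Finset.range H, acor M Q (y + h) =
        M (fun k => ind Q k * D (k + y)) + η ^ 2 := by
      unfold acor
      rw [← hM.mean.sum' (fun h _ => (bdd_ind Q).mul ((bdd_ind Q).comp _)),
        ← hM.mean.smul' _ (Bdd.sum fun h _ => (bdd_ind Q).mul ((bdd_ind Q).comp _))]
      have h3 : η ^ 2 = M (fun k => ind Q k * η) := by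
        have := hM.mean.smul' η (bdd_ind Q)
        rw [← hη, ← pow_two] at this
        rw [← this]
        congr 1; funext k; ring
      rw [h3, ← hM.mean.add' ((bdd_ind Q).mul (hDb.comp _)) ((bdd_ind Q).mul (Bdd.const _))]
      congr 1
      funext k
      simp only [hD]
      rw [← Finset.mul_sum]
      have : ∀ h, k + (y + h) = k + y + h := fun h => by ring
      simp only [this]
      ring
    rw [h2]
    have h4 : |M (fun k => ind Q k * D (k + y))| ≤ η ^ 2 / 2 := by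
      apply abs_le_of_sq_le_sq _ (by positivity)
      calc M (fun k => ind Q k * D (k + y)) ^ 2
          ≤ M (fun k => ind Q k ^ 2) * M (fun k => D (k + y) ^ 2) :=
            hM.mean.cs_real (bdd_ind Q) (hDb.comp _)
        _ ≤ 1 * M (fun k => D (k + y) ^ 2) := by
            apply mul_le_mul_of_nonneg_right
            · simp only [ind_sq]
              exact hM.mean.ind_le_one Q
            · exact hM.mean.nonneg _ ((hDb.comp _).pow 2) fun k => by positivity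
        _ = M (fun k => D k ^ 2) := by
            rw [one_mul]
            exact hM.mean.shift' (hDb.pow 2) y
        _ ≤ (η ^ 2 / 2) ^ 2 := hH.le
    have := abs_le.1 h4
    linarith [this.1]
  have hab := hM.mean.bdd_acor Q
  have h5 : M' (acor M Q) = M' (fun y => (H : ℝ)⁻¹ * ∑ h ∈ Finset.range H, acor M Q (y + h)) := by
    rw [hM'.smul' _ (Bdd.sum fun h _ => hab.comp _), hM'.sum' (fun h _ => hab.comp _)]
    simp only [hM'.shift' hab]
    rw [Finset.sum_const, Finset.card_range, nsmul_eq_mul, ← mul_assoc, inv_mul_cancel₀ hHpos.ne',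
      one_mul]
  rw [h5]
  have h6 := hM'.ge_of_ge ((Bdd.sum fun h _ => hab.comp (fun y => y + h)).const_mul (H : ℝ)⁻¹) h1
  have : 0 < η ^ 2 / 2 := by positivity
  linarith

end Pool.Agent.TH270.Rec
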