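import Pool.Agent.TH270.Rec.Defs

set_option autoImplicit false

/-! The family of sets attached to a reiteratively recurrent orbit (job REC-C). -/

namespace Pool.Agent.TH270.Rec

open Filter Topology Set

namespace Orb

theorem PosBD.mono {A B : Set ℕ} (h : A ⊆ B) (hA : PosBD A) : PosBD B := by
  classical
  obtain ⟨δ, hδ, H⟩ := hA
  refine ⟨δ, hδ, fun N => ?_⟩
  obtain ⟨a, L, hN, hL, hc⟩ := H N
  refine ⟨a, L, hN, hL, hc.trans ?_⟩
  have : (((Finset.range L).filter fun h => a + h ∈ A).card) ≤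
      (((Finset.range L).filter fun h => a + h ∈ B).card) := by
    apply Finset.card_le_card
    intro x hx
    simp only [Finset.mem_filter] at hx ⊢
    exact ⟨hx.1, h hx.2⟩
  have h2 : ((((Finset.range L).filter fun h => a + h ∈ A).card : ℕ) : ℝ) ≤
      ((((Finset.range L).filter fun h => a + h ∈ B).card : ℕ) : ℝ) := by exact_mod_cast this
  convert h2

theorem not_posBD_empty : ¬ PosBD (∅ : Set ℕ) := by
  classical
  rintro ⟨δ, hδ, H⟩
  obtain ⟨a, L, hN, hL, hc⟩ := H 0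
  have h0 : ((Finset.range L).filter fun h => a + h ∈ (∅ : Set ℕ)).card = 0 := by
    simp
  have hc' : δ * L ≤ 0 := by
    refine hc.trans (le_of_eq ?_)
    have : (((Finset.range L).filter fun h => a + h ∈ (∅ : Set ℕ)).card : ℝ) = 0 := by
      exact_mod_cast h0
    convert this
  have : (0 : ℝ) < δ * L := by
    have : (1 : ℝ) ≤ L := by exact_mod_cast hL
    positivity
  linarith

theorem PosBD.nonempty {A : Set ℕ} (hA : PosBD A) : A.Nonempty := by
  by_contra h
  rw [Set.not_nonempty_iff_eq_empty] at h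
  subst h
  exact not_posBD_empty hA

theorem PosBD.union {A B : Set ℕ} (h : PosBD (A ∪ B)) : PosBD A ∨ PosBD B := by
  classical
  obtain ⟨δ, hδ, H⟩ := h
  by_contra hcon
  rw [not_or] at hcon
  obtain ⟨hA, hB⟩ := hcon
  unfold PosBD at hA hB
  push Not at hA hB
  obtain ⟨N1, h1⟩ := hA (δ / 2) (by positivity)
  obtain ⟨N2, h2⟩ := hB (δ / 2) (by positivity)
  obtain ⟨a, L, hN, hL, hc⟩ := H (max N1 N2)
  have h1' := h1 a L ((le_max_left _ _).trans hN) hL
  have h2' := h2 a L ((le_max_right _ _).trans hN) hL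
  have hsub : ((Finset.range L).filter fun h => a + h ∈ A ∪ B).card ≤
      ((Finset.range L).filter fun h => a + h ∈ A).card +
      ((Finset.range L).filter fun h => a + h ∈ B).card := by
    refine le_trans (Finset.card_le_card ?_) (Finset.card_union_le _ _)
    intro x hx
    simp only [Finset.mem_filter, Finset.mem_union, Set.mem_union] at hx ⊢
    tauto
  have h3 : (((Finset.range L).filter fun h => a + h ∈ A ∪ B).card : ℝ) ≤
      ((Finset.range L).filter fun h => a + h ∈ A).card +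
      ((Finset.range L).filter fun h => a + h ∈ B).card := by exact_mod_cast hsub
  have hc' : δ * L ≤ (((Finset.range L).filter fun h => a + h ∈ A ∪ B).card : ℝ) := by
    convert hc
  have h1'' : (((Finset.range L).filter fun h => a + h ∈ A).card : ℝ) < δ / 2 * L := by
    convert h1'
  have h2'' : (((Finset.range L).filter fun h => a + h ∈ B).card : ℝ) < δ / 2 * L := by
    convert h2'
  linarith

theorem PosBD.biUnion {ι : Type*} (s : Finset ι) (A : ι → Set ℕ)
    (h : PosBD (⋃ i ∈ s, A i)) : ∃ i ∈ s, PosBD (A i) := by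
  classical
  induction s using Finset.induction_on with
  | empty =>
    simp only [Finset.notMem_empty, iUnion_of_empty, iUnion_empty] at h
    exact (not_posBD_empty h).elim
  | insert a s ha ih =>
    rw [Finset.set_biUnion_insert] at h
    rcases PosBD.union h with h | h
    · exact ⟨a, Finset.mem_insert_self _ _, h⟩
    · obtain ⟨i, hi, hp⟩ := ih h
      exact ⟨i, Finset.mem_insert_of_mem hi, hp⟩

theorem PosBD.of_shift {A : Set ℕ} (n : ℕ) (h : PosBD {m | n + m ∈ A}) : PosBD A := by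
  obtain ⟨δ, hδ, H⟩ := h
  refine ⟨δ, hδ, fun N => ?_⟩
  obtain ⟨a, L, hN, hL, hc⟩ := H N
  refine ⟨n + a, L, hN, hL, hc.trans (le_of_eq ?_)⟩
  congr 2
  ext h
  simp only [Finset.mem_filter, Set.mem_ofPred_eq, add_assoc]

section

variable {X : Type*} [TopologicalSpace X] {T : X → X} {x : X}

/-- return times to `O` with phase in `W` -/
def Ret (T : X → X) (x : X) (Θ : Finset Circle) (O : Set X) (W : Set (Θ → Circle)) : Set ℕ :=
  {p | T^[p] x ∈ O ∧ (fun z : Θ => (z : Circle) ^ p) ∈ W}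

/-- the set of good limit phases -/
def Gam (T : X → X) (x : X) (Θ : Finset Circle) : Set (Θ → Circle) :=
  {γ | ∀ O : Set X, IsOpen O → x ∈ O → ∀ W : Set (Θ → Circle), IsOpen W → γ ∈ W →
    PosBD (Ret T x Θ O W)}

theorem Gam_nonempty (hx : RR T x) (Θ : Finset Circle) : (Gam T x Θ).Nonempty := by
  classical
  by_contra hcon
  rw [Set.not_nonempty_iff_eq_empty, Set.eq_empty_iff_forall_notMem] at hcon
  have h1 : ∀ γ : Θ → Circle, ∃ O : Set X, IsOpen O ∧ x ∈ O ∧ ∃ W : Set (Θ → Circle),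
      IsOpen W ∧ γ ∈ W ∧ ¬ PosBD (Ret T x Θ O W) := by
    intro γ
    have := hcon γ
    unfold Gam at this
    simp only [Set.mem_ofPred_eq] at this
    push Not at this
    obtain ⟨O, hO, hxO, W, hW, hγ, hp⟩ := this
    exact ⟨O, hO, hxO, W, hW, hγ, hp⟩
  choose O hO hxO W hW hγ hp using h1
  obtain ⟨t, ht⟩ := CompactSpace.elim_nhds_subcover W (fun γ => (hW γ).mem_nhds (hγ γ))
  have hopen : IsOpen (⋂ γ ∈ t, O γ) := by
    apply isOpen_biInter_finset
    intro i _
    exact hO i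
  have hmem : x ∈ ⋂ γ ∈ t, O γ := by
    simp only [Set.mem_iInter]
    intro i _
    exact hxO i
  have h2 := hx _ hopen hmem
  have h3 : PosBD (⋃ γ ∈ t, Ret T x Θ (O γ) (W γ)) := by
    refine PosBD.mono ?_ h2
    intro n hn
    have hcov : (fun z : Θ => (z : Circle) ^ n) ∈ ⋃ γ ∈ t, W γ := by
      rw [ht]; trivial
    simp only [Set.mem_iUnion] at hcov ⊢
    obtain ⟨γ, hγt, hγW⟩ := hcov
    refine ⟨γ, hγt, ?_, hγW⟩
    have hn' : T^[n] x ∈ ⋂ γ ∈ t, O γ := hn
    simp only [Set.mem_iInter] at hn'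
    exact hn' γ hγt
  obtain ⟨γ, _, hγp⟩ := PosBD.biUnion _ _ h3
  exact hp γ hγp

theorem Gam_mul (hT : Continuous T) (Θ : Finset Circle) {γ γ' : Θ → Circle}
    (h : γ ∈ Gam T x Θ) (h' : γ' ∈ Gam T x Θ) : γ * γ' ∈ Gam T x Θ := by
  intro O hO hxO W hW hγ
  have hcont : Continuous fun p : (Θ → Circle) × (Θ → Circle) => p.1 * p.2 :=
    continuous_mul
  have hpre : IsOpen ((fun p : (Θ → Circle) × (Θ → Circle) => p.1 * p.2) ⁻¹' W) :=
    hW.preimage hcont
  obtain ⟨W1, W2, hW1, hW2, hγ1, hγ2, hsub⟩ := isOpen_prod_iff.1 hpre γ γ' hγ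
  obtain ⟨p, hpO, hpW⟩ := PosBD.nonempty (h O hO hxO W1 hW1 hγ1)
  have hO' : IsOpen (T^[p] ⁻¹' O) := hO.preimage (hT.iterate p)
  have h2 := h' (T^[p] ⁻¹' O) hO' hpO W2 hW2 hγ2
  refine PosBD.of_shift p (PosBD.mono ?_ h2)
  rintro q ⟨hq1, hq2⟩
  refine ⟨?_, ?_⟩
  · rw [Function.iterate_add_apply]
    exact hq1
  · have : (fun z : Θ => (z : Circle) ^ (p + q)) =
        (fun z : Θ => (z : Circle) ^ p) * (fun z : Θ => (z : Circle) ^ q) := by
      funext z
      simp [pow_add]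
    rw [this]
    exact hsub (Set.mk_mem_prod hpW hq2)

theorem Gam_pow (hT : Continuous T) (Θ : Finset Circle) {γ : Θ → Circle}
    (h : γ ∈ Gam T x Θ) (k : ℕ) : γ ^ (k + 1) ∈ Gam T x Θ := by
  induction k with
  | zero => simpa using h
  | succ k ih =>
    rw [pow_succ]
    exact Gam_mul hT Θ ih h

theorem one_mem_Gam (hT : Continuous T) (hx : RR T x) (Θ : Finset Circle) :
    (1 : Θ → Circle) ∈ Gam T x Θ := by
  obtain ⟨γ, hγ⟩ := Gam_nonempty hx Θ
  intro O hO hxO W hW h1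
  have hcl : MapClusterPt (1 : Θ → Circle) atTop (γ ^ · : ℕ → (Θ → Circle)) :=
    mapClusterPt_one_atTop_pow γ
  have hfr := hcl.frequently (hW.mem_nhds h1)
  obtain ⟨k, hk1, hk⟩ := (hfr.and_eventually (eventually_ge_atTop 1)).exists
  obtain ⟨m, rfl⟩ : ∃ m, k = m + 1 := ⟨k - 1, by omega⟩
  exact Gam_pow hT Θ hγ m O hO hxO W hW hk1

theorem posBD_ret (hT : Continuous T) (hx : RR T x) (Θ : Finset Circle) {O : Set X}
    (hO : IsOpen O) (hxO : x ∈ O) {ε : ℝ} (hε : 0 < ε) :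
    PosBD {p : ℕ | T^[p] x ∈ O ∧ ∀ z ∈ Θ, ‖(z : ℂ) ^ p - 1‖ < ε} := by
  have hW : IsOpen {γ : Θ → Circle | ∀ z : Θ, ‖((γ z : Circle) : ℂ) - 1‖ < ε} := by
    have : {γ : Θ → Circle | ∀ z : Θ, ‖((γ z : Circle) : ℂ) - 1‖ < ε} =
        ⋂ z : Θ, {γ : Θ → Circle | ‖((γ z : Circle) : ℂ) - 1‖ < ε} := by
      ext γ; simp
    rw [this]
    apply isOpen_iInter_of_finite
    intro z
    apply isOpen_lt _ continuous_const
    fun_prop
  have h := one_mem_Gam hT hx Θ O hO hxO _ hW (by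
    intro z
    simpa using hε)
  refine PosBD.mono ?_ h
  rintro p ⟨hp1, hp2⟩
  refine ⟨hp1, fun z hz => ?_⟩
  have := hp2 ⟨z, hz⟩
  simpa using this

end

end Orb

theorem orbFam_openFam {X : Type*} [TopologicalSpace X] {T : X → X} (hT : Continuous T) {x : X}
    (hx : RR T x) : OpenFam (orbFam T x) := by
  classical
  refine ⟨?_, ?_, ?_, ?_, ?_⟩
  · intro n _
    exact ⟨Set.univ, isOpen_univ, Set.mem_univ _, ∅, 1, one_pos, fun m _ _ => Set.mem_univ _⟩
  · intro A B hA hB n hn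
    obtain ⟨G, hG, hxG, Θ, ε, hε, H⟩ := hA n hn.1
    obtain ⟨G', hG', hxG', Θ', ε', hε', H'⟩ := hB n hn.2
    refine ⟨G ∩ G', hG.inter hG', ⟨hxG, hxG'⟩, Θ ∪ Θ', min ε ε', lt_min hε hε', ?_⟩
    intro m hm hz
    refine ⟨H m hm.1 fun z hz' => ?_, H' m hm.2 fun z hz' => ?_⟩
    · exact (hz z (Finset.mem_union_left _ hz')).trans_le (min_le_left _ _)
    · exact (hz z (Finset.mem_union_right _ hz')).trans_le (min_le_right _ _)
  · intro A hA n hn
    obtain ⟨G, hG, hxG, Θ, ε, hε, H⟩ := hA (n + 1) hn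
    refine ⟨T ⁻¹' G, hG.preimage hT, ?_, Θ, ε, hε, ?_⟩
    · rw [Function.iterate_succ_apply'] at hxG
      exact hxG
    · intro m hm hz
      refine H (m + 1) ?_ ?_
      · rw [Function.iterate_succ_apply']
        exact hm
      · intro z hz'
        have h1 : (z : ℂ) ^ (m + 1) - (z : ℂ) ^ (n + 1) = ((z : ℂ) ^ m - (z : ℂ) ^ n) * z := by
          ring
        rw [h1, norm_mul, Circle.norm_coe, mul_one]
        exact hz z hz'
  · intro z c ε n hn
    refine ⟨Set.univ, isOpen_univ, Set.mem_univ _, {z}, ε - ‖(z : ℂ) ^ n - c‖, ?_, ?_⟩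
    · have : ‖(z : ℂ) ^ n - c‖ < ε := hn
      linarith
    · intro m _ hz
      have h1 := hz z (Finset.mem_singleton_self z)
      have h2 : ‖(z : ℂ) ^ m - c‖ ≤ ‖(z : ℂ) ^ m - (z : ℂ) ^ n‖ + ‖(z : ℂ) ^ n - c‖ := by
        have : (z : ℂ) ^ m - c = ((z : ℂ) ^ m - (z : ℂ) ^ n) + ((z : ℂ) ^ n - c) := by ring
        rw [this]
        exact norm_add_le _ _
      show ‖(z : ℂ) ^ m - c‖ < ε
      linarith
  · rintro A hA ⟨n, hn⟩
    obtain ⟨G, hG, hxG, Θ, ε, hε, H⟩ := hA n hn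
    have hO : IsOpen (T^[n] ⁻¹' G) := hG.preimage (hT.iterate n)
    have h := Orb.posBD_ret hT hx Θ hO hxG hε
    refine Orb.PosBD.of_shift n (Orb.PosBD.mono ?_ h)
    rintro p ⟨hp1, hp2⟩
    refine H (n + p) ?_ ?_
    · rw [Function.iterate_add_apply]
      exact hp1
    · intro z hz
      have h1 : (z : ℂ) ^ (n + p) - (z : ℂ) ^ n = (z : ℂ) ^ n * ((z : ℂ) ^ p - 1) := by
        ring
      rw [h1, norm_mul, norm_pow, Circle.norm_coe, one_pow, one_mul]
      exact hp2 z hz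

end Pool.Agent.TH270.Rec
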