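import Pool.Agent.TH270.Rec.Window
import Pool.Agent.TH270.Rec.Orb
import Pool.Agent.H615R3.RecDefs

set_option autoImplicit false

/-! Products of reiteratively recurrent maps. -/

namespace Pool.Agent.TH270.Rec

open Filter Topology Set Pool.Agent.H615R3
open scoped Classical

lemma posBD_iff_ubd (A : Set ℕ) : PosBD A ↔ 0 < upperBanachDensity (A ∩ {n | 1 ≤ n}) := by
  rw [ubd_pos_iff]
  constructor
  · rintro ⟨δ, hδ, H⟩
    refine ⟨δ / 2, by positivity, fun N => ?_⟩
    obtain ⟨N1, hN1⟩ := exists_nat_ge (2 / δ)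
    obtain ⟨a, L, hL, hL1, hc⟩ := H (max (max N 1) N1)
    have hLN1 : (N1 : ℝ) ≤ L := by exact_mod_cast (le_max_right _ _).trans hL
    have hδL : 1 ≤ δ * L / 2 := by
      have : 2 / δ ≤ L := hN1.trans hLN1
      rw [div_le_iff₀ hδ] at this
      linarith
    refine ⟨L, a, ((le_max_left _ _).trans (le_max_left _ _)).trans hL, hL1, ?_⟩
    -- the elements a + h, 1 ≤ h < L
    have hsub : ((((Finset.range L).filter fun h => a + h ∈ A).erase 0).image fun h => a + h :
        Finset ℕ) ⊆ (Finset.Icc (a + 1) (a + L)).filter (fun n => n ∈ A ∩ {n | 1 ≤ n}) := by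
      intro n hn
      rw [Finset.mem_image] at hn
      obtain ⟨h, hh, rfl⟩ := hn
      rw [Finset.mem_erase, Finset.mem_filter, Finset.mem_range] at hh
      rw [Finset.mem_filter, Finset.mem_Icc]
      exact ⟨⟨by omega, by omega⟩, hh.2.2, show 1 ≤ a + h by omega⟩
    have hcard1 : (((Finset.range L).filter fun h => a + h ∈ A).card : ℝ) - 1 ≤
        ((((Finset.range L).filter fun h => a + h ∈ A).erase 0).card : ℝ) := by
      have := Finset.pred_card_le_card_erase (s := (Finset.range L).filter fun h => a + h ∈ A)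
        (a := 0)
      have h2 : (((Finset.range L).filter fun h => a + h ∈ A).card : ℝ) ≤
          ((((Finset.range L).filter fun h => a + h ∈ A).erase 0).card : ℝ) + 1 := by
        exact_mod_cast (by omega : ((Finset.range L).filter fun h => a + h ∈ A).card ≤
          (((Finset.range L).filter fun h => a + h ∈ A).erase 0).card + 1)
      linarith
    have hcard2 : (((Finset.range L).filter fun h => a + h ∈ A).erase 0).card ≤
        ((A ∩ {n | 1 ≤ n}) ∩ Icc (a + 1) (a + L)).ncard := by
      have e1 : (((Finset.Icc (a + 1) (a + L)).filter (fun n => n ∈ A ∩ {n | 1 ≤ n}) :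
          Finset ℕ) : Set ℕ) = (A ∩ {n | 1 ≤ n}) ∩ Icc (a + 1) (a + L) := by
        ext n
        simp only [Finset.coe_filter, Finset.mem_Icc, Set.mem_ofPred_eq, mem_inter_iff, mem_Icc]
        tauto
      rw [← e1, Set.ncard_coe_finset, ← Finset.card_image_of_injective _ (add_right_injective a)]
      exact Finset.card_le_card hsub
    have hcard2' : ((((Finset.range L).filter fun h => a + h ∈ A).erase 0).card : ℝ) ≤
        (((A ∩ {n | 1 ≤ n}) ∩ Icc (a + 1) (a + L)).ncard : ℝ) := by exact_mod_cast hcard2
    linarith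
  · rintro ⟨δ, hδ, H⟩
    refine ⟨δ, hδ, fun N => ?_⟩
    obtain ⟨L, m, hL, hL1, hc⟩ := H N
    refine ⟨m + 1, L, hL, hL1, hc.trans ?_⟩
    have e1 : ((A ∩ {n | 1 ≤ n}) ∩ Icc (m + 1) (m + L)) ⊆
        ((((Finset.range L).filter fun h => m + 1 + h ∈ A).image fun h => m + 1 + h :
          Finset ℕ) : Set ℕ) := by
      intro n hn
      obtain ⟨⟨hnA, _⟩, hn2⟩ := hn
      rw [mem_Icc] at hn2
      rw [Finset.coe_image, Set.mem_image]
      refine ⟨n - (m + 1), ?_, by omega⟩
      rw [Finset.mem_coe, Finset.mem_filter, Finset.mem_range]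
      refine ⟨by omega, ?_⟩
      rwa [show m + 1 + (n - (m + 1)) = n by omega]
    have e2 := Set.ncard_le_ncard e1 (Finset.finite_toSet _)
    rw [Set.ncard_coe_finset, Finset.card_image_of_injective _ (add_right_injective (m + 1))] at e2
    exact_mod_cast e2

lemma rr_iff {X : Type*} [TopologicalSpace X] (T : X → X) (x : X) : RR T x ↔ IsRRec T x := by
  have key : ∀ G : Set X, PosBD {n : ℕ | T^[n] x ∈ G} ↔
      0 < upperBanachDensity (retSet T x G) := by
    intro G
    rw [posBD_iff_ubd]
    have : {n : ℕ | T^[n] x ∈ G} ∩ {n | 1 ≤ n} = retSet T x G := by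
      ext n
      simp only [retSet, mem_inter_iff, Set.mem_ofPred_eq]
      tauto
    rw [this]
  constructor
  · intro h U hU
    obtain ⟨G, hGU, hG, hx⟩ := mem_nhds_iff.1 hU
    have h1 := (ubd_pos_iff _).1 ((key G).1 (h G hG hx))
    rw [ubd_pos_iff]
    obtain ⟨δ, hδ, H⟩ := h1
    refine ⟨δ, hδ, fun L => ?_⟩
    obtain ⟨N, m, h1, h2, h3⟩ := H L
    refine ⟨N, m, h1, h2, h3.trans ?_⟩
    exact_mod_cast Set.ncard_le_ncard (inter_subset_inter_left _ (retSet_mono T x hGU))
      ((finite_Icc _ _).subset inter_subset_right)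
  · intro h G hG hx
    exact (key G).2 (h G (hG.mem_nhds hx))

/-- images of recurrent points under factor maps -/
lemma RR.factor {X Y : Type*} [TopologicalSpace X] [TopologicalSpace Y] {S : X → X} {S' : Y → Y}
    {f : X → Y} (hf : Continuous f) (hSf : ∀ p, f (S p) = S' (f p)) {p : X} (hp : RR S p) :
    RR S' (f p) := by
  intro G hG hpG
  have h1 := hp (f ⁻¹' G) (hG.preimage hf) hpG
  convert h1 using 1
  ext n
  have : ∀ n, S'^[n] (f p) = f (S^[n] p) := by
    intro n
    induction n with
    | zero => rfl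
    | succ n ih => rw [Function.iterate_succ_apply', Function.iterate_succ_apply', ih, hSf]
  simp only [Set.mem_ofPred_eq, mem_preimage, this]

lemma posBD_univ : PosBD Set.univ := by
  refine ⟨1, one_pos, fun N => ⟨0, max N 1, le_max_left _ _, le_max_right _ _, ?_⟩⟩
  simp

/-- two factors -/
theorem two_factors {X X' : Type*} [UniformSpace X] [CompleteSpace X]
    [(uniformity X).IsCountablyGenerated]
    [UniformSpace X'] [CompleteSpace X'] [(uniformity X').IsCountablyGenerated]
    {T : X → X} (hT : Continuous T) {T' : X' → X'}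
    (hT' : Continuous T') {x : X} (hx : RR T x) {x' : X'} (hx' : RR T' x') :
    (x, x') ∈ closure {p : X × X' | RR (Prod.map T T') p} := by
  let _ : PseudoMetricSpace X := UniformSpace.pseudoMetricSpace X
  let _ : PseudoMetricSpace X' := UniformSpace.pseudoMetricSpace X'
  rw [mem_closure_iff_nhds]
  intro W hW
  obtain ⟨U, V, hU, hxU, hV, hxV, hUV⟩ := mem_nhds_prod_iff'.1 hW
  obtain ⟨y, hy, y', hy', h⟩ := exists_prod_RR window_lemma hT hT' (orbFam_openFam hT hx)
    (orbFam_openFam hT' hx') hU hxU hV hxV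
  exact ⟨(y, y'), hUV ⟨hy, hy'⟩, h⟩

/-- finite families, by induction on a finite set `s` of coordinates (on the other coordinates the
map is the identity) -/
theorem family_aux {ι : Type*} [Finite ι] {X : ι → Type*} [∀ j, UniformSpace (X j)]
    [∀ j, CompleteSpace (X j)] [∀ j, (uniformity (X j)).IsCountablyGenerated]
    (T : ∀ j, X j → X j) (hT : ∀ j, Continuous (T j)) (x : ∀ j, X j)
    (hx : ∀ j, RR (T j) (x j)) (s : Finset ι) :
    x ∈ closure {z : ∀ j, X j |
      RR (fun (w : ∀ j, X j) (j : ι) => if j ∈ s then T j (w j) else w j) z} := by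
  induction s using Finset.induction_on with
  | empty =>
    apply subset_closure
    intro G hG hxG
    convert posBD_univ using 1
    rw [Set.eq_univ_iff_forall]
    intro n
    show _ ∈ G
    have : (fun (w : ∀ j, X j) (j : ι) => if j ∈ (∅ : Finset ι) then T j (w j) else w j) = id := by
      funext w j
      simp
    rw [this, Function.iterate_id]
    exact hxG
  | insert a s ha ih =>
    set S : (∀ j, X j) → (∀ j, X j) := fun w j => if j ∈ s then T j (w j) else w j with hS
    have hSc : Continuous S := by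
      refine continuous_pi fun j => ?_
      by_cases hj : j ∈ s
      · simp only [hS, if_pos hj]
        exact (hT j).comp (continuous_apply j)
      · simp only [hS, if_neg hj]
        exact continuous_apply j
    set f : (∀ j, X j) × X a → (∀ j, X j) := fun p => Function.update p.1 a p.2 with hf
    have hfc : Continuous f := continuous_fst.update a continuous_snd
    have hfS : ∀ p, f (Prod.map S (T a) p) =
        (fun (w : ∀ j, X j) (j : ι) => if j ∈ insert a s then T j (w j) else w j) (f p) := by
      rintro ⟨w, v⟩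
      funext j
      by_cases hj : j = a
      · subst hj
        simp [hf]
      · simp [hf, hS, hj, Finset.mem_insert]
    have hfx : f (x, x a) = x := by simp [hf]
    -- (x, x a) is in the closure of the recurrent points of S × T a
    have h1 : (x, x a) ∈ closure {p : (∀ j, X j) × X a | RR (Prod.map S (T a)) p} := by
      rw [mem_closure_iff_nhds]
      intro W hW
      obtain ⟨U, V, hU, hxU, hV, hxV, hUV⟩ := mem_nhds_prod_iff'.1 hW
      obtain ⟨y, hyU, hy⟩ := mem_closure_iff.1 ih U hU hxU
      have h2 := two_factors hSc (hT a) hy (hx a)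
      obtain ⟨q, hqW, hq⟩ := mem_closure_iff.1 h2 (U ×ˢ V) (hU.prod hV) ⟨hyU, hxV⟩
      exact ⟨q, hUV hqW, hq⟩
    rw [← hfx]
    refine closure_mono ?_ (image_closure_subset_closure_image hfc ⟨_, h1, rfl⟩)
    rintro _ ⟨p, hp, rfl⟩
    exact RR.factor hfc hfS hp

/-- finite families -/
theorem family {ι : Type*} [Finite ι] {X : ι → Type*} [∀ j, UniformSpace (X j)]
    [∀ j, CompleteSpace (X j)] [∀ j, (uniformity (X j)).IsCountablyGenerated]
    (T : ∀ j, X j → X j) (hT : ∀ j, Continuous (T j)) (x : ∀ j, X j)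
    (hx : ∀ j, IsRRec (T j) (x j)) :
    x ∈ closure {z : ∀ j, X j | IsRRec (fun (w : ∀ j, X j) (j : ι) => T j (w j)) z} := by
  have := Fintype.ofFinite ι
  have h := family_aux T hT x (fun j => (rr_iff _ _).2 (hx j)) Finset.univ
  simp only [Finset.mem_univ, if_true] at h
  simpa only [rr_iff] using h

end Pool.Agent.TH270.Rec
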