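import Pool.Agent.TH270.Rec.ProdPoint2
import Pool.Agent.TH270.Rec.Final

set_option autoImplicit false

/-! Two factors, keeping finitely many lower bounds for densities of return sets of the first
coordinate. -/

namespace Pool.Agent.TH270.Rec

open Filter Topology Set
open scoped Classical

/-- upper Banach density at least `δ` -/
def GE (A : Set ℕ) (δ : ℝ) : Prop := ∀ ε : ℝ, 0 < ε → ∀ N : ℕ, ∃ a L : ℕ, N ≤ L ∧ 1 ≤ L ∧
  ∃ F : Finset ℕ, F ⊆ Finset.range L ∧ (δ - ε) * L ≤ (F.card : ℝ) ∧ ∀ h ∈ F, a + h ∈ A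

lemma PosBD.exists_ge {A : Set ℕ} (h : PosBD A) : ∃ δ : ℝ, 0 < δ ∧ GE A δ := by
  obtain ⟨δ, hδ, H⟩ := h
  refine ⟨δ, hδ, fun ε hε N => ?_⟩
  obtain ⟨a, L, hN, hL, hc⟩ := H N
  refine ⟨a, L, hN, hL, (Finset.range L).filter fun h => a + h ∈ A, Finset.filter_subset _ _,
    le_trans ?_ hc, fun h hh => (Finset.mem_filter.1 hh).2⟩
  have : (0 : ℝ) ≤ L := by positivity
  nlinarith

lemma GE.shift {A : Set ℕ} {δ : ℝ} (h : GE A δ) (n : ℕ) : GE {m | n + m ∈ A} δ := by
  intro ε hε N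
  obtain ⟨N1, hN1⟩ := exists_nat_ge (2 * n / ε)
  obtain ⟨a, L, hN, hL, F, hF, hc, hm⟩ := h (ε / 2) (by positivity) (max N N1)
  have hLN1 : (N1 : ℝ) ≤ L := by exact_mod_cast (le_max_right _ _).trans hN
  have hnL : (n : ℝ) ≤ ε / 2 * L := by
    have h1 := hN1.trans hLN1
    rw [div_le_iff₀ hε] at h1
    linarith
  refine ⟨a - n, L, (le_max_left _ _).trans hN, hL,
    (F.filter fun h => n ≤ a + h).image fun h => a + h - n - (a - n), ?_, ?_, ?_⟩
  · intro h hh
    rw [Finset.mem_image] at hh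
    obtain ⟨h', hh', rfl⟩ := hh
    have := Finset.mem_range.1 (hF (Finset.mem_filter.1 hh').1)
    rw [Finset.mem_range]
    omega
  · rw [Finset.card_image_of_injOn]
    · have h1 : F.card = (F.filter (fun h => n ≤ a + h)).card +
          (F.filter (fun h => ¬ n ≤ a + h)).card :=
        (Finset.card_filter_add_card_filter_not (fun h => n ≤ a + h)).symm
      have h2 : (F.filter (fun h => ¬ n ≤ a + h)).card ≤ n := by
        calc (F.filter (fun h => ¬ n ≤ a + h)).card ≤ (Finset.range n).card := by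
              apply Finset.card_le_card
              intro h hh
              rw [Finset.mem_filter] at hh
              rw [Finset.mem_range]
              omega
          _ = n := Finset.card_range n
      have h3 : (F.card : ℝ) = (F.filter (fun h => n ≤ a + h)).card +
          (F.filter (fun h => ¬ n ≤ a + h)).card := by exact_mod_cast h1
      have h4 : ((F.filter (fun h => ¬ n ≤ a + h)).card : ℝ) ≤ n := by exact_mod_cast h2
      nlinarith
    · intro x hx y hy hxy
      simp only [Finset.coe_filter, Set.mem_ofPred_eq] at hx hy hxy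
      omega
  · intro h hh
    rw [Finset.mem_image] at hh
    obtain ⟨h', hh', rfl⟩ := hh
    have h1 := hm h' (Finset.mem_filter.1 hh').1
    have h2 := (Finset.mem_filter.1 hh').2
    show n + (a - n + (a + h' - n - (a - n))) ∈ A
    have : n + (a - n + (a + h' - n - (a - n))) = a + h' := by omega
    rwa [this]

/-- the open sets expressing that the density of returns to `G` is at least `δ` -/
def condSet {X : Type*} (T : X → X) (G : Set X) (δ : ℝ) (i : ℕ) : Set X :=
  {y | ∃ a L : ℕ, i ≤ L ∧ 1 ≤ L ∧ ∃ F : Finset ℕ, F ⊆ Finset.range L ∧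
    (δ - 1 / ((i : ℝ) + 1)) * L ≤ (F.card : ℝ) ∧ ∀ h ∈ F, T^[a + h] y ∈ G}

lemma isOpen_condSet {X : Type*} [TopologicalSpace X] {T : X → X} (hT : Continuous T) {G : Set X}
    (hG : IsOpen G) (δ : ℝ) (i : ℕ) : IsOpen (condSet T G δ i) := by
  have : condSet T G δ i = ⋃ a : ℕ, ⋃ L : ℕ, ⋃ _ : i ≤ L, ⋃ _ : 1 ≤ L, ⋃ F : Finset ℕ,
      ⋃ _ : F ⊆ Finset.range L, ⋃ _ : (δ - 1 / ((i : ℝ) + 1)) * L ≤ (F.card : ℝ),
        ⋂ h ∈ F, (T^[a + h]) ⁻¹' G := by
    ext y
    simp only [condSet, Set.mem_ofPred_eq, mem_iUnion, mem_iInter, mem_preimage, exists_prop]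
  rw [this]
  refine isOpen_iUnion fun a => isOpen_iUnion fun L => isOpen_iUnion fun _ =>
    isOpen_iUnion fun _ => isOpen_iUnion fun F => isOpen_iUnion fun _ => isOpen_iUnion fun _ => ?_
  exact isOpen_biInter_finset fun h _ => hG.preimage (hT.iterate _)

lemma mem_condSet_of_ge {X : Type*} {T : X → X} {G : Set X} {δ : ℝ} {y : X}
    (h : GE {m | T^[m] y ∈ G} δ) (i n : ℕ) : T^[n] y ∈ condSet T G δ i := by
  obtain ⟨a, L, hN, hL, F, hF, hc, hm⟩ := h.shift n (1 / ((i : ℝ) + 1)) (by positivity) i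
  refine ⟨a, L, hN, hL, F, hF, hc, fun h hh => ?_⟩
  have h1 := hm h hh
  rw [← Function.iterate_add_apply]
  have h2 : T^[n + (a + h)] y ∈ G := h1
  rwa [show a + h + n = n + (a + h) by ring]

lemma ge_of_mem_condSet {X : Type*} {T : X → X} {G : Set X} {δ : ℝ} {y : X}
    (h : ∀ i, y ∈ condSet T G δ i) : GE {m | T^[m] y ∈ G} δ := by
  intro ε hε N
  obtain ⟨i, hi⟩ := exists_nat_gt (1 / ε)
  obtain ⟨a, L, hN, hL, F, hF, hc, hm⟩ := h (max N i)
  refine ⟨a, L, (le_max_left _ _).trans hN, hL, F, hF, le_trans ?_ hc, hm⟩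
  apply mul_le_mul_of_nonneg_right _ (by positivity)
  have h1 : 1 / (((max N i : ℕ) : ℝ) + 1) ≤ ε := by
    rw [div_le_iff₀ (by positivity)]
    have h2 : (i : ℝ) ≤ ((max N i : ℕ) : ℝ) := by exact_mod_cast le_max_right _ _
    rw [div_lt_iff₀ hε] at hi
    nlinarith
  linarith

/-- two factors, with finitely many lower density bounds for the first one -/
theorem ext_two {X X' : Type*} [PseudoMetricSpace X] [CompleteSpace X]
    [PseudoMetricSpace X'] [CompleteSpace X'] {T : X → X} (hT : Continuous T) {T' : X' → X'}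
    (hT' : Continuous T') {x : X} (hx : RR T x) {x' : X'} (hx' : RR T' x')
    {κ : Type*} (cs : Finset κ) (G : κ → Set X) (δ : κ → ℝ) (hG : ∀ c ∈ cs, IsOpen (G c))
    (hc : ∀ c ∈ cs, GE {m | T^[m] x ∈ G c} (δ c)) {U : Set X}
    (hU : IsOpen U) (hxU : x ∈ U) {V : Set X'} (hV : IsOpen V) (hxV : x' ∈ V) :
    ∃ y ∈ U, ∃ y' ∈ V, RR (Prod.map T T') (y, y') ∧
      ∀ c ∈ cs, GE {m | T^[m] y ∈ G c} (δ c) := by
  obtain ⟨y, hy, y', hy', h1, h2⟩ := exists_prod_RR2 window_lemma hT hT' (orbFam_openFam hT hx)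
    (orbFam_openFam hT' hx') (E := fun i => ⋂ c ∈ cs, condSet T (G c) (δ c) i)
    (fun i => isOpen_biInter_finset fun c hcs => isOpen_condSet hT (hG c hcs) _ _)
    (fun i n => by
      simp only [mem_iInter]
      exact fun c hcs => mem_condSet_of_ge (hc c hcs) i n) hU hxU hV hxV
  refine ⟨y, hy, y', hy', h1, fun c hcs => ge_of_mem_condSet fun i => ?_⟩
  have := h2 i
  simp only [mem_iInter] at this
  exact this c hcs

end Pool.Agent.TH270.Rec
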