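import Pool.Agent.TH270.Rec.Basic

set_option autoImplicit false

/-! Fourier coefficients with respect to an invariant mean: Bessel's inequality. -/

namespace Pool.Agent.TH270.Rec

open Filter Topology Set
open scoped Classical

/-- Fourier coefficient -/
noncomputable def fc (M : (ℕ → ℝ) → ℝ) (f : ℕ → ℂ) (z : Circle) : ℂ :=
  mc M (fun n => f n * (z : ℂ) ^ n)

lemma conj_char (z : Circle) (n : ℕ) :
    (starRingEnd ℂ) ((z : ℂ) ^ n) = ((z⁻¹ : Circle) : ℂ) ^ n := by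
  rw [map_pow, Circle.coe_inv_eq_conj]

set_option linter.unusedSectionVars false

variable {M : (ℕ → ℝ) → ℝ} (hM : IsMean M)

include hM

lemma IsMean.mc_char_mul (z w : Circle) :
    mc M (fun n => (z : ℂ) ^ n * (w : ℂ) ^ n) = if w = z⁻¹ then 1 else 0 := by
  have h1 : (fun n : ℕ => (z : ℂ) ^ n * (w : ℂ) ^ n) = fun n => ((z * w : Circle) : ℂ) ^ n := by
    funext n
    rw [Circle.coe_mul, mul_pow]
  rw [h1]
  split_ifs with h
  · rw [h, mul_inv_cancel]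
    simpa using hM.mc_const 1
  · apply hM.mc_char
    intro hzw
    apply h
    exact (eq_inv_of_mul_eq_one_right hzw)

/-- the trigonometric polynomial with the coefficients of `f` -/
noncomputable def trig (M : (ℕ → ℝ) → ℝ) (f : ℕ → ℂ) (Θ : Finset Circle) : ℕ → ℂ :=
  fun n => ∑ z ∈ Θ, fc M f z⁻¹ * (z : ℂ) ^ n

lemma IsMean.bddC_trig (f : ℕ → ℂ) (Θ : Finset Circle) : BddC (trig M f Θ) :=
  BddC.sum fun z _ => (BddC.char z).const_mul _

lemma IsMean.fc_trig (f : ℕ → ℂ) (Θ : Finset Circle) (w : Circle) :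
    fc M (trig M f Θ) w = if w⁻¹ ∈ Θ then fc M f w else 0 := by
  unfold fc trig
  have h1 : (fun n : ℕ => (∑ z ∈ Θ, fc M f z⁻¹ * (z : ℂ) ^ n) * (w : ℂ) ^ n) =
      fun n => ∑ z ∈ Θ, fc M f z⁻¹ * ((z : ℂ) ^ n * (w : ℂ) ^ n) := by
    funext n
    rw [Finset.sum_mul]
    exact Finset.sum_congr rfl fun z _ => by ring
  rw [h1, hM.mc_sum fun z _ => ((BddC.char z).mul (BddC.char w)).const_mul _]
  have h2 : ∀ z ∈ Θ, mc M (fun n => fc M f z⁻¹ * ((z : ℂ) ^ n * (w : ℂ) ^ n)) =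
      if w⁻¹ = z then fc M f w else 0 := by
    intro z _
    rw [hM.mc_smul _ ((BddC.char z).mul (BddC.char w)), hM.mc_char_mul]
    by_cases h : w = z⁻¹
    · rw [if_pos h, if_pos (by rw [h, inv_inv]), h, mul_one]
    · rw [if_neg h, if_neg (by rintro rfl; simp at h), mul_zero]
  rw [Finset.sum_congr rfl h2, Finset.sum_ite_eq]
  rfl

lemma IsMean.fc_sub_trig {f : ℕ → ℂ} (hf : BddC f) (Θ : Finset Circle) (w : Circle) :
    fc M (fun n => f n - trig M f Θ n) w = if w⁻¹ ∈ Θ then 0 else fc M f w := by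
  have h1 : fc M (fun n => f n - trig M f Θ n) w = fc M f w - fc M (trig M f Θ) w := by
    unfold fc
    rw [← hM.mc_sub (hf.mul (BddC.char w)) ((hM.bddC_trig f Θ).mul (BddC.char w))]
    congr 1
    funext n
    ring
  rw [h1, hM.fc_trig]
  split_ifs <;> simp

/-- `M (f * conj g)` for `g` the trigonometric polynomial of `f` -/
lemma IsMean.mc_mul_conj_trig {f h : ℕ → ℂ} (hh : BddC h) (Θ : Finset Circle) :
    mc M (fun n => h n * (starRingEnd ℂ) (trig M f Θ n)) =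
      ∑ z ∈ Θ, (starRingEnd ℂ) (fc M f z⁻¹) * fc M h z⁻¹ := by
  unfold trig
  have h1 : (fun n : ℕ => h n * (starRingEnd ℂ) (∑ z ∈ Θ, fc M f z⁻¹ * (z : ℂ) ^ n)) =
      fun n => ∑ z ∈ Θ, (starRingEnd ℂ) (fc M f z⁻¹) * (h n * ((z⁻¹ : Circle) : ℂ) ^ n) := by
    funext n
    rw [map_sum, Finset.mul_sum]
    refine Finset.sum_congr rfl fun z _ => ?_
    rw [map_mul, conj_char]
    ring
  rw [h1, hM.mc_sum fun z _ => (hh.mul (BddC.char _)).const_mul _]
  refine Finset.sum_congr rfl fun z _ => ?_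
  rw [hM.mc_smul _ (hh.mul (BddC.char _))]
  rfl

/-- Pythagoras / Bessel identity -/
lemma IsMean.bessel_eq {f : ℕ → ℂ} (hf : BddC f) (Θ : Finset Circle) :
    M (fun n => ‖f n - trig M f Θ n‖ ^ 2) = M (fun n => ‖f n‖ ^ 2) -
      ∑ z ∈ Θ, ‖fc M f z⁻¹‖ ^ 2 := by
  set g := trig M f Θ with hg
  have hgb : BddC g := hM.bddC_trig f Θ
  have key : ∀ a b : ℂ, ‖a - b‖ ^ 2 = (a * (starRingEnd ℂ) a - a * (starRingEnd ℂ) b
      - ((starRingEnd ℂ) (a * (starRingEnd ℂ) b) - b * (starRingEnd ℂ) b)).re := by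
    intro a b
    rw [← Complex.normSq_eq_norm_sq]
    simp only [Complex.normSq_apply, Complex.sub_re, Complex.sub_im, Complex.mul_re,
      Complex.mul_im, Complex.conj_re, Complex.conj_im]
    ring
  have key2 : ∀ a : ℂ, a * (starRingEnd ℂ) a = ((‖a‖ ^ 2 : ℝ) : ℂ) := by
    intro a
    rw [Complex.mul_conj, Complex.normSq_eq_norm_sq]
  have hff : BddC (fun n => f n * (starRingEnd ℂ) (f n)) := hf.mul hf.conj
  have hfg : BddC (fun n => f n * (starRingEnd ℂ) (g n)) := hf.mul hgb.conj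
  have hgg : BddC (fun n => g n * (starRingEnd ℂ) (g n)) := hgb.mul hgb.conj
  have h1 : M (fun n => ‖f n - g n‖ ^ 2) = (mc M (fun n => (f n * (starRingEnd ℂ) (f n) -
      f n * (starRingEnd ℂ) (g n)) - ((starRingEnd ℂ) (f n * (starRingEnd ℂ) (g n)) -
        g n * (starRingEnd ℂ) (g n)))).re := by
    rw [hM.mc_re]
    congr 1
    funext n
    exact key _ _
  rw [h1, hM.mc_sub (hff.sub hfg) (hfg.conj.sub hgg), hM.mc_sub hff hfg,
    hM.mc_sub hfg.conj hgg, hM.mc_conj hfg, hg, hM.mc_mul_conj_trig hf,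
    hM.mc_mul_conj_trig (hM.bddC_trig f Θ)]
  have h2 : ∀ z ∈ Θ, (starRingEnd ℂ) (fc M f z⁻¹) * fc M f z⁻¹ = ((‖fc M f z⁻¹‖ ^ 2 : ℝ) : ℂ) := by
    intro z _
    rw [mul_comm, key2]
  have h3 : ∀ z ∈ Θ, (starRingEnd ℂ) (fc M f z⁻¹) * fc M (trig M f Θ) z⁻¹ =
      ((‖fc M f z⁻¹‖ ^ 2 : ℝ) : ℂ) := by
    intro z hz
    rw [hM.fc_trig, inv_inv, if_pos hz, h2 z hz]
  rw [Finset.sum_congr rfl h2, Finset.sum_congr rfl h3, ← Complex.ofReal_sum, Complex.conj_ofReal,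
    sub_self, sub_zero]
  have h4 : mc M (fun n => f n * (starRingEnd ℂ) (f n)) = (M (fun n => ‖f n‖ ^ 2) : ℂ) := by
    rw [← hM.mc_ofReal]
    congr 1
    funext n
    exact key2 _
  rw [h4, ← Complex.ofReal_sub, Complex.ofReal_re]

lemma IsMean.bessel {f : ℕ → ℂ} (hf : BddC f) (Θ : Finset Circle) :
    ∑ z ∈ Θ, ‖fc M f z⁻¹‖ ^ 2 ≤ M (fun n => ‖f n‖ ^ 2) := by
  have h1 := hM.bessel_eq hf Θ
  have h2 := hM.nonneg (fun n => ‖f n - trig M f Θ n‖ ^ 2)
    (hf.sub (hM.bddC_trig f Θ)).normSq (fun n => by positivity)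
  linarith

lemma IsMean.summable_sq {f : ℕ → ℂ} (hf : BddC f) :
    Summable (fun z : Circle => ‖fc M f z⁻¹‖ ^ 2) :=
  summable_of_sum_le (fun z => by positivity) (fun Θ => hM.bessel hf Θ)

lemma IsMean.summable_sq' {f : ℕ → ℂ} (hf : BddC f) :
    Summable (fun z : Circle => ‖fc M f z‖ ^ 2) := by
  have := (Equiv.inv Circle).summable_iff.2 (hM.summable_sq hf)
  refine this.congr fun z => ?_
  simp

lemma IsMean.norm_fc_le {f : ℕ → ℂ} (hf : BddC f) (z : Circle) :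
    ‖fc M f z‖ ≤ M (fun n => ‖f n‖) := by
  refine (hM.norm_mc_le (hf.mul (BddC.char z))).trans (le_of_eq ?_)
  congr 1
  funext n
  rw [norm_mul, norm_pow, Circle.norm_coe, one_pow, mul_one]

omit hM in
/-- tails of products of square-summable families -/
lemma exists_tail {a b : Circle → ℝ} (ha : Summable fun z => a z ^ 2)
    (hb : Summable fun z => b z ^ 2) (ha0 : ∀ z, 0 ≤ a z) (hb0 : ∀ z, 0 ≤ b z)
    {ε : ℝ} (hε : 0 < ε) : ∃ Θ : Finset Circle, ∀ Θ' : Finset Circle, Disjoint Θ' Θ →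
      ∑ z ∈ Θ', a z * b z ≤ ε := by
  have hs : Summable fun z => a z * b z := by
    refine Summable.of_nonneg_of_le (fun z => mul_nonneg (ha0 z) (hb0 z)) (fun z => ?_)
      ((ha.add hb).mul_left (1 / 2))
    nlinarith [sq_nonneg (a z - b z)]
  obtain ⟨s, hs'⟩ := summable_iff_vanishing_norm.1 hs ε hε
  refine ⟨s, fun t ht => ?_⟩
  have h1 := hs' t ht
  exact (le_abs_self _).trans h1.le

end Pool.Agent.TH270.Rec
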