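import Pool.Agent.TH270.Rec.Defs

set_option autoImplicit false

/-! Nested construction of a reiteratively recurrent point of the product (job REC-D). -/

namespace Pool.Agent.TH270.Rec

open Filter Topology Set

open scoped Classical in
/-- the conclusion of the window lemma -/
def WindowLemma : Prop := ∀ (t t' : Set (Set ℕ)) (_ : OpenFam t) (_ : OpenFam t')
    (A B : Set ℕ) (_ : A ∈ t) (_ : A.Nonempty) (_ : B ∈ t') (_ : B.Nonempty),
    ∃ δ : ℝ, 0 < δ ∧ ∃ A₁ ⊆ A, ∃ B₁ ⊆ B, A₁ ∈ t ∧ A₁.Nonempty ∧ B₁ ∈ t' ∧ B₁.Nonempty ∧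
      ∀ O ⊆ A₁, ∀ O' ⊆ B₁, O ∈ t → O.Nonempty → O' ∈ t' → O'.Nonempty → ∀ N : ℕ,
        ∃ m ∈ O, ∃ m' ∈ O', ∃ w L : ℕ, N ≤ L ∧ 1 ≤ L ∧
          δ * L ≤ (((Finset.range L).filter fun h => m + w + h ∈ A ∧ m' + w + h ∈ B).card : ℝ)

namespace ProdPoint

/-- data of a level -/
structure Level where
  A : Set ℕ
  B : Set ℕ
  A1 : Set ℕ
  B1 : Set ℕ
  δ : ℝ

/-- the window property of a level -/
structure Level.Good (t t' : Set (Set ℕ)) (l : Level) : Prop where
  memA : l.A ∈ t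
  memB : l.B ∈ t'
  pos : 0 < l.δ
  win : ∀ O ⊆ l.A1, ∀ O' ⊆ l.B1, O ∈ t → O.Nonempty → O' ∈ t' → O'.Nonempty → ∀ N : ℕ,
    ∃ m ∈ O, ∃ m' ∈ O', ∃ w L : ℕ, N ≤ L ∧ 1 ≤ L ∧ ∃ F : Finset ℕ, F ⊆ Finset.range L ∧
      l.δ * L ≤ (F.card : ℝ) ∧ ∀ h ∈ F, m + w + h ∈ l.A ∧ m' + w + h ∈ l.B

/-- a long window of common returns for all members of the current pair of sets -/
def Level.Win (l : Level) (C D : Set ℕ) (k : ℕ) : Prop :=
  ∃ w L : ℕ, k ≤ L ∧ 1 ≤ L ∧ ∃ F : Finset ℕ, F ⊆ Finset.range L ∧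
    l.δ * L ≤ (F.card : ℝ) ∧ (∀ h ∈ F, ∀ j ∈ C, j + w + h ∈ l.A) ∧
      (∀ h ∈ F, ∀ j ∈ D, j + w + h ∈ l.B)

theorem Level.Win.mono {l : Level} {C D C' D' : Set ℕ} {k : ℕ} (h : l.Win C D k)
    (hC : C' ⊆ C) (hD : D' ⊆ D) : l.Win C' D' k := by
  obtain ⟨w, L, h1, h2, F, h3, h4, h5, h6⟩ := h
  exact ⟨w, L, h1, h2, F, h3, h4, fun h hh j hj => h5 h hh j (hC hj),
    fun h hh j hj => h6 h hh j (hD hj)⟩

theorem shift_mem {t : Set (Set ℕ)} (ht : OpenFam t) {A : Set ℕ} (hA : A ∈ t) (s : ℕ) :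
    {n | n + s ∈ A} ∈ t := by
  induction s with
  | zero => simpa using hA
  | succ s ih =>
    have := ht.shift _ ih
    convert this using 1
    ext n
    simp only [Set.mem_ofPred_eq]
    rw [show n + 1 + s = n + (s + 1) by ring]

theorem inter_shift_mem {t : Set (Set ℕ)} (ht : OpenFam t) {A O : Set ℕ} (hA : A ∈ t) (hO : O ∈ t)
    (w : ℕ) (F : Finset ℕ) : O ∩ {j | ∀ h ∈ F, j + w + h ∈ A} ∈ t := by
  classical
  induction F using Finset.induction_on with
  | empty =>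
    convert hO using 1
    ext j
    simp
  | insert a F ha ih =>
    have h1 := ht.inter _ _ ih (shift_mem ht hA (w + a))
    convert h1 using 1
    ext j
    simp only [Finset.mem_insert, forall_eq_or_imp, Set.mem_inter_iff, Set.mem_ofPred_eq]
    rw [show j + w + a = j + (w + a) by ring]
    tauto

theorem refine_list {t t' : Set (Set ℕ)} (ht : OpenFam t) (ht' : OpenFam t') (k : ℕ)
    (Ls : List Level) (hLs : ∀ l ∈ Ls, l.Good t t') {O O' : Set ℕ} (hO : O ∈ t) (hOn : O.Nonempty)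
    (hO' : O' ∈ t') (hOn' : O'.Nonempty) (hsub : ∀ l ∈ Ls, O ⊆ l.A1 ∧ O' ⊆ l.B1) :
    ∃ P ⊆ O, ∃ P' ⊆ O', P ∈ t ∧ P.Nonempty ∧ P' ∈ t' ∧ P'.Nonempty ∧
      ∀ l ∈ Ls, l.Win P P' k := by
  induction Ls with
  | nil => exact ⟨O, subset_rfl, O', subset_rfl, hO, hOn, hO', hOn', by simp⟩
  | cons l Ls ih =>
    obtain ⟨P, hP, P', hP', hPt, hPn, hPt', hPn', hw⟩ :=
      ih (fun l hl => hLs l (List.mem_cons_of_mem _ hl)) (fun l hl => hsub l (List.mem_cons_of_mem _ hl))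
    have hl := hLs l (List.mem_cons_self)
    have hs := hsub l (List.mem_cons_self)
    obtain ⟨m, hm, m', hm', w, L, hN, hL, F, hF, hc, hmem⟩ :=
      hl.win P (hP.trans hs.1) P' (hP'.trans hs.2) hPt hPn hPt' hPn' k
    refine ⟨P ∩ {j | ∀ h ∈ F, j + w + h ∈ l.A}, inter_subset_left.trans hP,
      P' ∩ {j | ∀ h ∈ F, j + w + h ∈ l.B}, inter_subset_left.trans hP',
      inter_shift_mem ht hl.memA hPt w F, ⟨m, hm, fun h hh => (hmem h hh).1⟩,
      inter_shift_mem ht' hl.memB hPt' w F, ⟨m', hm', fun h hh => (hmem h hh).2⟩, ?_⟩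
    intro l' hl'
    rcases List.mem_cons.1 hl' with rfl | hl'
    · exact ⟨w, L, hN, hL, F, hF, hc, fun h hh j hj => hj.2 h hh, fun h hh j hj => hj.2 h hh⟩
    · exact (hw l' hl').mono inter_subset_left inter_subset_left

/-- states of the construction -/
structure State (t t' : Set (Set ℕ)) where
  C : Set ℕ
  D : Set ℕ
  Ls : List Level
  memC : C ∈ t
  neC : C.Nonempty
  memD : D ∈ t'
  neD : D.Nonempty
  good : ∀ l ∈ Ls, l.Good t t'
  sub : ∀ l ∈ Ls, C ⊆ l.A1 ∧ D ⊆ l.B1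

/-- the relation between consecutive states -/
structure StepRel {t t' : Set (Set ℕ)} {X X' : Type*} [PseudoMetricSpace X] [PseudoMetricSpace X']
    (T : X → X) (x : X) (T' : X' → X') (x' : X') (k : ℕ) (S S' : State t t')
    (n n' : ℕ) (l : Level) : Prop where
  n_mem : n ∈ S.C
  n_mem' : n' ∈ S.D
  subC : S'.C ⊆ S.C
  subD : S'.D ⊆ S.D
  closeC : ∀ j ∈ S'.C, dist (T^[j] x) (T^[n] x) ≤ (1 / 2) ^ k
  closeD : ∀ j ∈ S'.D, dist (T'^[j] x') (T'^[n'] x') ≤ (1 / 2) ^ k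
  closeA : ∀ j ∈ l.A, dist (T^[j] x) (T^[n] x) ≤ (1 / 2) ^ k
  closeB : ∀ j ∈ l.B, dist (T'^[j] x') (T'^[n'] x') ≤ (1 / 2) ^ k
  list : S'.Ls = l :: S.Ls
  pos : 0 < l.δ
  win : ∀ l' ∈ S'.Ls, l'.Win S'.C S'.D k

theorem preimage_mem_orbFam {X : Type*} [TopologicalSpace X] {T : X → X} {x : X}
    {G : Set X} (hG : IsOpen G) : {n | T^[n] x ∈ G} ∈ orbFam T x := by
  intro n hn
  exact ⟨G, hG, hn, ∅, 1, one_pos, fun m hm _ => hm⟩

theorem exists_step (hW : WindowLemma)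
    {X X' : Type*} [PseudoMetricSpace X] [PseudoMetricSpace X'] {T : X → X} {T' : X' → X'}
    {x : X} {x' : X'} (ht : OpenFam (orbFam T x)) (ht' : OpenFam (orbFam T' x'))
    (k : ℕ) (S : State (orbFam T x) (orbFam T' x')) :
    ∃ (S' : State (orbFam T x) (orbFam T' x')) (n n' : ℕ) (l : Level),
      StepRel T x T' x' k S S' n n' l := by
  classical
  obtain ⟨n, hn⟩ := S.neC
  obtain ⟨n', hn'⟩ := S.neD
  have hpos : (0 : ℝ) < (1 / 2) ^ k := by positivity
  set A : Set ℕ := S.C ∩ {m | T^[m] x ∈ Metric.ball (T^[n] x) ((1 / 2) ^ k)} with hAdef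
  set B : Set ℕ := S.D ∩ {m | T'^[m] x' ∈ Metric.ball (T'^[n'] x') ((1 / 2) ^ k)} with hBdef
  have hA : A ∈ orbFam T x := ht.inter _ _ S.memC (preimage_mem_orbFam Metric.isOpen_ball)
  have hB : B ∈ orbFam T' x' := ht'.inter _ _ S.memD (preimage_mem_orbFam Metric.isOpen_ball)
  have hAn : A.Nonempty := ⟨n, hn, Metric.mem_ball_self hpos⟩
  have hBn : B.Nonempty := ⟨n', hn', Metric.mem_ball_self hpos⟩
  obtain ⟨δ, hδ, A1, hA1, B1, hB1, hA1t, hA1n, hB1t, hB1n, hwin⟩ :=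
    hW _ _ ht ht' A B hA hAn hB hBn
  set l : Level := ⟨A, B, A1, B1, δ⟩ with hl
  have hlg : l.Good (orbFam T x) (orbFam T' x') := by
    refine ⟨hA, hB, hδ, ?_⟩
    intro O hO O' hO' hOt hOn hOt' hOn' N
    obtain ⟨m, hm, m', hm', w, L, hN, hL, hc⟩ := hwin O hO O' hO' hOt hOn hOt' hOn' N
    refine ⟨m, hm, m', hm', w, L, hN, hL,
      (Finset.range L).filter (fun h => m + w + h ∈ A ∧ m' + w + h ∈ B),
      Finset.filter_subset _ _, ?_, ?_⟩
    · convert hc
    · intro h hh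
      exact (Finset.mem_filter.1 hh).2
  have hgood : ∀ l' ∈ l :: S.Ls, l'.Good (orbFam T x) (orbFam T' x') := by
    intro l' hl'
    rcases List.mem_cons.1 hl' with rfl | hl'
    · exact hlg
    · exact S.good l' hl'
  have hsub : ∀ l' ∈ l :: S.Ls, A1 ⊆ l'.A1 ∧ B1 ⊆ l'.B1 := by
    intro l' hl'
    rcases List.mem_cons.1 hl' with rfl | hl'
    · exact ⟨subset_rfl, subset_rfl⟩
    · have := S.sub l' hl'
      exact ⟨(hA1.trans inter_subset_left).trans this.1, (hB1.trans inter_subset_left).trans this.2⟩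
  obtain ⟨P, hP, P', hP', hPt, hPn, hPt', hPn', hw⟩ :=
    refine_list ht ht' k (l :: S.Ls) hgood hA1t hA1n hB1t hB1n hsub
  refine ⟨⟨P, P', l :: S.Ls, hPt, hPn, hPt', hPn', hgood, ?_⟩, n, n', l, ?_⟩
  · intro l' hl'
    exact ⟨hP.trans (hsub l' hl').1, hP'.trans (hsub l' hl').2⟩
  · refine ⟨hn, hn', ?_, ?_, ?_, ?_, ?_, ?_, rfl, hδ, hw⟩
    · exact (hP.trans hA1).trans inter_subset_left
    · exact (hP'.trans hB1).trans inter_subset_left
    · intro j hj
      exact (Metric.mem_ball.1 (hA1 (hP hj)).2).le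
    · intro j hj
      exact (Metric.mem_ball.1 (hB1 (hP' hj)).2).le
    · intro j hj
      exact (Metric.mem_ball.1 hj.2).le
    · intro j hj
      exact (Metric.mem_ball.1 hj.2).le

/-- the limit point of a nested sequence of orbit positions, with its approximation properties -/
theorem exists_limit {X : Type*} [PseudoMetricSpace X] [CompleteSpace X] {T : X → X} {x : X}
    {C : ℕ → Set ℕ} {n : ℕ → ℕ} (hn : ∀ k, n k ∈ C k) (hC : ∀ k, C (k + 1) ⊆ C k)
    (hcl : ∀ k, ∀ j ∈ C (k + 1), dist (T^[j] x) (T^[n k] x) ≤ (1 / 2) ^ k) :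
    ∃ y : X, Tendsto (fun k => T^[n k] x) atTop (𝓝 y) ∧
      ∀ k, dist y (T^[n k] x) ≤ (1 / 2) ^ k := by
  have hanti : Antitone C := antitone_nat_of_succ_le hC
  have hcauchy : CauchySeq (fun k => T^[n k] x) := by
    apply cauchySeq_of_le_geometric (1 / 2 : ℝ) 1 (by norm_num)
    intro k
    rw [dist_comm, one_mul]
    exact hcl k _ (hn (k + 1))
  obtain ⟨y, hy⟩ := cauchySeq_tendsto_of_complete hcauchy
  refine ⟨y, hy, fun k => ?_⟩
  refine le_of_tendsto (hy.dist tendsto_const_nhds) ?_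
  filter_upwards [eventually_ge_atTop (k + 1)] with j hj
  exact hcl k _ (hanti hj (hn j))

theorem dist_return {X : Type*} [PseudoMetricSpace X] {T : X → X} (hT : Continuous T) {x y : X}
    {C : ℕ → Set ℕ} {n : ℕ → ℕ} (hn : ∀ k, n k ∈ C k) (hC : ∀ k, C (k + 1) ⊆ C k)
    (hy : Tendsto (fun k => T^[n k] x) atTop (𝓝 y)) {i k : ℕ}
    (hyi : dist y (T^[n i] x) ≤ (1 / 2) ^ i) {A : Set ℕ}
    (hA : ∀ j ∈ A, dist (T^[j] x) (T^[n i] x) ≤ (1 / 2) ^ i) {w h : ℕ}
    (hret : ∀ j ∈ C k, j + w + h ∈ A) :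
    dist (T^[w + h] y) y ≤ 2 * (1 / 2) ^ i := by
  have hanti : Antitone C := antitone_nat_of_succ_le hC
  have h1 : Tendsto (fun j => T^[w + h] (T^[n j] x)) atTop (𝓝 (T^[w + h] y)) :=
    ((hT.iterate (w + h)).tendsto y).comp hy
  have h2 : dist (T^[w + h] y) (T^[n i] x) ≤ (1 / 2) ^ i := by
    refine le_of_tendsto (h1.dist tendsto_const_nhds) ?_
    filter_upwards [eventually_ge_atTop k] with j hj
    rw [← Function.iterate_add_apply]
    refine hA _ ?_
    rw [show w + h + n j = n j + w + h by ring]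
    exact hret _ (hanti hj (hn j))
  calc dist (T^[w + h] y) y ≤ dist (T^[w + h] y) (T^[n i] x) + dist (T^[n i] x) y :=
        dist_triangle _ _ _
    _ ≤ (1 / 2) ^ i + (1 / 2) ^ i := by
        rw [dist_comm (T^[n i] x) y]
        exact add_le_add h2 hyi
    _ = 2 * (1 / 2) ^ i := by ring

end ProdPoint

open ProdPoint

theorem exists_prod_RR (hW : WindowLemma)
    {X X' : Type*} [PseudoMetricSpace X] [CompleteSpace X]
    [PseudoMetricSpace X'] [CompleteSpace X'] {T : X → X} (hT : Continuous T) {T' : X' → X'}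
    (hT' : Continuous T') {x : X} {x' : X'}
    (ht : OpenFam (orbFam T x)) (ht' : OpenFam (orbFam T' x')) {U : Set X}
    (hU : IsOpen U) (hxU : x ∈ U) {V : Set X'} (hV : IsOpen V) (hxV : x' ∈ V) :
    ∃ y ∈ U, ∃ y' ∈ V, RR (Prod.map T T') (y, y') := by
  classical
  obtain ⟨r, hr, hrU⟩ := Metric.nhds_basis_closedBall.mem_iff.1 (hU.mem_nhds hxU)
  obtain ⟨r', hr', hrV⟩ := Metric.nhds_basis_closedBall.mem_iff.1 (hV.mem_nhds hxV)
  let S0 : State (orbFam T x) (orbFam T' x') :=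
    { C := {n | T^[n] x ∈ Metric.ball x r}
      D := {n | T'^[n] x' ∈ Metric.ball x' r'}
      Ls := []
      memC := preimage_mem_orbFam Metric.isOpen_ball
      neC := ⟨0, by simpa using hr⟩
      memD := preimage_mem_orbFam Metric.isOpen_ball
      neD := ⟨0, by simpa using hr'⟩
      good := by simp
      sub := by simp }
  choose f g g' lv hstep using fun k S => exists_step hW ht ht' k S
  let S : ℕ → State (orbFam T x) (orbFam T' x') := fun k => Nat.rec S0 (fun k S => f k S) k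
  have hS : ∀ k, S (k + 1) = f k (S k) := fun k => rfl
  have hR : ∀ k, StepRel T x T' x' k (S k) (S (k + 1)) (g k (S k)) (g' k (S k)) (lv k (S k)) := by
    intro k
    rw [hS]
    exact hstep k (S k)
  set n : ℕ → ℕ := fun k => g k (S k) with hndef
  set n' : ℕ → ℕ := fun k => g' k (S k) with hndef'
  set l : ℕ → Level := fun k => lv k (S k) with hldef
  have hR' : ∀ k, StepRel T x T' x' k (S k) (S (k + 1)) (n k) (n' k) (l k) := hR
  have hn : ∀ k, n k ∈ (S k).C := fun k => (hR' k).n_mem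
  have hn' : ∀ k, n' k ∈ (S k).D := fun k => (hR' k).n_mem'
  have hC : ∀ k, (S (k + 1)).C ⊆ (S k).C := fun k => (hR' k).subC
  have hD : ∀ k, (S (k + 1)).D ⊆ (S k).D := fun k => (hR' k).subD
  obtain ⟨y, hy, hyc⟩ := exists_limit (T := T) (x := x) (C := fun k => (S k).C) hn hC
    (fun k => (hR' k).closeC)
  obtain ⟨y', hy', hyc'⟩ := exists_limit (T := T') (x := x') (C := fun k => (S k).D) hn' hD
    (fun k => (hR' k).closeD)
  have hantiC : Antitone fun k => (S k).C := antitone_nat_of_succ_le hC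
  have hantiD : Antitone fun k => (S k).D := antitone_nat_of_succ_le hD
  have hyU : y ∈ U := by
    apply hrU
    refine Metric.isClosed_closedBall.mem_of_tendsto hy (Eventually.of_forall fun k => ?_)
    exact Metric.ball_subset_closedBall (hantiC (Nat.zero_le k) (hn k))
  have hyV : y' ∈ V := by
    apply hrV
    refine Metric.isClosed_closedBall.mem_of_tendsto hy' (Eventually.of_forall fun k => ?_)
    exact Metric.ball_subset_closedBall (hantiD (Nat.zero_le k) (hn' k))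
  refine ⟨y, hyU, y', hyV, ?_⟩
  -- membership of levels in later lists
  have hlist : ∀ i k, i < k → l i ∈ (S k).Ls := by
    intro i k hik
    induction k with
    | zero => omega
    | succ k ih =>
      rw [(hR' k).list]
      rcases Nat.lt_succ_iff_lt_or_eq.1 hik with h | h
      · exact List.mem_cons_of_mem _ (ih h)
      · subst h
        exact List.mem_cons_self
  intro G hG hyG
  obtain ⟨ε, hε, hεG⟩ := Metric.isOpen_iff.1 hG _ hyG
  obtain ⟨i, hi⟩ : ∃ i : ℕ, 2 * (1 / 2 : ℝ) ^ i < ε := by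
    obtain ⟨i, hi⟩ := exists_pow_lt_of_lt_one (half_pos hε) (by norm_num : (1 / 2 : ℝ) < 1)
    exact ⟨i, by linarith⟩
  refine ⟨(l i).δ, (hR' i).pos, fun N => ?_⟩
  set k := max N (i + 1) with hk
  have hwin := (hR' k).win (l i) (hlist i (k + 1) (by omega))
  obtain ⟨w, L, hkL, hL, F, hF, hc, hFC, hFD⟩ := hwin
  refine ⟨w, L, by omega, hL, hc.trans ?_⟩
  have hsub : F ⊆ (Finset.range L).filter
      fun h => w + h ∈ {n : ℕ | (Prod.map T T')^[n] (y, y') ∈ G} := by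
    intro h hh
    refine Finset.mem_filter.2 ⟨hF hh, ?_⟩
    have h1 := dist_return hT (C := fun k => (S k).C) hn hC hy (hyc i) (hR' i).closeA
      (k := k + 1) (fun j hj => hFC h hh j hj)
    have h2 := dist_return hT' (C := fun k => (S k).D) hn' hD hy' (hyc' i) (hR' i).closeB
      (k := k + 1) (fun j hj => hFD h hh j hj)
    show (Prod.map T T')^[w + h] (y, y') ∈ G
    rw [Prod.map_iterate]
    apply hεG
    rw [Metric.mem_ball, Prod.dist_eq]
    exact max_lt (h1.trans_lt hi) (h2.trans_lt hi)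
  have := Finset.card_le_card hsub
  have h3 : (F.card : ℝ) ≤ (((Finset.range L).filter
      fun h => w + h ∈ {n : ℕ | (Prod.map T T')^[n] (y, y') ∈ G}).card : ℝ) := by
    exact_mod_cast this
  convert h3

end Pool.Agent.TH270.Rec
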