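import Pool.Agent.TH270.Rec.ProdPoint

set_option autoImplicit false

/-! Variant of the nested construction with countably many additional open conditions on the first
coordinate. -/

namespace Pool.Agent.TH270.Rec

open Filter Topology Set

namespace ProdPoint

/-- the relation between consecutive states -/
structure StepRel2 {t t' : Set (Set ℕ)} {X X' : Type*} [PseudoMetricSpace X] [PseudoMetricSpace X']
    (T : X → X) (x : X) (T' : X' → X') (x' : X') (E : ℕ → Set X) (k : ℕ) (S S' : State t t')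
    (n n' : ℕ) (l : Level) : Prop where
  n_mem : n ∈ S.C
  n_mem' : n' ∈ S.D
  subC : S'.C ⊆ S.C
  subD : S'.D ⊆ S.D
  closeC : ∀ j ∈ S'.C, dist (T^[j] x) (T^[n] x) ≤ (1 / 2) ^ k
  closeD : ∀ j ∈ S'.D, dist (T'^[j] x') (T'^[n'] x') ≤ (1 / 2) ^ k
  closeA : ∀ j ∈ l.A, dist (T^[j] x) (T^[n] x) ≤ (1 / 2) ^ k
  closeB : ∀ j ∈ l.B, dist (T'^[j] x') (T'^[n'] x') ≤ (1 / 2) ^ k
  list : S'.Ls = l :: S.Ls
  pos : 0 < l.δ
  inE : ∃ r : ℝ, Metric.closedBall (T^[n] x) r ⊆ E k ∧
    ∀ j ∈ S'.C, dist (T^[j] x) (T^[n] x) ≤ r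
  win : ∀ l' ∈ S'.Ls, l'.Win S'.C S'.D k

theorem exists_step2 (hW : WindowLemma)
    {X X' : Type*} [PseudoMetricSpace X] [PseudoMetricSpace X'] {T : X → X} {T' : X' → X'}
    {x : X} {x' : X'} (ht : OpenFam (orbFam T x)) (ht' : OpenFam (orbFam T' x'))
    {E : ℕ → Set X} (hE : ∀ i, IsOpen (E i)) (hxE : ∀ i n, T^[n] x ∈ E i)
    (k : ℕ) (S : State (orbFam T x) (orbFam T' x')) :
    ∃ (S' : State (orbFam T x) (orbFam T' x')) (n n' : ℕ) (l : Level),
      StepRel2 T x T' x' E k S S' n n' l := by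
  classical
  obtain ⟨n, hn⟩ := S.neC
  obtain ⟨n', hn'⟩ := S.neD
  have hpos : (0 : ℝ) < (1 / 2) ^ k := by positivity
  obtain ⟨r0, hr0, hr0E⟩ := Metric.nhds_basis_closedBall.mem_iff.1 ((hE k).mem_nhds (hxE k n))
  have hρ : 0 < min ((1 / 2 : ℝ) ^ k) r0 := lt_min hpos hr0
  set A : Set ℕ := S.C ∩ {m | T^[m] x ∈ Metric.ball (T^[n] x) (min ((1 / 2) ^ k) r0)} with hAdef
  set B : Set ℕ := S.D ∩ {m | T'^[m] x' ∈ Metric.ball (T'^[n'] x') ((1 / 2) ^ k)} with hBdef
  have hA : A ∈ orbFam T x := ht.inter _ _ S.memC (preimage_mem_orbFam Metric.isOpen_ball)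
  have hB : B ∈ orbFam T' x' := ht'.inter _ _ S.memD (preimage_mem_orbFam Metric.isOpen_ball)
  have hAn : A.Nonempty := ⟨n, hn, Metric.mem_ball_self hρ⟩
  have hBn : B.Nonempty := ⟨n', hn', Metric.mem_ball_self hpos⟩
  obtain ⟨δ, hδ, A1, hA1, B1, hB1, hA1t, hA1n, hB1t, hB1n, hwin⟩ :=
    hW _ _ ht ht' A B hA hAn hB hBn
  set l : Level := ⟨A, B, A1, B1, δ⟩ with hl
  have hlg : l.Good (orbFam T x) (orbFam T' x') := by
    refine ⟨hA, hB, hδ, ?_⟩
    intro O hO O' hO' hOt hOn hOt' hOn' N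
    obtain ⟨m, hm, m', hm', w, L, hN, hL, hc⟩ := hwin O hO O' hO' hOt hOn hOt' hOn' N
    refine ⟨m, hm, m', hm', w, L, hN, hL,
      (Finset.range L).filter (fun h => m + w + h ∈ A ∧ m' + w + h ∈ B),
      Finset.filter_subset _ _, ?_, ?_⟩
    · convert hc
    · intro h hh
      exact (Finset.mem_filter.1 hh).2
  have hgood : ∀ l' ∈ l :: S.Ls, l'.Good (orbFam T x) (orbFam T' x') := by
    intro l' hl'
    rcases List.mem_cons.1 hl' with rfl | hl'
    · exact hlg
    · exact S.good l' hl'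
  have hsub : ∀ l' ∈ l :: S.Ls, A1 ⊆ l'.A1 ∧ B1 ⊆ l'.B1 := by
    intro l' hl'
    rcases List.mem_cons.1 hl' with rfl | hl'
    · exact ⟨subset_rfl, subset_rfl⟩
    · have := S.sub l' hl'
      exact ⟨(hA1.trans inter_subset_left).trans this.1, (hB1.trans inter_subset_left).trans this.2⟩
  obtain ⟨P, hP, P', hP', hPt, hPn, hPt', hPn', hw⟩ :=
    refine_list ht ht' k (l :: S.Ls) hgood hA1t hA1n hB1t hB1n hsub
  refine ⟨⟨P, P', l :: S.Ls, hPt, hPn, hPt', hPn', hgood, ?_⟩, n, n', l, ?_⟩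
  · intro l' hl'
    exact ⟨hP.trans (hsub l' hl').1, hP'.trans (hsub l' hl').2⟩
  · refine ⟨hn, hn', ?_, ?_, ?_, ?_, ?_, ?_, rfl, hδ, ⟨r0, hr0E, ?_⟩, hw⟩
    · exact (hP.trans hA1).trans inter_subset_left
    · exact (hP'.trans hB1).trans inter_subset_left
    · intro j hj
      exact (Metric.mem_ball.1 (hA1 (hP hj)).2).le.trans (min_le_left _ _)
    · intro j hj
      exact (Metric.mem_ball.1 (hB1 (hP' hj)).2).le
    · intro j hj
      exact (Metric.mem_ball.1 hj.2).le.trans (min_le_left _ _)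
    · intro j hj
      exact (Metric.mem_ball.1 hj.2).le
    · intro j hj
      exact (Metric.mem_ball.1 (hA1 (hP hj)).2).le.trans (min_le_right _ _)

end ProdPoint

open ProdPoint

theorem exists_prod_RR2 (hW : WindowLemma)
    {X X' : Type*} [PseudoMetricSpace X] [CompleteSpace X]
    [PseudoMetricSpace X'] [CompleteSpace X'] {T : X → X} (hT : Continuous T) {T' : X' → X'}
    (hT' : Continuous T') {x : X} {x' : X'}
    (ht : OpenFam (orbFam T x)) (ht' : OpenFam (orbFam T' x'))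
    {E : ℕ → Set X} (hE : ∀ i, IsOpen (E i)) (hxE : ∀ i n, T^[n] x ∈ E i) {U : Set X}
    (hU : IsOpen U) (hxU : x ∈ U) {V : Set X'} (hV : IsOpen V) (hxV : x' ∈ V) :
    ∃ y ∈ U, ∃ y' ∈ V, RR (Prod.map T T') (y, y') ∧ ∀ i, y ∈ E i := by
  classical
  obtain ⟨r, hr, hrU⟩ := Metric.nhds_basis_closedBall.mem_iff.1 (hU.mem_nhds hxU)
  obtain ⟨r', hr', hrV⟩ := Metric.nhds_basis_closedBall.mem_iff.1 (hV.mem_nhds hxV)
  let S0 : State (orbFam T x) (orbFam T' x') :=
    { C := {n | T^[n] x ∈ Metric.ball x r}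
      D := {n | T'^[n] x' ∈ Metric.ball x' r'}
      Ls := []
      memC := preimage_mem_orbFam Metric.isOpen_ball
      neC := ⟨0, by simpa using hr⟩
      memD := preimage_mem_orbFam Metric.isOpen_ball
      neD := ⟨0, by simpa using hr'⟩
      good := by simp
      sub := by simp }
  choose f g g' lv hstep using fun k S => exists_step2 hW ht ht' hE hxE k S
  let S : ℕ → State (orbFam T x) (orbFam T' x') := fun k => Nat.rec S0 (fun k S => f k S) k
  have hS : ∀ k, S (k + 1) = f k (S k) := fun k => rfl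
  have hR : ∀ k, StepRel2 T x T' x' E k (S k) (S (k + 1)) (g k (S k)) (g' k (S k)) (lv k (S k)) := by
    intro k
    rw [hS]
    exact hstep k (S k)
  set n : ℕ → ℕ := fun k => g k (S k) with hndef
  set n' : ℕ → ℕ := fun k => g' k (S k) with hndef'
  set l : ℕ → Level := fun k => lv k (S k) with hldef
  have hR' : ∀ k, StepRel2 T x T' x' E k (S k) (S (k + 1)) (n k) (n' k) (l k) := hR
  have hn : ∀ k, n k ∈ (S k).C := fun k => (hR' k).n_mem
  have hn' : ∀ k, n' k ∈ (S k).D := fun k => (hR' k).n_mem'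
  have hC : ∀ k, (S (k + 1)).C ⊆ (S k).C := fun k => (hR' k).subC
  have hD : ∀ k, (S (k + 1)).D ⊆ (S k).D := fun k => (hR' k).subD
  obtain ⟨y, hy, hyc⟩ := exists_limit (T := T) (x := x) (C := fun k => (S k).C) hn hC
    (fun k => (hR' k).closeC)
  obtain ⟨y', hy', hyc'⟩ := exists_limit (T := T') (x := x') (C := fun k => (S k).D) hn' hD
    (fun k => (hR' k).closeD)
  have hantiC : Antitone fun k => (S k).C := antitone_nat_of_succ_le hC
  have hantiD : Antitone fun k => (S k).D := antitone_nat_of_succ_le hD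
  have hyU : y ∈ U := by
    apply hrU
    refine Metric.isClosed_closedBall.mem_of_tendsto hy (Eventually.of_forall fun k => ?_)
    exact Metric.ball_subset_closedBall (hantiC (Nat.zero_le k) (hn k))
  have hyV : y' ∈ V := by
    apply hrV
    refine Metric.isClosed_closedBall.mem_of_tendsto hy' (Eventually.of_forall fun k => ?_)
    exact Metric.ball_subset_closedBall (hantiD (Nat.zero_le k) (hn' k))
  refine ⟨y, hyU, y', hyV, ?_, fun i => ?_⟩
  swap
  · obtain ⟨r, hrE, hr⟩ := (hR' i).inE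
    apply hrE
    refine Metric.isClosed_closedBall.mem_of_tendsto hy ?_
    filter_upwards [eventually_ge_atTop (i + 1)] with j hj
    exact hr _ (hantiC hj (hn j))
  -- membership of levels in later lists
  have hlist : ∀ i k, i < k → l i ∈ (S k).Ls := by
    intro i k hik
    induction k with
    | zero => omega
    | succ k ih =>
      rw [(hR' k).list]
      rcases Nat.lt_succ_iff_lt_or_eq.1 hik with h | h
      · exact List.mem_cons_of_mem _ (ih h)
      · subst h
        exact List.mem_cons_self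
  intro G hG hyG
  obtain ⟨ε, hε, hεG⟩ := Metric.isOpen_iff.1 hG _ hyG
  obtain ⟨i, hi⟩ : ∃ i : ℕ, 2 * (1 / 2 : ℝ) ^ i < ε := by
    obtain ⟨i, hi⟩ := exists_pow_lt_of_lt_one (half_pos hε) (by norm_num : (1 / 2 : ℝ) < 1)
    exact ⟨i, by linarith⟩
  refine ⟨(l i).δ, (hR' i).pos, fun N => ?_⟩
  set k := max N (i + 1) with hk
  have hwin := (hR' k).win (l i) (hlist i (k + 1) (by omega))
  obtain ⟨w, L, hkL, hL, F, hF, hc, hFC, hFD⟩ := hwin
  refine ⟨w, L, by omega, hL, hc.trans ?_⟩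
  have hsub : F ⊆ (Finset.range L).filter
      fun h => w + h ∈ {n : ℕ | (Prod.map T T')^[n] (y, y') ∈ G} := by
    intro h hh
    refine Finset.mem_filter.2 ⟨hF hh, ?_⟩
    have h1 := dist_return hT (C := fun k => (S k).C) hn hC hy (hyc i) (hR' i).closeA
      (k := k + 1) (fun j hj => hFC h hh j hj)
    have h2 := dist_return hT' (C := fun k => (S k).D) hn' hD hy' (hyc' i) (hR' i).closeB
      (k := k + 1) (fun j hj => hFD h hh j hj)
    show (Prod.map T T')^[w + h] (y, y') ∈ G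
    rw [Prod.map_iterate]
    apply hεG
    rw [Metric.mem_ball, Prod.dist_eq]
    exact max_lt (h1.trans_lt hi) (h2.trans_lt hi)
  have := Finset.card_le_card hsub
  have h3 : (F.card : ℝ) ≤ (((Finset.range L).filter
      fun h => w + h ∈ {n : ℕ | (Prod.map T T')^[n] (y, y') ∈ G}).card : ℝ) := by
    exact_mod_cast this
  convert h3

end Pool.Agent.TH270.Rec
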