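import Pool.Agent.TH270.Rec.Ext

set_option autoImplicit false

/-! Sequences all of whose finite subfamilies are jointly reiteratively recurrent. -/

namespace Pool.Agent.TH270.Rec

open Filter Topology Set
open scoped Classical

variable {X : Type*}

/-- the diagonal map on `X^k` -/
def SS (T : X → X) (k : ℕ) : (Fin k → X) → (Fin k → X) := fun w j => T (w j)

/-- the first `k` terms of a sequence -/
def restr (k : ℕ) (z : ℕ → X) : Fin k → X := fun j => z j

lemma SS_iterate (T : X → X) (k n : ℕ) (w : Fin k → X) (j : Fin k) :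
    (SS T k)^[n] w j = T^[n] (w j) := by
  induction n with
  | zero => rfl
  | succ n ih => rw [Function.iterate_succ_apply', Function.iterate_succ_apply', ← ih]; rfl

lemma continuous_SS [TopologicalSpace X] {T : X → X} (hT : Continuous T) (k : ℕ) :
    Continuous (SS T k) := continuous_pi fun j => hT.comp (continuous_apply j)

section metric

variable [PseudoMetricSpace X]

/-- times at which the first `n` terms are all `ρ`-close to `c` -/
def Ret (T : X → X) (n : ℕ) (c : ℕ → X) (ρ : ℝ) (z : ℕ → X) : Set ℕ :=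
  {m | ∀ j < n, dist (T^[m] (z j)) (c j) < ρ}

/-- a return condition -/
structure Cond (X : Type*) where
  n : ℕ
  c : ℕ → X
  ρ : ℝ
  δ : ℝ

lemma isOpen_box (k n : ℕ) (c : ℕ → X) (ρ : ℝ) :
    IsOpen {w : Fin k → X | ∀ j : Fin k, (j : ℕ) < n → dist (w j) (c j) < ρ} := by
  have : {w : Fin k → X | ∀ j : Fin k, (j : ℕ) < n → dist (w j) (c j) < ρ} =
      ⋂ j : Fin k, {w : Fin k → X | (j : ℕ) < n → dist (w j) (c j) < ρ} := by
    ext w; simp
  rw [this]
  refine isOpen_iInter_of_finite fun j => ?_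
  by_cases h : (j : ℕ) < n
  · simp only [h, true_imp_iff]
    exact isOpen_lt ((continuous_apply j).dist continuous_const) continuous_const
  · simp only [h, false_imp_iff, Set.ofPred_true]
    exact isOpen_univ

lemma ret_eq (T : X → X) {k n : ℕ} (hn : n ≤ k) (c : ℕ → X) (ρ : ℝ) (z : ℕ → X) :
    {m | (SS T k)^[m] (restr k z) ∈
      {w : Fin k → X | ∀ j : Fin k, (j : ℕ) < n → dist (w j) (c j) < ρ}} = Ret T n c ρ z := by
  ext m
  simp only [Set.mem_ofPred_eq, SS_iterate, restr, Ret]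
  constructor
  · intro h j hj
    exact h ⟨j, by omega⟩ hj
  · intro h j hj
    exact h j hj

lemma RR.restr_mono {T : X → X} {k n : ℕ} (hn : n ≤ k) {z : ℕ → X}
    (h : RR (SS T k) (restr k z)) : RR (SS T n) (restr n z) := by
  have h1 : Continuous (fun (w : Fin k → X) (j : Fin n) => w (Fin.castLE hn j)) :=
    continuous_pi fun j => continuous_apply _
  exact RR.factor (S' := SS T n) h1 (fun p => rfl) h

/-- one step: add one coordinate -/
lemma seq_step [CompleteSpace X] {T : X → X} (hT : Continuous T) {z : ℕ → X} {k : ℕ}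
    (h : RR (SS T k) (restr k z)) (hk : RR T (z k)) (cs : Finset (Cond X))
    (hn : ∀ c ∈ cs, c.n ≤ k) (hc : ∀ c ∈ cs, GE (Ret T c.n c.c c.ρ z) c.δ) {r : ℝ} (hr : 0 < r) :
    ∃ z' : ℕ → X, (∀ j, dist (z' j) (z j) < r) ∧ (∀ j, k < j → z' j = z j) ∧
      RR (SS T (k + 1)) (restr (k + 1) z') ∧ ∀ c ∈ cs, GE (Ret T c.n c.c c.ρ z') c.δ := by
  obtain ⟨y, hy, y', hy', h1, h2⟩ := ext_two (continuous_SS hT k) hT h hk cs
    (fun c => {w : Fin k → X | ∀ j : Fin k, (j : ℕ) < c.n → dist (w j) (c.c j) < c.ρ})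
    (fun c => c.δ) (fun c _ => isOpen_box k c.n c.c c.ρ)
    (fun c hcs => by rw [ret_eq T (hn c hcs)]; exact hc c hcs)
    (U := Metric.ball (restr k z) r) Metric.isOpen_ball (Metric.mem_ball_self hr)
    (V := Metric.ball (z k) r) Metric.isOpen_ball (Metric.mem_ball_self hr)
  set z' : ℕ → X := fun j => if hj : j < k then y ⟨j, hj⟩ else if j = k then y' else z j with hz'
  have hz1 : ∀ j (hj : j < k), z' j = y ⟨j, hj⟩ := fun j hj => by simp only [hz', dif_pos hj]
  have hz2 : z' k = y' := by simp [hz']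
  have hz3 : ∀ j, k < j → z' j = z j := fun j hj => by
    simp only [hz', dif_neg (show ¬ j < k by omega), if_neg (show ¬ j = k by omega)]
  refine ⟨z', fun j => ?_, hz3, ?_, fun c hcs => ?_⟩
  · rcases lt_trichotomy j k with hj | hj | hj
    · rw [hz1 j hj]
      exact (dist_le_pi_dist y (restr k z) ⟨j, hj⟩).trans_lt hy
    · subst hj
      rw [hz2]
      exact hy'
    · rw [hz3 j hj, dist_self]
      exact hr
  · set f : (Fin k → X) × X → (Fin (k + 1) → X) := fun p j =>
      if hj : (j : ℕ) < k then p.1 ⟨j, hj⟩ else p.2 with hf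
    have hfc : Continuous f := by
      refine continuous_pi fun j => ?_
      by_cases hj : (j : ℕ) < k
      · simp only [hf, dif_pos hj]
        exact (continuous_apply _).comp continuous_fst
      · simp only [hf, dif_neg hj]
        exact continuous_snd
    have hfS : ∀ p, f (Prod.map (SS T k) T p) = SS T (k + 1) (f p) := by
      intro p
      funext j
      by_cases hj : (j : ℕ) < k
      · simp [hf, SS, hj]
      · simp [hf, SS, hj]
    have h3 := RR.factor hfc hfS h1
    have h4 : f (y, y') = restr (k + 1) z' := by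
      funext j
      by_cases hj : (j : ℕ) < k
      · simp only [hf, restr, dif_pos hj]
        rw [hz1 j hj]
      · have : (j : ℕ) = k := by have := j.2; omega
        simp only [hf, restr, dif_neg hj]
        rw [this, hz2]
    rw [← h4]
    exact h3
  · have h5 := h2 c hcs
    have h6 : y = restr k z' := by
      funext j
      show y j = z' j
      rw [hz1 j j.2]
    rw [h6, ret_eq T (hn c hcs)] at h5
    exact h5

/-- a long window of returns -/
def Win (T : X → X) (k : ℕ) (c : Cond X) (w : ℕ → X) : Prop :=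
  ∃ a L : ℕ, k ≤ L ∧ 1 ≤ L ∧ ∃ F : Finset ℕ, F ⊆ Finset.range L ∧
    c.δ / 2 * L ≤ (F.card : ℝ) ∧ ∀ h ∈ F, a + h ∈ Ret T c.n c.c c.ρ w

lemma win_nhd {T : X → X} (hT : Continuous T) {z : ℕ → X} {c : Cond X}
    (hδ : 0 < c.δ) (h : GE (Ret T c.n c.c c.ρ z) c.δ) (k : ℕ) :
    ∃ r : ℝ, 0 < r ∧ ∀ w : ℕ → X, (∀ j, dist (w j) (z j) ≤ r) → Win T k c w := by
  obtain ⟨a, L, hN, hL, F, hF, hc, hm⟩ := h (c.δ / 2) (half_pos hδ) k
  have hopen : IsOpen {w : Fin c.n → X | ∀ h ∈ F, ∀ j : Fin c.n,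
      dist (T^[a + h] (w j)) (c.c j) < c.ρ} := by
    have : {w : Fin c.n → X | ∀ h ∈ F, ∀ j : Fin c.n, dist (T^[a + h] (w j)) (c.c j) < c.ρ} =
        ⋂ h ∈ F, ⋂ j : Fin c.n, {w : Fin c.n → X | dist (T^[a + h] (w j)) (c.c j) < c.ρ} := by
      ext w; simp
    rw [this]
    refine isOpen_biInter_finset fun h _ => isOpen_iInter_of_finite fun j => ?_
    exact isOpen_lt (((hT.iterate _).comp (continuous_apply j)).dist continuous_const)
      continuous_const
  have hmem : restr c.n z ∈ {w : Fin c.n → X | ∀ h ∈ F, ∀ j : Fin c.n,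
      dist (T^[a + h] (w j)) (c.c j) < c.ρ} := fun h hh j => hm h hh j j.2
  obtain ⟨r, hr, hrsub⟩ := Metric.nhds_basis_closedBall.mem_iff.1 (hopen.mem_nhds hmem)
  refine ⟨r, hr, fun w hw => ⟨a, L, hN, hL, F, hF, ?_, fun h hh => ?_⟩⟩
  · convert hc using 2
    ring
  · have h1 : restr c.n w ∈ Metric.closedBall (restr c.n z) r := by
      rw [Metric.mem_closedBall, dist_pi_le_iff hr.le]
      exact fun j => hw j
    exact fun j hj => hrsub h1 h hh ⟨j, hj⟩

lemma exists_common {κ : Type*} (s : Finset κ) (P : κ → ℝ → Prop)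
    (hmono : ∀ c r r', r' ≤ r → P c r → P c r') (h : ∀ c ∈ s, ∃ r : ℝ, 0 < r ∧ P c r) :
    ∃ r : ℝ, 0 < r ∧ ∀ c ∈ s, P c r := by
  induction s using Finset.induction_on with
  | empty => exact ⟨1, one_pos, by simp⟩
  | insert a s ha ih =>
    obtain ⟨r, hr, hP⟩ := ih fun c hc => h c (Finset.mem_insert_of_mem hc)
    obtain ⟨r', hr', hP'⟩ := h a (Finset.mem_insert_self a s)
    refine ⟨min r r', lt_min hr hr', fun c hc => ?_⟩
    rcases Finset.mem_insert.1 hc with rfl | hc
    · exact hmono _ _ _ (min_le_right _ _) hP'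
    · exact hmono _ _ _ (min_le_left _ _) (hP c hc)

/-- states of the construction -/
structure St (T : X → X) (x : ℕ → X) (k : ℕ) where
  z : ℕ → X
  r : ℝ
  cs : Finset (Cond X)
  hr : 0 < r
  hrk : r ≤ (1 / 2) ^ k
  rr : RR (SS T k) (restr k z)
  tail : ∀ j, k ≤ j → z j = x j
  nle : ∀ c ∈ cs, c.n ≤ k
  pos : ∀ c ∈ cs, 0 < c.δ
  ge : ∀ c ∈ cs, GE (Ret T c.n c.c c.ρ z) c.δ
  win : ∀ c ∈ cs, ∀ w : ℕ → X, (∀ j, dist (w j) (z j) ≤ r) → Win T k c w
  new : ∀ n ≤ k, ∃ c ∈ cs, c.n = n ∧ c.c = z ∧ c.ρ = (1 / 2) ^ k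

lemma mk_state {T : X → X} (hT : Continuous T) (x : ℕ → X) (k : ℕ) (z : ℕ → X)
    (hz : RR (SS T k) (restr k z)) (tail : ∀ j, k ≤ j → z j = x j) (cs : Finset (Cond X))
    (nle : ∀ c ∈ cs, c.n ≤ k) (pos : ∀ c ∈ cs, 0 < c.δ)
    (ge : ∀ c ∈ cs, GE (Ret T c.n c.c c.ρ z) c.δ) {r0 : ℝ} (hr0 : 0 < r0) :
    ∃ S : St T x k, S.z = z ∧ S.r ≤ r0 ∧ cs ⊆ S.cs := by
  have hδ : ∀ n : ℕ, ∃ δ : ℝ, n ≤ k → 0 < δ ∧ GE (Ret T n z ((1 / 2) ^ k) z) δ := by
    intro n
    by_cases hn : n ≤ k
    · have h1 := RR.restr_mono hn hz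
      have h2 := (h1 _ (isOpen_box n n z ((1 / 2) ^ k)) (by
        intro j _
        show dist (z j) (z j) < _
        rw [dist_self]
        positivity)).exists_ge
      obtain ⟨δ, hδ, h3⟩ := h2
      rw [ret_eq T le_rfl] at h3
      exact ⟨δ, fun _ => ⟨hδ, h3⟩⟩
    · exact ⟨0, fun h => absurd h hn⟩
  choose δ hδ using hδ
  set new : Finset (Cond X) := (Finset.range (k + 1)).image
    fun n => (⟨n, z, (1 / 2) ^ k, δ n⟩ : Cond X) with hnew
  have hnew' : ∀ c ∈ new, c.n ≤ k ∧ 0 < c.δ ∧ GE (Ret T c.n c.c c.ρ z) c.δ := by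
    intro c hc
    rw [hnew, Finset.mem_image] at hc
    obtain ⟨n, hn, rfl⟩ := hc
    have hn' : n ≤ k := by rw [Finset.mem_range] at hn; omega
    exact ⟨hn', hδ n hn'⟩
  have hall : ∀ c ∈ cs ∪ new, c.n ≤ k ∧ 0 < c.δ ∧ GE (Ret T c.n c.c c.ρ z) c.δ := by
    intro c hc
    rcases Finset.mem_union.1 hc with hc | hc
    · exact ⟨nle c hc, pos c hc, ge c hc⟩
    · exact hnew' c hc
  obtain ⟨r1, hr1, hwin⟩ := exists_common (cs ∪ new)
    (fun c r => ∀ w : ℕ → X, (∀ j, dist (w j) (z j) ≤ r) → Win T k c w)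
    (fun c r r' hrr' h w hw => h w fun j => (hw j).trans hrr')
    (fun c hc => win_nhd hT (hall c hc).2.1 (hall c hc).2.2 k)
  refine ⟨⟨z, min r1 (min r0 ((1 / 2) ^ k)), cs ∪ new, lt_min hr1 (lt_min hr0 (by positivity)),
    (min_le_right _ _).trans (min_le_right _ _), hz, tail, fun c hc => (hall c hc).1,
    fun c hc => (hall c hc).2.1, fun c hc => (hall c hc).2.2,
    fun c hc w hw => hwin c hc w fun j => (hw j).trans (min_le_left _ _), fun n hn => ?_⟩, rfl,
    (min_le_right _ _).trans (min_le_left _ _), Finset.subset_union_left⟩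
  refine ⟨⟨n, z, (1 / 2) ^ k, δ n⟩, Finset.mem_union_right _ ?_, rfl, rfl, rfl⟩
  rw [hnew, Finset.mem_image]
  exact ⟨n, Finset.mem_range.2 (by omega), rfl⟩

lemma exists_next [CompleteSpace X] {T : X → X} (hT : Continuous T) {x : ℕ → X}
    (hx : ∀ j, RR T (x j)) (k : ℕ) (S : St T x k) : ∃ S' : St T x (k + 1),
      (∀ j, dist (S'.z j) (S.z j) ≤ S.r / 2) ∧ S'.r ≤ S.r / 2 ∧ S.cs ⊆ S'.cs := by
  obtain ⟨z', h1, h2, h3, h4⟩ := seq_step hT S.rr (by rw [S.tail k le_rfl]; exact hx k) S.cs S.nle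
    S.ge (half_pos S.hr)
  obtain ⟨S', hz, hr, hcs⟩ := mk_state hT x (k + 1) z' h3
    (fun j hj => by rw [h2 j (by omega), S.tail j (by omega)]) S.cs
    (fun c hc => (S.nle c hc).trans (Nat.le_succ k)) S.pos h4 (half_pos S.hr)
  exact ⟨S', fun j => by rw [hz]; exact (h1 j).le, hr, hcs⟩

/-- For every sequence of reiteratively recurrent points `x j` there is a sequence `v j` with
`dist (v j) (x j) ≤ 2^(-j)` all of whose initial segments are jointly reiteratively recurrent. -/
theorem exists_seq [CompleteSpace X] {T : X → X} (hT : Continuous T) {x : ℕ → X}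
    (hx : ∀ j, RR T (x j)) : ∃ v : ℕ → X, (∀ j, dist (v j) (x j) ≤ (1 / 2) ^ j) ∧
      ∀ n, RR (SS T n) (restr n v) := by
  obtain ⟨S0, hS0⟩ := mk_state hT x 0 x (by
    intro G _ hG
    convert posBD_univ using 1
    rw [Set.eq_univ_iff_forall]
    intro m
    have : (SS T 0)^[m] (restr 0 x) = restr 0 x := by
      funext j; exact j.elim0
    show (SS T 0)^[m] (restr 0 x) ∈ G
    rw [this]; exact hG) (fun _ _ => rfl) ∅ (by simp) (by simp) (by simp) one_pos
  choose f hf1 hf2 hf3 using fun k S => exists_next hT hx k S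
  let S : ∀ k, St T x k := fun k => Nat.rec S0 (fun k S => f k S) k
  have hS : ∀ k, S (k + 1) = f k (S k) := fun k => rfl
  have hd : ∀ k j, dist ((S (k + 1)).z j) ((S k).z j) ≤ (S k).r / 2 := fun k j => by
    rw [hS]; exact hf1 k (S k) j
  have hr : ∀ k, (S (k + 1)).r ≤ (S k).r / 2 := fun k => by rw [hS]; exact hf2 k (S k)
  have hcs : ∀ k, (S k).cs ⊆ (S (k + 1)).cs := fun k => by
    have := hf3 k (S k); rwa [← hS] at this
  have hcs' : ∀ i k, i ≤ k → (S i).cs ⊆ (S k).cs := by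
    intro i k hik
    induction k, hik using Nat.le_induction with
    | base => exact subset_rfl
    | succ k _ ih => exact ih.trans (hcs k)
  -- distances
  have hdist : ∀ k m j, dist ((S (k + m)).z j) ((S k).z j) ≤ (S k).r - (S (k + m)).r := by
    intro k m j
    induction m with
    | zero => simp
    | succ m ih =>
      calc dist ((S (k + (m + 1))).z j) ((S k).z j)
          ≤ dist ((S (k + m + 1)).z j) ((S (k + m)).z j) + dist ((S (k + m)).z j) ((S k).z j) :=
            dist_triangle _ _ _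
        _ ≤ (S (k + m)).r / 2 + ((S k).r - (S (k + m)).r) := add_le_add (hd _ _) ih
        _ ≤ (S k).r - (S (k + (m + 1))).r := by
            have := hr (k + m)
            show _ ≤ (S k).r - (S (k + m + 1)).r
            linarith
  have hcauchy : ∀ j, CauchySeq fun k => (S k).z j := by
    intro j
    apply cauchySeq_of_le_geometric (1 / 2 : ℝ) 1 (by norm_num)
    intro k
    rw [dist_comm, one_mul]
    have h1 := hd k j
    have h2 := (S k).hrk
    have h3 := (S k).hr
    linarith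
  choose v hv using fun j => cauchySeq_tendsto_of_complete (hcauchy j)
  have hvd : ∀ k j, dist (v j) ((S k).z j) ≤ (S k).r := by
    intro k j
    refine le_of_tendsto ((hv j).dist tendsto_const_nhds) ?_
    filter_upwards [eventually_ge_atTop k] with m hm
    obtain ⟨m', rfl⟩ := Nat.exists_eq_add_of_le hm
    have h1 := hdist k m' j
    have h2 := (S (k + m')).hr
    linarith
  refine ⟨v, fun j => ?_, fun n => ?_⟩
  · have h1 := hvd j j
    rw [(S j).tail j le_rfl] at h1
    exact h1.trans (S j).hrk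
  · intro G hG hvG
    obtain ⟨ε, hε, hεG⟩ := Metric.isOpen_iff.1 hG _ hvG
    obtain ⟨i0, hi0⟩ := exists_pow_lt_of_lt_one (half_pos hε) (by norm_num : (1 / 2 : ℝ) < 1)
    set i := max i0 n with hi
    have hi1 : (1 / 2 : ℝ) ^ i < ε / 2 :=
      lt_of_le_of_lt (pow_le_pow_of_le_one (by norm_num) (by norm_num) (le_max_left _ _)) hi0
    obtain ⟨c, hc, hcn, hcc, hcρ⟩ := (S i).new n (le_max_right _ _)
    refine ⟨c.δ / 2, half_pos ((S i).pos c hc), fun N => ?_⟩
    have h1 := (S (max N i)).win c (hcs' i _ (le_max_right _ _) hc) v (hvd _)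
    obtain ⟨a, L, hkL, hL, F, hF, hcard, hret⟩ := h1
    refine ⟨a, L, (le_max_left _ _).trans hkL, hL, hcard.trans ?_⟩
    have hsub : F ⊆ (Finset.range L).filter fun h => a + h ∈ {m : ℕ | (SS T n)^[m] (restr n v) ∈ G} := by
      intro h hh
      refine Finset.mem_filter.2 ⟨hF hh, ?_⟩
      show (SS T n)^[a + h] (restr n v) ∈ G
      apply hεG
      rw [Metric.mem_ball, dist_pi_lt_iff hε]
      intro j
      rw [SS_iterate]
      have h2 := hret h hh j (by rw [hcn]; exact j.2)
      rw [hcc, hcρ] at h2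
      have h3 := hvd i j
      have h4 := (S i).hrk
      calc dist (T^[a + h] (v j)) (v j) ≤ dist (T^[a + h] (v j)) ((S i).z j) +
            dist ((S i).z j) (v j) := dist_triangle _ _ _
        _ < (1 / 2) ^ i + (1 / 2) ^ i := by
            rw [dist_comm ((S i).z j)]
            exact add_lt_add_of_lt_of_le h2 (h3.trans h4)
        _ < ε := by linarith
    exact_mod_cast Finset.card_le_card hsub

end metric

end Pool.Agent.TH270.Rec
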