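import Pool.Agent.TH270.Rec.Core
import Pool.Agent.TH270.Rec.ErgMean
import Pool.Agent.TH270.Rec.ProdPoint

set_option autoImplicit false

/-! The window lemma. -/

namespace Pool.Agent.TH270.Rec

open Filter Topology Set
open scoped Classical

lemma OpenFam.finInter {t : Set (Set ℕ)} (ht : OpenFam t) {ι : Type*} (s : Finset ι)
    (f : ι → Set ℕ) (hf : ∀ i ∈ s, f i ∈ t) : {n | ∀ i ∈ s, n ∈ f i} ∈ t := by
  induction s using Finset.induction_on with
  | empty =>
    convert ht.univ using 1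
    ext n
    simp
  | insert a s ha ih =>
    have h1 := ht.inter _ _ (hf a (Finset.mem_insert_self a s))
      (ih fun i hi => hf i (Finset.mem_insert_of_mem hi))
    convert h1 using 1
    ext n
    simp

lemma OpenFam.shiftk {t : Set (Set ℕ)} (ht : OpenFam t) {A : Set ℕ} (hA : A ∈ t) (k : ℕ) :
    {n | n + k ∈ A} ∈ t := by
  induction k with
  | zero => simpa using hA
  | succ k ih =>
    have h1 := ht.shift _ ih
    convert h1 using 1
    ext n
    simp only [Set.mem_ofPred_eq]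
    rw [show n + (k + 1) = n + 1 + k by ring]

lemma OpenFam.bohr {t : Set (Set ℕ)} (ht : OpenFam t) (Θ : Finset Circle) (n0 : ℕ) (η : ℝ) :
    {n : ℕ | ∀ z ∈ Θ, ‖(z : ℂ) ^ n - (z : ℂ) ^ n0‖ < η} ∈ t :=
  ht.finInter Θ (fun z => {n : ℕ | ‖(z : ℂ) ^ n - (z : ℂ) ^ n0‖ < η}) fun z _ => ht.char z _ η

lemma norm_inv_pow_sub (z : Circle) (m n : ℕ) :
    ‖((z⁻¹ : Circle) : ℂ) ^ m - ((z⁻¹ : Circle) : ℂ) ^ n‖ = ‖(z : ℂ) ^ m - (z : ℂ) ^ n‖ := by
  rw [← conj_char, ← conj_char, ← map_sub, RCLike.norm_conj]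

/-- the window lemma -/
theorem window_lemma : WindowLemma := by
  intro t t' ht ht' A B hA hAne hB hBne
  obtain ⟨MA, hMA, hα⟩ := exists_erg A (ht.pos A hA hAne)
  obtain ⟨MB, hMB, hβ⟩ := exists_erg B (ht'.pos B hB hBne)
  set α := MA (ind A) with hαd
  set β := MB (ind B) with hβd
  have hα1 : α ≤ 1 := hMA.mean.ind_le_one A
  have hβ1 : β ≤ 1 := hMB.mean.ind_le_one B
  have hαβ : 0 < α * β := mul_pos hα hβ
  set ε : ℝ := α * β / 32 with hεd
  have hε : 0 < ε := by positivity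
  obtain ⟨Θ00, hΘ00⟩ := exists_tail (a := fun z => ‖fc MA (indC A) z⁻¹‖)
    (b := fun z => ‖fc MB (indC B) z‖) (hMA.mean.summable_sq (bddC_indC A))
    (hMB.mean.summable_sq' (bddC_indC B)) (fun z => norm_nonneg _) (fun z => norm_nonneg _) hε
  set Θ0 : Finset Circle := insert 1 Θ00 with hΘ0
  have hΘ0t : ∀ Θ' : Finset Circle, Disjoint Θ' Θ0 →
      ∑ z ∈ Θ', ‖fc MA (indC A) z⁻¹‖ * ‖fc MB (indC B) z‖ ≤ ε := fun Θ' h =>
    hΘ00 Θ' (h.mono_right (Finset.subset_insert _ _))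
  obtain ⟨n0, hn0, n0', hn0', hR⟩ := coarse hMA.mean hMB.mean hα hβ
    (Θ := Θ0) (Finset.mem_insert_self _ _)
  set η : ℝ := α * β / (64 * ((Θ0.card : ℝ) + 1)) with hηd
  have hη : 0 < η := by positivity
  have hηc : 4 * (Θ0.card : ℝ) * η ≤ α * β / 16 := by
    have h1 : ((Θ0.card : ℝ) + 1) * η = α * β / 64 := by
      rw [hηd]
      field_simp
    nlinarith
  refine ⟨α * β / 8, by positivity, A ∩ {n : ℕ | ∀ z ∈ Θ0, ‖(z : ℂ) ^ n - (z : ℂ) ^ n0‖ < η},
    inter_subset_left, B ∩ {n : ℕ | ∀ z ∈ Θ0, ‖(z : ℂ) ^ n - (z : ℂ) ^ n0'‖ < η},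
    inter_subset_left, ht.inter _ _ hA (ht.bohr _ _ _), ⟨n0, hn0, fun z _ => by simpa using hη⟩,
    ht'.inter _ _ hB (ht'.bohr _ _ _), ⟨n0', hn0', fun z _ => by simpa using hη⟩, ?_⟩
  intro O hO O' hO' hOt hOne hO't hO'ne N
  obtain ⟨MO, hMO, hπ⟩ := exists_erg O (ht.pos O hOt hOne)
  set π := MO (ind O) with hπd
  obtain ⟨ΘP0, hΘP0⟩ := exists_tail (a := fun z => ‖fc MA (indC A) z⁻¹‖)
    (b := fun z => ‖fc MO (indC O) z‖) (hMA.mean.summable_sq (bddC_indC A))
    (hMO.mean.summable_sq' (bddC_indC O)) (fun z => norm_nonneg _) (fun z => norm_nonneg _)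
    (show 0 < ε * π by positivity)
  set ΘP : Finset Circle := Θ0 ∪ ΘP0 with hΘP
  have h01 : Θ0 ⊆ ΘP := Finset.subset_union_left
  set ε1 : ℝ := ε / ((ΘP.card : ℝ) + 1) with hε1d
  have hε1 : 0 < ε1 := by positivity
  have hcard : (ΘP.card : ℝ) * ε1 ≤ ε := by
    rw [hε1d, mul_div_assoc', div_le_iff₀ (by positivity)]
    nlinarith
  obtain ⟨n1, hn1⟩ := hO'ne
  obtain ⟨L, c, hNL, hL1, hwin⟩ := exists_window hMB B ΘP hε1 N n1
  have hLpos : (0 : ℝ) < L := by exact_mod_cast hL1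
  set bt : ℕ → ℝ := fun h => ind B (n1 + c + h) with hbt
  set Q : Set ℕ := O' ∩ {k | ∀ h ∈ (Finset.range L).filter (fun h => n1 + c + h ∈ B),
    k ∈ {k | k + (c + h) ∈ B}} with hQ
  have hQt : Q ∈ t' := ht'.inter _ _ hO't
    (ht'.finInter _ (fun h => {k | k + (c + h) ∈ B}) fun h _ => ht'.shiftk hB (c + h))
  have hQne : Q.Nonempty := by
    refine ⟨n1, hn1, fun h hh => ?_⟩
    show n1 + (c + h) ∈ B
    rw [← add_assoc]
    exact (Finset.mem_filter.1 hh).2
  obtain ⟨MQ, hMQ, hηQ⟩ := exists_erg Q (ht'.pos Q hQt hQne)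
  set φ : ℕ → ℝ := acor MQ Q with hφ
  have hb0 : 0 < MA φ := hMQ.mean_acor_pos hηQ hMA.mean
  have hφ0 : ∀ y, 0 ≤ φ y := hMQ.mean.acor_nonneg Q
  have hφ1 : ∀ y, φ y ≤ 1 := hMQ.mean.acor_le_one Q
  have hφb : Bdd φ := hMQ.mean.bdd_acor Q
  have hφC : BddC (fun y => (φ y : ℂ)) := BddC.ofReal hφb
  have hn1η : ∀ z ∈ Θ0, ‖(z : ℂ) ^ n1 - (z : ℂ) ^ n0'‖ < η := (hO' hn1).2
  -- window coefficients
  have hCz : ∀ z ∈ ΘP, ‖(L : ℂ)⁻¹ * ∑ h ∈ Finset.range L, (bt h : ℂ) * (z : ℂ) ^ (c + h) -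
      ((z⁻¹ : Circle) : ℂ) ^ n1 * fc MB (indC B) z‖ < ε1 := by
    intro z hz
    have h1 := hwin z hz
    have h2 : (L : ℂ)⁻¹ * ∑ h ∈ Finset.range L, (bt h : ℂ) * (z : ℂ) ^ (c + h) -
      ((z⁻¹ : Circle) : ℂ) ^ n1 * fc MB (indC B) z = ((z⁻¹ : Circle) : ℂ) ^ n1 *
        ((L : ℂ)⁻¹ * ∑ h ∈ Finset.range L, indC B (n1 + c + h) * (z : ℂ) ^ (n1 + c + h) -
          fc MB (indC B) z) := by
      rw [mul_sub, mul_left_comm, Finset.mul_sum (a := ((z⁻¹ : Circle) : ℂ) ^ n1)]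
      congr 2
      refine Finset.sum_congr rfl fun h _ => ?_
      have h3 : ((z⁻¹ : Circle) : ℂ) ^ n1 * (z : ℂ) ^ n1 = 1 := by
        rw [← mul_pow, ← Circle.coe_mul, inv_mul_cancel, Circle.coe_one, one_pow]
      rw [show (z : ℂ) ^ (n1 + c + h) = (z : ℂ) ^ n1 * (z : ℂ) ^ (c + h) by
        rw [← pow_add, add_assoc]]
      calc (bt h : ℂ) * (z : ℂ) ^ (c + h) = indC B (n1 + c + h) * (z : ℂ) ^ (c + h) := rfl
        _ = (((z⁻¹ : Circle) : ℂ) ^ n1 * (z : ℂ) ^ n1) *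
            (indC B (n1 + c + h) * (z : ℂ) ^ (c + h)) := by rw [h3, one_mul]
        _ = _ := by ring
    rw [h2, norm_mul, norm_pow, Circle.norm_coe, one_pow, one_mul]
    exact h1
  have hcore := core hMA hMO.mean (A := A) (O := O) (φ := φ) hφ0 hφ1 hb0 hπ
    (b := fun z => fc MB (indC B) z) (fun z => (hMB.mean.norm_fc_indC_le B z).trans hβ1)
    (Θ0 := Θ0) (ΘP := ΘP) h01 (ε := ε) (ε1 := ε1) (η := η) (r := α * β / 2) hε hη.le hε1.le
    (n0 := n0) (n0' := n0') (L := L) (c := c) hL1 (β := bt) (fun h => ind_nonneg B _)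
    (fun h => ind_le_one B _)
    (fun Θ' h => hΘP0 Θ' (h.mono_right Finset.subset_union_right))
    (hΘ0t _ Finset.sdiff_disjoint) hcard
    (fun z hz => by
      have h1 := hCz z hz
      have h2 : ‖((z⁻¹ : Circle) : ℂ) ^ n1 * fc MB (indC B) z‖ = ‖fc MB (indC B) z‖ := by
        rw [norm_mul, norm_pow, Circle.norm_coe, one_pow, one_mul]
      have h3 := norm_le_norm_add_norm_sub
        (((z⁻¹ : Circle) : ℂ) ^ n1 * fc MB (indC B) z)
        ((L : ℂ)⁻¹ * ∑ h ∈ Finset.range L, (bt h : ℂ) * (z : ℂ) ^ (c + h))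
      rw [h2, norm_sub_rev (((z⁻¹ : Circle) : ℂ) ^ n1 * fc MB (indC B) z)] at h3
      linarith)
    (fun z hz => by
      have h1 := hCz z (h01 hz)
      have h2 : ‖((z⁻¹ : Circle) : ℂ) ^ n1 * fc MB (indC B) z -
          ((z⁻¹ : Circle) : ℂ) ^ n0' * fc MB (indC B) z‖ ≤ η := by
        rw [← sub_mul, norm_mul, norm_inv_pow_sub]
        calc _ ≤ η * 1 := mul_le_mul (hn1η z hz).le
              ((hMB.mean.norm_fc_indC_le B z).trans hβ1) (norm_nonneg _) hη.le
          _ = η := mul_one η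
      have h3 := norm_sub_le_norm_sub_add_norm_sub
        ((L : ℂ)⁻¹ * ∑ h ∈ Finset.range L, (bt h : ℂ) * (z : ℂ) ^ (c + h))
        (((z⁻¹ : Circle) : ℂ) ^ n1 * fc MB (indC B) z)
        (((z⁻¹ : Circle) : ℂ) ^ n0' * fc MB (indC B) z)
      linarith)
    (fun z hz => by
      have h1 : fc MO (indC O) z - (MO (ind O) : ℝ) * (z : ℂ) ^ n0 =
          mc MO (fun m => indC O m * ((z : ℂ) ^ m - (z : ℂ) ^ n0)) := by
        have h2 : ((MO (ind O) : ℝ) : ℂ) * (z : ℂ) ^ n0 =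
            mc MO (fun m => (z : ℂ) ^ n0 * indC O m) := by
          rw [hMO.mean.mc_smul _ (bddC_indC O)]
          have : mc MO (indC O) = ((MO (ind O) : ℝ) : ℂ) := hMO.mean.mc_ofReal (ind O)
          rw [this]
          ring
        rw [h2]
        unfold fc
        rw [← hMO.mean.mc_sub ((bddC_indC O).mul (BddC.char z)) ((bddC_indC O).const_mul _)]
        congr 1
        funext m
        ring
      rw [h1]
      have h4 : MO (ind O) * η = MO (fun m => η * ind O m) := by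
        rw [hMO.mean.smul' _ (bdd_ind O)]
        ring
      rw [h4]
      have h5 : BddC (fun m => indC O m * ((z : ℂ) ^ m - (z : ℂ) ^ n0)) :=
        (bddC_indC O).mul ((BddC.char z).sub (BddC.const _))
      refine (hMO.mean.norm_mc_le h5).trans ?_
      refine hMO.mean.mono h5.norm ((bdd_ind O).const_mul _) fun m => ?_
      rw [norm_mul, norm_indC]
      by_cases hm : m ∈ O
      · rw [ind_mem hm, one_mul, mul_one]
        exact ((hO hm).2 z hz).le
      · have : ind O m = 0 := by unfold ind; rw [if_neg hm]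
        rw [this]; simp)
    (fun z hz => by
      have h1 : fc MA (fun y => (φ y : ℂ)) z - (MA φ : ℝ) =
          mc MA (fun y => (φ y : ℂ) * ((z : ℂ) ^ y - 1)) := by
        rw [← hMA.mean.mc_ofReal φ]
        unfold fc
        rw [← hMA.mean.mc_sub (hφC.mul (BddC.char z)) hφC]
        congr 1
        funext m
        ring
      rw [h1]
      have h4 : 2 * η * MA φ = MA (fun y => (2 * η) * φ y) := by
        rw [hMA.mean.smul' _ hφb]
      rw [h4]
      have h5 : BddC (fun y => (φ y : ℂ) * ((z : ℂ) ^ y - 1)) :=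
        hφC.mul ((BddC.char z).sub (BddC.const _))
      refine (hMA.mean.norm_mc_le h5).trans ?_
      refine hMA.mean.mono h5.norm (hφb.const_mul _) fun y => ?_
      rw [norm_mul, Complex.norm_real, Real.norm_of_nonneg (hφ0 y), mul_comm (2 * η)]
      rcases (hφ0 y).lt_or_eq with hy | hy
      · apply mul_le_mul_of_nonneg_left _ (hφ0 y)
        obtain ⟨k, hk, hky⟩ := hMQ.mean.exists_of_acor_pos hy
        have g1 := (hO' hk.1).2 z hz
        have g2 := (hO' hky.1).2 z hz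
        have g3 : ‖(z : ℂ) ^ y - 1‖ = ‖(z : ℂ) ^ (k + y) - (z : ℂ) ^ k‖ := by
          have : (z : ℂ) ^ (k + y) - (z : ℂ) ^ k = (z : ℂ) ^ k * ((z : ℂ) ^ y - 1) := by
            rw [pow_add]; ring
          rw [this, norm_mul, norm_pow, Circle.norm_coe, one_pow, one_mul]
        rw [g3]
        have g4 := norm_sub_le_norm_sub_add_norm_sub ((z : ℂ) ^ (k + y)) ((z : ℂ) ^ n0')
          ((z : ℂ) ^ k)
        rw [norm_sub_rev ((z : ℂ) ^ n0')] at g4
        linarith
      · rw [← hy]; simp)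
    hR
  set K : ℕ → ℝ := fun x => (L : ℝ)⁻¹ * ∑ h ∈ Finset.range L, bt h * ind A (x + c + h) with hK
  have hKb : Bdd K := (Bdd.sum fun h _ => ((bdd_ind A).comp (fun x => x + c + h)).const_mul _).const_mul _
  have hKb' : ∀ m, Bdd (fun y => φ y * K (y + m)) := fun m => hφb.mul (hKb.comp _)
  set Ψ : ℕ → ℝ := fun m => MA (fun y => φ y * K (y + m)) with hΨ
  have hΨb : Bdd Ψ := by
    obtain ⟨D, hD⟩ := hKb
    refine ⟨D, fun m => ?_⟩
    have hpt : ∀ y, |φ y * K (y + m)| ≤ D := by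
      intro y
      rw [abs_mul, abs_of_nonneg (hφ0 y)]
      have hD0 : 0 ≤ D := (abs_nonneg _).trans (hD 0)
      calc φ y * |K (y + m)| ≤ 1 * D := mul_le_mul (hφ1 y) (hD _) (abs_nonneg _) zero_le_one
        _ = D := one_mul D
    rw [abs_le]
    exact ⟨hMA.mean.ge_of_ge (hKb' m) fun y => (abs_le.1 (hpt y)).1,
      hMA.mean.le_of_le (hKb' m) fun y => (abs_le.1 (hpt y)).2⟩
  have hcore' : π * MA φ * (α * β / 2 - 4 * (Θ0.card : ℝ) * η - 5 * ε) ≤
      MO (fun m => ind O m * Ψ m) := hcore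
  have hbig : π * MA φ * (α * β / 8) < MO (fun m => ind O m * Ψ m) := by
    refine lt_of_lt_of_le ?_ hcore'
    apply mul_lt_mul_of_pos_left _ (mul_pos hπ hb0)
    rw [hεd]
    linarith
  -- a good m
  obtain ⟨m, hmO, hm⟩ : ∃ m ∈ O, MA φ * (α * β / 8) < Ψ m := by
    by_contra hcon
    push Not at hcon
    have h1 : MO (fun m => ind O m * Ψ m) ≤ MO (fun m => (MA φ * (α * β / 8)) * ind O m) := by
      refine hMO.mean.mono ((bdd_ind O).mul hΨb) ((bdd_ind O).const_mul _) fun m => ?_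
      by_cases hm : m ∈ O
      · rw [ind_mem hm, one_mul, mul_one]
        exact hcon m hm
      · have : ind O m = 0 := by unfold ind; rw [if_neg hm]
        rw [this]; simp
    rw [hMO.mean.smul' _ (bdd_ind O)] at h1
    have : MA φ * (α * β / 8) * MO (ind O) = π * MA φ * (α * β / 8) := by ring
    linarith
  -- a good y
  have h2 : 0 < MA (fun y => φ y * K (y + m) - (α * β / 8) * φ y) := by
    rw [hMA.mean.sub' (hKb' m) (hφb.const_mul _), hMA.mean.smul' _ hφb]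
    have : MA φ * (α * β / 8) = α * β / 8 * MA φ := by ring
    show 0 < Ψ m - α * β / 8 * MA φ
    linarith
  obtain ⟨y, hy⟩ := hMA.mean.exists_gt ((hKb' m).sub (hφb.const_mul _)) h2
  have hy' : 0 < φ y * (K (y + m) - α * β / 8) := by
    calc 0 < φ y * K (y + m) - (α * β / 8) * φ y := hy
      _ = _ := by ring
  have hφy : 0 < φ y := by
    rcases (hφ0 y).lt_or_eq with h | h
    · exact h
    · rw [← h, zero_mul] at hy'
      exact absurd hy' (lt_irrefl _)
  have hKy : α * β / 8 < K (y + m) := by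
    have := (mul_pos_iff_of_pos_left hφy).1 hy'
    linarith
  obtain ⟨k, hkQ, hkyQ⟩ := hMQ.mean.exists_of_acor_pos hφy
  refine ⟨m, hmO, k, hkQ.1, y + c, L, hNL, hL1, ?_⟩
  have h3 : (L : ℝ) * K (y + m) = ∑ h ∈ Finset.range L, bt h * ind A (y + m + c + h) := by
    simp only [hK]
    rw [← mul_assoc, mul_inv_cancel₀ hLpos.ne', one_mul]
  have h4 : ∑ h ∈ Finset.range L, bt h * ind A (y + m + c + h) ≤
      (((Finset.range L).filter fun h => m + (y + c) + h ∈ A ∧ k + (y + c) + h ∈ B).card : ℝ) := by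
    rw [Finset.card_filter]
    push_cast
    refine Finset.sum_le_sum fun h hh => ?_
    by_cases g1 : n1 + c + h ∈ B
    · by_cases g2 : y + m + c + h ∈ A
      · have g3 : m + (y + c) + h ∈ A := by
          rwa [show m + (y + c) + h = y + m + c + h by ring]
        have g4 : k + (y + c) + h ∈ B := by
          have := hkyQ.2 h (Finset.mem_filter.2 ⟨hh, g1⟩)
          have g5 : k + y + (c + h) ∈ B := this
          rwa [show k + (y + c) + h = k + y + (c + h) by ring]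
        rw [if_pos ⟨g3, g4⟩]
        calc bt h * ind A (y + m + c + h) ≤ 1 * 1 :=
              mul_le_mul (ind_le_one B _) (ind_le_one A _) (ind_nonneg A _) zero_le_one
          _ = 1 := one_mul 1
      · have : ind A (y + m + c + h) = 0 := by unfold ind; rw [if_neg g2]
        rw [this, mul_zero]
        split_ifs <;> norm_num
    · have : bt h = 0 := by simp only [hbt]; unfold ind; rw [if_neg g1]
      rw [this, zero_mul]
      split_ifs <;> norm_num
  calc α * β / 8 * (L : ℝ) = (L : ℝ) * (α * β / 8) := by ring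
    _ ≤ (L : ℝ) * K (y + m) := mul_le_mul_of_nonneg_left hKy.le hLpos.le
    _ = _ := h3
    _ ≤ _ := h4

end Pool.Agent.TH270.Rec
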